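import Mathlib
import Pool.Agent.Lib.P0c8ca5V.GalF
import Pool.Agent.Lib.P0c8ca5V.TDefs
import Pool.Agent.Lib.P0c8ca5V.DC
import Pool.Agent.Lib.P0c8ca5N.RegP
import Pool.Agent.Lib.P0c8ca5Bw.Defs

/-!
# Pairs of group elements, weighted by the p'-part of the commutator

* `CF f`: `f` is a class function. `pf p m`: `y ↦ m (y_{p'})`; `sf p m`: the same on the p-singular
  elements, `0` on the p-regular ones.
* `gn t`: the group generated by the pair `t`; `cj2 g t`: conjugation.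
* `bQ p U f`: the pairs `(a, b)` in `U` generating a group that contains `O^p(U)`, weighted by `f` at
  `[a, b]⁻¹`.
* `wX p q s M`: the pairs `(x, z)` with `z ^ q = 1`, `(x z) ^ s = 1`, generating a group that contains
  `O^p(A)`, weighted by `M x`.
* `sec p z`: the element of the group algebra with coefficient `z (y_{p'})` at `y`.
* `PRG p x`: `x` is conjugate to `x ^ j` for all `j` prime to `|A|`, `j = 1` modulo `p` and modulo
  the p'-part of `|A|`.
* `RC p q c`: the conjugates of the `u c`, `u` a p-element with `u ^ q ≠ 1` that commutes with `c` and is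
  p-rational in the centralizer of `c`.
-/

namespace Pool.Agent.Lib.P0c8ca5.Bx

open MonoidAlgebra

section
variable {A : Type*} [Group A]

/-- class functions -/
def CF (f : A → ℤ) : Prop := ∀ g x : A, f (g * x * g⁻¹) = f x

/-- `y ↦ m (y_{p'})` -/
noncomputable def pf (p : ℕ) (m : A → ℤ) : A → ℤ := fun y => m (pr p y)

open Classical in
/-- `y ↦ m (y_{p'})` on the p-singular elements -/
noncomputable def sf (p : ℕ) (m : A → ℤ) : A → ℤ := fun y => if Preg p y then 0 else m (pr p y)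

/-- the group generated by a pair -/
def gn (t : A × A) : Subgroup A := Subgroup.closure {t.1, t.2}

/-- conjugation of pairs -/
def cj2 (g : A) (t : A × A) : A × A := (g * t.1 * g⁻¹, g * t.2 * g⁻¹)

open Classical in
/-- the pairs in `U` generating a group that contains `O^p(U)` -/
noncomputable def bQ (p : ℕ) (U : Subgroup A) (f : A → ℤ) : ℤ :=
  ∑ᶠ t : A × A, if gn t ≤ U ∧ Opr p U ≤ gn t then f (cmt t.1 t.2)⁻¹ else 0

open Classical in
/-- the pairs `(x, z)` with `z ^ q = 1`, `(x z) ^ s = 1` -/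
noncomputable def wX (p q s : ℕ) (M : A → ℤ) : ℤ :=
  ∑ᶠ y : A × A, if y.2 ^ q = 1 ∧ (y.1 * y.2) ^ s = 1 ∧ Opr p (⊤ : Subgroup A) ≤ gn y
    then M y.1 else 0

/-- rotations of pairs -/
structure IsRq (q : ℕ) (E : A × A → A × A) : Prop where
  cj : ∀ g t, E (cj2 g t) = cj2 g (E t)
  pow : ∀ t, E^[q] t = cj2 (cmt t.1 t.2) t
  cm : ∀ t, cmt (E t).1 (E t).2 = cmt t.1 t.2
  gen : ∀ t, gn (E t) = gn t

/-- parametrization of the fixed orbits of a rotation -/
structure IsPq (q s : ℕ) (E : A × A → A × A) (T : A → A → A × A) : Prop where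
  fix : ∀ x z, z ^ q = 1 → (x * z) ^ s = 1 → E (T x z) = cj2 x (T x z)
  cm : ∀ x z, z ^ q = 1 → (x * z) ^ s = 1 → cmt (T x z).1 (T x z).2 = x ^ q
  surj : ∀ x t, E t = cj2 x t → cmt t.1 t.2 = x ^ q →
    ∃ z, z ^ q = 1 ∧ (x * z) ^ s = 1 ∧ t = T x z
  inj : ∀ x z z', T x z = T x z' → z = z'
  le : ∀ x z, gn (T x z) ≤ Subgroup.closure {x, z}
  zz : ∀ x z, ∃ i : ℤ, x ^ i * z ∈ gn (T x z)

/-- the number of the `x` with `E t = x t x⁻¹`, `x ^ q = [a, b]` -/
noncomputable def nY (q : ℕ) (E : A × A → A × A) (t : A × A) : ℕ :=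
  Nat.card {x : A // E t = cj2 x t ∧ x ^ q = cmt t.1 t.2}

/-- rational with respect to the powers fixing the p-regular elements -/
def PRG (p : ℕ) (x : A) : Prop := ∀ j : ℕ, GalJ p A j → j ≡ 1 [MOD p] → IsConj x (x ^ j)

/-- the conjugates of the `u c`, `u` p-rational in the centralizer of `c`, `u ^ q ≠ 1` -/
def RC (p q : ℕ) (c : A) : Set A :=
  {x | ∃ u : A, Pel p u ∧ u ^ q ≠ 1 ∧ Commute u c ∧
    (∀ j : ℕ, j ≡ 1 [MOD p] → ∃ g : A, Commute g c ∧ g * u * g⁻¹ = u ^ j) ∧ IsConj (u * c) x}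

open Classical in
/-- pairs, for involutions -/
noncomputable def pM (P : Set A) (M : A → ℤ) : ℤ :=
  ∑ᶠ y : A × A, if y.1 ∈ P ∧ y.2 ^ 2 = 1 ∧ Opr 2 (⊤ : Subgroup A) ≤ gn y
    then M (y.1 * y.2) else 0

open Classical in
/-- the triples of involutions -/
noncomputable def tM (P : Set A) (M : A → ℤ) : ℤ :=
  ∑ᶠ y : A × A × A, if y.1 ^ 2 = 1 ∧ y.2.1 ^ 2 = 1 ∧ y.2.2 ^ 2 = 1 ∧
    y.1 * y.2.2 = y.2.2 * y.1 ∧ y.1 * y.2.1 ∈ P ∧
    Opr 2 (⊤ : Subgroup A) ≤ Subgroup.closure {y.1, y.2.1, y.2.2}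
    then M (y.1 * y.2.1 * y.2.2) else 0

/-- the element with the coefficients of `z` at the p'-parts -/
noncomputable def sec (p : ℕ) {k : Type*} [Field k] [Finite A] (z : MonoidAlgebra k A) :
    MonoidAlgebra k A :=
  MonoidAlgebra.ofCoeff (Finsupp.equivFunOnFinite.symm fun y => z.coeff (pr p y))

theorem sec_coeff (p : ℕ) {k : Type*} [Field k] [Finite A] (z : MonoidAlgebra k A) (y : A) :
    (sec p z).coeff y = z.coeff (pr p y) := rfl

theorem sec_mem {p : ℕ} [Fact p.Prime] {k : Type*} [Field k] [Finite A] {z : MonoidAlgebra k A}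
    (hz : z ∈ fixAlg k (⊤ : Subgroup A) ⊤) : sec p z ∈ fixAlg k (⊤ : Subgroup A) ⊤ := by
  rw [mem_fixAlg] at hz ⊢
  refine ⟨fun x _ => Subgroup.mem_top x, fun g hg x => ?_⟩
  rw [sec_coeff, sec_coeff, pr_conj, hz.2 g hg]

theorem sec_zel (p : ℕ) (k : Type*) [Field k] [Finite A] (m : A → ℤ) :
    sec p (zel k m) = zel k (pf p m) := rfl

theorem CF_of_wt {p : ℕ} {m : A → ℤ} (hm : IsWt p ⊤ m) : CF m :=
  fun g x => hm.conj g (Subgroup.mem_top g) x

theorem CF_pf {p : ℕ} [Fact p.Prime] [Finite A] {m : A → ℤ} (hm : CF m) : CF (pf p m) := by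
  intro g x
  unfold pf
  rw [pr_conj, hm]

theorem preg_cj {p : ℕ} (g x : A) : Preg p (g * x * g⁻¹) ↔ Preg p x := by
  have h : orderOf (g * x * g⁻¹) = orderOf x :=
    orderOf_injective (MulAut.conj g).toMonoidHom (MulAut.conj g).injective x
  unfold Preg
  rw [h]

theorem CF_sf {p : ℕ} [Fact p.Prime] [Finite A] {m : A → ℤ} (hm : CF m) : CF (sf p m) := by
  classical
  intro g x
  unfold sf
  rw [pr_conj, hm]
  exact if_congr (preg_cj g x) rfl rfl

theorem sf_eq {p : ℕ} [Fact p.Prime] [Finite A] {m : A → ℤ} (hm : IsWt p ⊤ m) (x : A) :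
    sf p m x = pf p m x - m x := by
  classical
  unfold sf pf
  by_cases h : Preg p x
  · rw [if_pos h, pr_eq_self h, sub_self]
  · have h1 : m x = 0 := by
      by_contra h2
      exact h (hm.reg x h2)
    rw [if_neg h, h1, sub_zero]

end

end Pool.Agent.Lib.P0c8ca5.Bx
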