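import Mathlib
import Pool.Agent.Lib.P0c8ca5V.Quo
import Pool.Agent.Lib.P0c8ca5Bx.Defs

/-!
# Cop: centralizers of p-regular elements in `N(Q)/Q`

PROOF. `cent_lift`: let `B = N(Q)`, `U = Q` (normal p-subgroup of `B`), `c` p-regular; `g c g⁻¹` and `c` are p-regular elements of the same coset of `U` (`g` and `c` commute modulo `U`). By `QuoAux.conj_aux`
(two p-regular elements in the same coset of a normal p-subgroup `U` are conjugate under `U`) `g c g⁻¹ = v c v⁻¹` with `v ∈ U`; take `g' = v⁻¹ g`.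
`pel_lift`: `x` is a p-element modulo `Q` and `Q` is a p-group, so `x` is a p-element.
`Preg`/`Pel` in `↥N(Q)` and in `A`: `DCAux.preg_coe`, `DCAux.pel_coe`.
-/

namespace Pool.Agent.Lib.P0c8ca5.Bx

variable {p : ℕ} {A : Type*} [Group A]

theorem cent_lift [Fact p.Prime] [Finite A] {Q : Subgroup A} (hQ : IsPGroup p Q)
    {c g : ↥(Subgroup.normalizer (Q : Set A))} (hc : Preg p (c : A))
    (h : Commute (QuotientGroup.mk g : NQ Q) (QuotientGroup.mk c)) :
    ∃ g' : ↥(Subgroup.normalizer (Q : Set A)), (QuotientGroup.mk g' : NQ Q) = QuotientGroup.mk g ∧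
      Commute (g' : A) (c : A) := by
  have hU : IsPGroup p (Q.subgroupOf (Subgroup.normalizer (Q : Set A))) := hQ.comap_subtype
  have hc' : Preg p c := (DCAux.preg_coe c).1 hc
  have hs : Preg p (g * c * g⁻¹) := (preg_cj g c).2 hc'
  have h1 : (QuotientGroup.mk (g * c * g⁻¹) : NQ Q) = QuotientGroup.mk c := by
    rw [QuotientGroup.mk_mul, QuotientGroup.mk_mul, h.eq, QuotientGroup.mk_inv,
      mul_inv_cancel_right]
  have h2 : (g * c * g⁻¹)⁻¹ * c ∈ Q.subgroupOf (Subgroup.normalizer (Q : Set A)) :=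
    QuotientGroup.eq.1 h1
  obtain ⟨r, hr, e⟩ := QuoAux.conj_aux (Nat.card ↥(Subgroup.normalizer (Q : Set A)))
    ↥(Subgroup.normalizer (Q : Set A)) rfl (Q.subgroupOf (Subgroup.normalizer (Q : Set A)))
    hU _ _ hs hc' h2
  have hr1 : (QuotientGroup.mk r : NQ Q) = 1 := (QuotientGroup.eq_one_iff r).2 hr
  refine ⟨r * g, ?_, ?_⟩
  · rw [QuotientGroup.mk_mul, hr1, one_mul]
  · have e2 : (r * g) * c = c * (r * g) := by
      have e3 : r * (g * c * g⁻¹) * r⁻¹ * (r * g) = (r * g) * c := by group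
      rw [← e3, ← e]
    have := congrArg (Subtype.val) e2
    exact this

theorem pel_lift {Q : Subgroup A} (hQ : IsPGroup p Q)
    {x : ↥(Subgroup.normalizer (Q : Set A))} (hx : Pel p (QuotientGroup.mk x : NQ Q)) :
    Pel p (x : A) := by
  obtain ⟨n, hn⟩ := hx
  have h1 : (QuotientGroup.mk (x ^ p ^ n) : NQ Q) = 1 := by
    rw [QuotientGroup.mk_pow, hn]
  have h2 := (QuotientGroup.eq_one_iff _).1 h1
  rw [Subgroup.mem_subgroupOf] at h2
  obtain ⟨m, hm⟩ := hQ ⟨_, h2⟩
  refine ⟨n + m, ?_⟩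
  have h3 := congrArg (Subtype.val) hm
  rw [pow_add, pow_mul]
  simpa using h3

end Pool.Agent.Lib.P0c8ca5.Bx
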