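import Mathlib
import Pool.Agent.Lib.P0c8ca5V.ClsF
import Pool.Agent.Lib.P0c8ca5V.Quo
import Pool.Agent.Lib.P0c8ca5Bx.Defs

/-!
# ClsA: p-parts and p'-parts

PROOF. `PRG_iff`: let `x` be an element, `c₀ = pr p x`, `u = x * c₀⁻¹` (a p-element commuting with `c₀`, `exists_pow_mul_inv_pr`). `PRG p x` iff for all `j = 1` modulo `p` there is `g` commuting with `c₀` with
`g u g⁻¹ = u ^ j`. `←`: for `j` with `GalJ p G j`, `j = 1` modulo `p`: `x ^ j = u ^ j c₀ ^ j = u ^ j c₀` (`c₀ ^ j = c₀` because the order of `c₀` divides `ordCompl[p] |G|`), and `g x g⁻¹ = u ^ j c₀`. `→`: if `p ∣ |G|`: `exists_galJ` (P0c8ca5V.GalE) gives `i` with `GalJ p G i`, `i = 1` modulo `p`,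
`w ^ i = w ^ j` for all p-elements `w`; `x` is conjugate to `x ^ i = u ^ j c₀` by some `g`; taking `pr p` (`pr_mul`, `pr_of_pow`, `pr_conj`) `g c₀ g⁻¹ = c₀` and so `g u g⁻¹ = u ^ j`. If `p` does not divide `|G|` then `u = 1`.
`mem_RC_iff`: `x ∈ RC p q c` iff `c` is conjugate to `pr p x`, `(x * (pr p x)⁻¹) ^ q ≠ 1` and `PRG p x` (for p-regular `c`).
`sf_pow`: `sf p m ((x ^ q)⁻¹)` for `q = p ^ r`: it is `0` if `(x * (pr p x)⁻¹) ^ q = 1` (then `x ^ q` is p-regular), otherwise `m (((pr p x) ^ q)⁻¹)` (`pr` of a power, of an inverse).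
-/

namespace Pool.Agent.Lib.P0c8ca5.Bx

variable {p : ℕ} {G : Type*} [Group G] [Finite G]

namespace ClsAAux

omit [Finite G] in
theorem comm_pr (x : G) : Commute x (pr p x) := commute_pr (Commute.refl x)

omit [Finite G] in
theorem comm_u (x : G) : Commute (x * (pr p x)⁻¹) (pr p x) :=
  (comm_pr x).mul_left (Commute.refl _).inv_left

omit [Finite G] in
theorem pr_pow (x : G) (i : ℕ) : pr p (x ^ i) = pr p x ^ i := by
  unfold pr
  rw [← pow_mul, ← pow_mul, mul_comm]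

omit [Finite G] in
theorem pr_inv (x : G) : pr p x⁻¹ = (pr p x)⁻¹ := by
  unfold pr
  rw [inv_pow]

omit [Finite G] in
theorem x_pow (x : G) (i : ℕ) : x ^ i = (x * (pr p x)⁻¹) ^ i * pr p x ^ i := by
  conv_lhs => rw [← inv_mul_cancel_right x (pr p x)]
  exact (comm_u x).mul_pow i

theorem c_pow [Fact p.Prime] (x : G) {j : ℕ} (hj : GalJ p G j) : pr p x ^ j = pr p x := by
  conv_rhs => rw [← pow_one (pr p x)]
  rw [pow_eq_pow_iff_modEq]
  exact hj.2.of_dvd (orderOf_dvd_ordCompl (preg_pr x))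

end ClsAAux

open ClsAAux

theorem PRG_iff [Fact p.Prime] (x : G) : PRG p x ↔ ∀ j : ℕ, j ≡ 1 [MOD p] →
    ∃ g : G, Commute g (pr p x) ∧ g * (x * (pr p x)⁻¹) * g⁻¹ = (x * (pr p x)⁻¹) ^ j := by
  have hp : p.Prime := Fact.out
  constructor
  · intro hx j hj
    by_cases hpA : p ∣ Nat.card G
    · obtain ⟨i, hi1, hi2, hi3⟩ := GalE.exists_galJ hpA hj
      obtain ⟨g, hg⟩ := isConj_iff.1 (hx i hi1 hi2)
      have h1 : g * pr p x * g⁻¹ = pr p x := by
        rw [← pr_conj, hg, pr_pow, c_pow x hi1]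
      refine ⟨g, ?_, ?_⟩
      · have h2 := congrArg (fun y => y * g) h1
        simp only [inv_mul_cancel_right] at h2
        exact h2
      · have h3 : g * (x * (pr p x)⁻¹) * g⁻¹ = (g * x * g⁻¹) * (g * pr p x * g⁻¹)⁻¹ := by group
        rw [h3, hg, h1, x_pow (p := p) x i, c_pow x hi1, mul_inv_cancel_right]
        exact hi3 _ (exists_pow_mul_inv_pr x)
    · have h1 : Preg p x := fun h => hpA (h.trans (orderOf_dvd_natCard x))
      refine ⟨1, Commute.one_left _, ?_⟩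
      rw [pr_eq_self h1, mul_inv_cancel, one_pow, one_mul, one_mul, inv_one]
  · intro h j hj hj1
    obtain ⟨g, hg1, hg2⟩ := h j hj1
    refine isConj_iff.2 ⟨g, ?_⟩
    have h1 : g * pr p x * g⁻¹ = pr p x := by
      rw [hg1.eq, mul_inv_cancel_right]
    have h2 : g * x * g⁻¹ = (g * (x * (pr p x)⁻¹) * g⁻¹) * (g * pr p x * g⁻¹) := by group
    rw [h2, hg2, h1, x_pow (p := p) x j, c_pow x hj]

theorem mem_RC_iff [Fact p.Prime] {q : ℕ} {c : G} (hc : Preg p c) (x : G) :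
    x ∈ RC p q c ↔ IsConj c (pr p x) ∧ (x * (pr p x)⁻¹) ^ q ≠ 1 ∧ PRG p x := by
  constructor
  · rintro ⟨u, ⟨n, hn⟩, huq, huc, hj, hx⟩
    obtain ⟨h, rfl⟩ := isConj_iff.1 hx
    have h1 : pr p (h * (u * c) * h⁻¹) = h * c * h⁻¹ := by
      rw [pr_conj, pr_mul huc, pr_of_pow hn, one_mul, pr_eq_self hc]
    have h2 : h * (u * c) * h⁻¹ * (pr p (h * (u * c) * h⁻¹))⁻¹ = h * u * h⁻¹ := by
      rw [h1]; group
    refine ⟨isConj_iff.2 ⟨h, h1.symm⟩, ?_, ?_⟩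
    · rw [h2, conj_pow]
      intro h3
      exact huq (conj_eq_one_iff.1 h3)
    · rw [PRG_iff]
      intro j hj1
      obtain ⟨g, hg1, hg2⟩ := hj j hj1
      refine ⟨h * g * h⁻¹, ?_, ?_⟩
      · rw [h1]
        have h4 : h * g * h⁻¹ * (h * c * h⁻¹) = h * c * h⁻¹ * (h * g * h⁻¹) := by
          have h5 : h * g * h⁻¹ * (h * c * h⁻¹) = h * (g * c) * h⁻¹ := by group
          have h6 : h * c * h⁻¹ * (h * g * h⁻¹) = h * (c * g) * h⁻¹ := by group
          rw [h5, h6, hg1.eq]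
        exact h4
      · rw [h2, conj_pow, ← hg2]
        group
  · rintro ⟨h1, h2, h3⟩
    obtain ⟨h, hh⟩ := isConj_iff.1 h1
    rw [PRG_iff] at h3
    have hu : Pel p (x * (pr p x)⁻¹) := exists_pow_mul_inv_pr x
    obtain ⟨n, hn⟩ := hu
    have hc1 : c = h⁻¹ * pr p x * h := by rw [← hh]; group
    have h0 : ∀ (y : G) (k : ℕ), (h⁻¹ * y * h) ^ k = h⁻¹ * y ^ k * h := by
      intro y k
      have := conj_pow (i := k) (a := h⁻¹) (b := y)
      rwa [inv_inv] at this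
    refine ⟨h⁻¹ * (x * (pr p x)⁻¹) * h, ⟨n, ?_⟩, ?_, ?_, ?_, ?_⟩
    · rw [h0, hn]; group
    · rw [h0]
      intro h4
      apply h2
      have h5 : h * (h⁻¹ * (x * (pr p x)⁻¹) ^ q * h) * h⁻¹ = h * 1 * h⁻¹ := by rw [h4]
      have h6 : h * (h⁻¹ * (x * (pr p x)⁻¹) ^ q * h) * h⁻¹ = (x * (pr p x)⁻¹) ^ q := by group
      rw [h6] at h5
      rw [h5]; group
    · rw [hc1]
      have h4 := (comm_u (p := p) x).eq
      have h5 : h⁻¹ * (x * (pr p x)⁻¹) * h * (h⁻¹ * pr p x * h) =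
          h⁻¹ * (x * (pr p x)⁻¹ * pr p x) * h := by group
      have h6 : h⁻¹ * pr p x * h * (h⁻¹ * (x * (pr p x)⁻¹) * h) =
          h⁻¹ * (pr p x * (x * (pr p x)⁻¹)) * h := by group
      change _ = _
      rw [h5, h6, h4]
    · intro j hj
      obtain ⟨g, hg1, hg2⟩ := h3 j hj
      refine ⟨h⁻¹ * g * h, ?_, ?_⟩
      · rw [hc1]
        have h5 : h⁻¹ * g * h * (h⁻¹ * pr p x * h) = h⁻¹ * (g * pr p x) * h := by group
        have h6 : h⁻¹ * pr p x * h * (h⁻¹ * g * h) = h⁻¹ * (pr p x * g) * h := by group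
        change _ = _
        rw [h5, h6, hg1.eq]
      · rw [h0, ← hg2]
        group
    · refine isConj_iff.2 ⟨h, ?_⟩
      rw [hc1]; group

theorem sf_pow [Fact p.Prime] (r : ℕ) (m : G → ℤ) (x : G) :
    ((x * (pr p x)⁻¹) ^ p ^ r = 1 → sf p m ((x ^ p ^ r)⁻¹) = 0) ∧
    ((x * (pr p x)⁻¹) ^ p ^ r ≠ 1 → sf p m ((x ^ p ^ r)⁻¹) = m (((pr p x) ^ p ^ r)⁻¹)) := by
  classical
  have h0 : pr p ((x ^ p ^ r)⁻¹) = (pr p x ^ p ^ r)⁻¹ := by rw [pr_inv, pr_pow]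
  constructor
  · intro h
    have h1 : x ^ p ^ r = pr p x ^ p ^ r := by rw [x_pow (p := p) x, h, one_mul]
    have h2 : Preg p ((x ^ p ^ r)⁻¹) := by
      intro h3
      rw [orderOf_inv, h1] at h3
      exact preg_pr x (h3.trans (orderOf_pow_dvd _))
    unfold sf
    rw [if_pos h2]
  · intro h
    have h2 : ¬ Preg p ((x ^ p ^ r)⁻¹) := by
      intro h3
      have h4 := pr_eq_self h3
      rw [h0, inv_inj] at h4
      apply h
      have h5 := x_pow (p := p) x (p ^ r)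
      rw [← h4] at h5
      exact (right_eq_mul.1 h5)
    unfold sf
    rw [if_neg h2, h0]

end Pool.Agent.Lib.P0c8ca5.Bx
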