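import Mathlib
import Pool.Agent.Lib.P0c8ca5V.ClsF
import Pool.Agent.Lib.P0c8ca5V.MainP
import Pool.Agent.Lib.P0c8ca5Bx.ClsA

/-!
# ClsB: single conjugacy classes, pairs

PROOF. `wX_cls`: both sides are sums over the pairs; `(x, z) ↦ (v, w) = (x z, z⁻¹)`, `x = v w`, `closure {x, z} = closure {v, w}`, `ClsFAux.opr_le_iff`. `→`: for p-regular `c` let `m` be the indicator of the class of `(c ^ q)⁻¹`
(`MainPAux.isWt_class` or directly); `IsConj (c ^ q)⁻¹ (((pr p x) ^ q)⁻¹) ↔ IsConj c (pr p x)` because `y ↦ y ^ q` is injective on p-regular elements (`q` prime to their orders: `(y ^ q) ^ q' = y` for a suitable `q'`). `←`: `m` is a sum over the classes `X` of p-regular elements of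
`m (X.out)` times the indicator of `X` (see `tS_iff_class`, P0c8ca5Bw.InvA, and `bB_iff_class`, P0c8ca5V.ClsF).
`bQ_cls`: the same, simpler: `sf p m ([a, b]⁻¹)` is `0` if `[a, b]` is p-regular, otherwise `m ((pr p [a, b])⁻¹)`; for p-regular `c` use the indicator of the class of `c⁻¹`.
-/

namespace Pool.Agent.Lib.P0c8ca5.Bx

variable {p : ℕ} {G : Type*} [Group G] [Finite G]

namespace ClsBAux

theorem pow_uexp [Fact p.Prime] {y : G} (hy : Preg p y) (k : ℕ) : y ^ (uexp p G) ^ k = y := by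
  induction k with
  | zero => simp
  | succ k ih =>
    rw [pow_succ, pow_mul, ih]
    exact pr_eq_self hy

theorem exists_n [Fact p.Prime] (r : ℕ) : ∃ n : ℕ, ∀ y : G, Preg p y → (y ^ p ^ r) ^ n = y := by
  have hp : p.Prime := Fact.out
  have h1 : 0 < Nat.card G * Nat.totient (ordCompl[p] (Nat.card G)) :=
    Nat.mul_pos Nat.card_pos (Nat.totient_pos.mpr (Nat.ordCompl_pos p Nat.card_pos.ne'))
  obtain ⟨M, hM⟩ : ∃ M, Nat.card G * Nat.totient (ordCompl[p] (Nat.card G)) = M + 1 :=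
    ⟨_, (Nat.succ_pred_eq_of_pos h1).symm⟩
  refine ⟨p ^ (M * r), fun y hy => ?_⟩
  have h2 := pow_uexp hy r
  unfold uexp at h2
  rw [hM, ← pow_mul] at h2
  rw [← pow_mul, ← pow_add]
  have e : r + M * r = (M + 1) * r := by ring
  rw [e]
  exact h2

theorem preg_inv {y : G} (hy : Preg p y) : Preg p y⁻¹ := by
  unfold Preg
  rw [orderOf_inv]
  exact hy

theorem preg_pow {y : G} (hy : Preg p y) (n : ℕ) : Preg p (y ^ n) :=
  fun h => hy (h.trans (orderOf_pow_dvd n))

theorem conj_inv {x y : G} (h : IsConj x y) : IsConj x⁻¹ y⁻¹ := by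
  obtain ⟨c, hc⟩ := isConj_iff.1 h
  refine isConj_iff.2 ⟨c, ?_⟩
  rw [← hc]
  group

theorem conj_pow' {x y : G} (h : IsConj x y) (n : ℕ) : IsConj (x ^ n) (y ^ n) := by
  obtain ⟨c, hc⟩ := isConj_iff.1 h
  refine isConj_iff.2 ⟨c, ?_⟩
  rw [← hc, conj_pow]

theorem kap_iff [Fact p.Prime] (r : ℕ) {c d : G} (hc : Preg p c) (hd : Preg p d) :
    IsConj (c ^ p ^ r)⁻¹ (d ^ p ^ r)⁻¹ ↔ IsConj c d := by
  constructor
  · intro h
    obtain ⟨n, hn⟩ := exists_n (G := G) (p := p) r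
    have h1 := conj_pow' (conj_inv h) n
    rw [inv_inv, inv_inv, hn c hc, hn d hd] at h1
    exact h1
  · intro h
    exact conj_inv (conj_pow' h _)

theorem preg_isConj {c d : G} (h : IsConj c d) (hd : Preg p d) : Preg p c := by
  obtain ⟨g, hg⟩ := isConj_iff.1 h
  rw [← hg, preg_conj] at hd
  exact hd

open Classical in
theorem gen_cls [Fact p.Prime] {ι : Type*} [Fintype ι] (P : ι → Prop) (ψ : ι → G)
    (hψ : ∀ y, Preg p (ψ y)) (r : ℕ) (d : ℤ) :
    (∀ m : G → ℤ, IsWt p ⊤ m → d ∣ ∑ y, if P y then m (ψ y ^ p ^ r)⁻¹ else 0) ↔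
    ∀ c : G, Preg p c → d ∣ (Nat.card {y : ι // P y ∧ IsConj c (ψ y)} : ℤ) := by
  have : Fintype G := Fintype.ofFinite G
  have hcard : ∀ c : G, (Nat.card {y : ι // P y ∧ IsConj c (ψ y)} : ℤ)
      = ∑ y, if P y then (if IsConj c (ψ y) then 1 else 0) else 0 := by
    intro c
    rw [Nat.card_eq_fintype_card, Fintype.card_subtype, Finset.card_filter]
    push_cast
    refine Finset.sum_congr rfl fun y _ => ?_
    by_cases h1 : P y
    · by_cases h2 : IsConj c (ψ y)
      · rw [if_pos ⟨h1, h2⟩, if_pos h1, if_pos h2]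
      · rw [if_neg (fun h => h2 h.2), if_pos h1, if_neg h2]
    · rw [if_neg (fun h => h1 h.1), if_neg h1]
  constructor
  · intro h c hc
    have h1 := h (fun x => if IsConj (c ^ p ^ r)⁻¹ x then 1 else 0)
      (MainPAux.isWt_class (preg_inv (preg_pow hc _)) (fun x hx => if_pos hx)
        (fun x hx => if_neg hx))
    rw [hcard]
    refine h1.trans (dvd_of_eq (Finset.sum_congr rfl fun y _ => ?_))
    by_cases h2 : P y
    · rw [if_pos h2, if_pos h2]
      exact if_congr (kap_iff r hc (hψ y)) rfl rfl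
    · rw [if_neg h2, if_neg h2]
  · intro h m hm
    have key : (∑ y, if P y then m (ψ y ^ p ^ r)⁻¹ else 0)
        = ∑ X : ConjClasses G, m ((Quotient.out X) ^ p ^ r)⁻¹ *
            (Nat.card {y : ι // P y ∧ IsConj (Quotient.out X) (ψ y)} : ℤ) := by
      simp only [hcard, Finset.mul_sum]
      rw [Finset.sum_comm]
      refine Finset.sum_congr rfl (fun y _ => ?_)
      by_cases hg : P y
      · simp only [if_pos hg]
        rw [Finset.sum_eq_single (ConjClasses.mk (ψ y))]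
        · have h1 : IsConj (Quotient.out (ConjClasses.mk (ψ y))) (ψ y) :=
            ConjClasses.mk_eq_mk_iff_isConj.1 (Quotient.out_eq _)
          rw [if_pos h1, mul_one]
          obtain ⟨c, hc⟩ := isConj_iff.1 (conj_inv (conj_pow' h1 (p ^ r)))
          have h2 := hm.conj c (Subgroup.mem_top c)
            ((Quotient.out (ConjClasses.mk (ψ y))) ^ p ^ r)⁻¹
          rw [hc] at h2
          exact h2
        · intro X _ hX
          rw [if_neg, mul_zero]
          intro h1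
          apply hX
          have h2 := ConjClasses.mk_eq_mk_iff_isConj.2 h1
          rw [← h2]
          exact (Quotient.out_eq X).symm
        · intro h1
          exact absurd (Finset.mem_univ _) h1
      · simp only [if_neg hg, mul_zero, Finset.sum_const_zero]
    rw [key]
    refine Finset.dvd_sum (fun X _ => Dvd.dvd.mul_left ?_ _)
    by_cases hX : Preg p (Quotient.out X)
    · exact h _ hX
    · have : IsEmpty {y : ι // P y ∧ IsConj (Quotient.out X) (ψ y)} :=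
        ⟨fun y => hX (preg_isConj y.2.2 (hψ _))⟩
      rw [Nat.card_of_isEmpty]
      exact dvd_zero _

/-- change of variables -/
def eqv (G : Type*) [Group G] : G × G ≃ G × G where
  toFun y := (y.1 * y.2, y.2⁻¹)
  invFun y := (y.1 * y.2, y.2⁻¹)
  left_inv y := by simp
  right_inv y := by simp

theorem clo_eqv (x z : G) : Subgroup.closure ({x * z, z⁻¹} : Set G) = Subgroup.closure {x, z} := by
  apply le_antisymm
  · rw [Subgroup.closure_le]
    have hx : x ∈ Subgroup.closure ({x, z} : Set G) := Subgroup.subset_closure (by simp)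
    have hz : z ∈ Subgroup.closure ({x, z} : Set G) := Subgroup.subset_closure (by simp)
    rintro y (rfl | rfl)
    · exact mul_mem hx hz
    · exact inv_mem hz
  · rw [Subgroup.closure_le]
    have hx : x * z ∈ Subgroup.closure ({x * z, z⁻¹} : Set G) := Subgroup.subset_closure (by simp)
    have hz : z⁻¹ ∈ Subgroup.closure ({x * z, z⁻¹} : Set G) := Subgroup.subset_closure (by simp)
    rintro y (rfl | rfl)
    · have := mul_mem hx hz
      rwa [mul_inv_cancel_right] at this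
    · have := inv_mem hz
      rwa [inv_inv] at this

end ClsBAux

open ClsBAux

open Classical in
theorem wX_cls [Fact p.Prime] (r s : ℕ) (d : ℤ) :
    (∀ m : G → ℤ, IsWt p ⊤ m → d ∣ wX p (p ^ r) s
      (fun x => if PRG p x then sf p m ((x ^ p ^ r)⁻¹) else 0)) ↔
    ∀ c : G, Preg p c → d ∣ (Nat.card {y : G × G // y.1 ^ s = 1 ∧ y.2 ^ p ^ r = 1 ∧
      y.1 * y.2 ∈ RC p (p ^ r) c ∧
      ∀ w : G, Preg p w → w ∈ Subgroup.closure ({y.1, y.2} : Set G)} : ℤ) := by
  have : Fintype G := Fintype.ofFinite G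
  obtain ⟨P, hP⟩ : ∃ P : G × G → Prop, ∀ y, P y ↔ (y.2 ^ p ^ r = 1 ∧ (y.1 * y.2) ^ s = 1 ∧
    Opr p (⊤ : Subgroup G) ≤ gn y) ∧ PRG p y.1 ∧ (y.1 * (pr p y.1)⁻¹) ^ p ^ r ≠ 1 :=
    ⟨_, fun _ => Iff.rfl⟩
  have h1 : ∀ m : G → ℤ, wX p (p ^ r) s (fun x => if PRG p x then sf p m ((x ^ p ^ r)⁻¹) else 0)
      = ∑ y : G × G, if P y then m (pr p y.1 ^ p ^ r)⁻¹ else 0 := by
    intro m
    unfold wX
    rw [finsum_eq_sum_of_fintype]
    refine Finset.sum_congr rfl fun y _ => ?_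
    obtain ⟨s1, s2⟩ := sf_pow (p := p) r m y.1
    by_cases a1 : y.2 ^ p ^ r = 1 ∧ (y.1 * y.2) ^ s = 1 ∧ Opr p (⊤ : Subgroup G) ≤ gn y
    · rw [if_pos a1]
      by_cases a2 : PRG p y.1
      · simp only [if_pos a2]
        by_cases a3 : (y.1 * (pr p y.1)⁻¹) ^ p ^ r = 1
        · rw [s1 a3, if_neg (fun h => ((hP y).1 h).2.2 a3)]
        · rw [s2 a3, if_pos ((hP y).2 ⟨a1, a2, a3⟩)]
      · simp only [if_neg a2]
        rw [if_neg (fun h => a2 ((hP y).1 h).2.1)]
    · rw [if_neg a1, if_neg (fun h => a1 ((hP y).1 h).1)]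
  have h2 := gen_cls (p := p) P (fun y => pr p y.1) (fun y => preg_pr _) r d
  simp only [h1]
  rw [h2]
  refine forall_congr' fun c => forall_congr' fun hc => ?_
  have h3 : Nat.card {y : G × G // P y ∧ IsConj c (pr p y.1)} =
      Nat.card {y : G × G // y.1 ^ s = 1 ∧ y.2 ^ p ^ r = 1 ∧ y.1 * y.2 ∈ RC p (p ^ r) c ∧
      ∀ w : G, Preg p w → w ∈ Subgroup.closure ({y.1, y.2} : Set G)} := by
    refine Nat.card_congr ((eqv G).subtypeEquiv fun y => ?_)
    have e1 : (eqv G y).1 = y.1 * y.2 := rfl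
    have e2 : (eqv G y).2 = y.2⁻¹ := rfl
    have e3 : gn y = Subgroup.closure {y.1, y.2} := rfl
    rw [e1, e2, clo_eqv, mul_inv_cancel_right, mem_RC_iff hc, inv_pow, inv_eq_one,
      ← ClsFAux.opr_le_iff, ← e3, hP y]
    tauto
  rw [h3]

open Classical in
theorem bQ_cls [Fact p.Prime] (d : ℤ) :
    (∀ m : G → ℤ, IsWt p ⊤ m → d ∣ bQ p (⊤ : Subgroup G) (sf p m)) ↔
    ∀ c : G, Preg p c → d ∣ (Nat.card {y : G × G // ¬ Preg p (cmt y.1 y.2) ∧
      IsConj c (pr p (cmt y.1 y.2)) ∧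
      ∀ w : G, Preg p w → w ∈ Subgroup.closure ({y.1, y.2} : Set G)} : ℤ) := by
  have : Fintype G := Fintype.ofFinite G
  obtain ⟨P, hP⟩ : ∃ P : G × G → Prop, ∀ y, P y ↔
    Opr p (⊤ : Subgroup G) ≤ gn y ∧ ¬ Preg p (cmt y.1 y.2) := ⟨_, fun _ => Iff.rfl⟩
  have h1 : ∀ m : G → ℤ, bQ p (⊤ : Subgroup G) (sf p m)
      = ∑ y : G × G, if P y then m (pr p (cmt y.1 y.2) ^ p ^ 0)⁻¹ else 0 := by
    intro m
    unfold bQ
    rw [finsum_eq_sum_of_fintype]
    refine Finset.sum_congr rfl fun y _ => ?_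
    have e0 : pr p (cmt y.1 y.2)⁻¹ = (pr p (cmt y.1 y.2))⁻¹ := by
      unfold pr
      rw [inv_pow]
    have e1 : Preg p (cmt y.1 y.2)⁻¹ ↔ Preg p (cmt y.1 y.2) := by
      unfold Preg
      rw [orderOf_inv]
    rw [pow_zero, pow_one]
    by_cases a1 : Opr p (⊤ : Subgroup G) ≤ gn y
    · rw [if_pos ⟨le_top, a1⟩]
      unfold sf
      by_cases a2 : Preg p (cmt y.1 y.2)
      · rw [if_pos (e1.2 a2), if_neg (fun h => ((hP y).1 h).2 a2)]
      · rw [if_neg (fun h => a2 (e1.1 h)), if_pos ((hP y).2 ⟨a1, a2⟩), e0]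
    · rw [if_neg (fun h => a1 h.2), if_neg (fun h => a1 ((hP y).1 h).1)]
  have h2 := gen_cls (p := p) P (fun y => pr p (cmt y.1 y.2)) (fun y => preg_pr _) 0 d
  simp only [h1]
  rw [h2]
  refine forall_congr' fun c => forall_congr' fun hc => ?_
  have h3 : Nat.card {y : G × G // P y ∧ IsConj c (pr p (cmt y.1 y.2))} =
      Nat.card {y : G × G // ¬ Preg p (cmt y.1 y.2) ∧ IsConj c (pr p (cmt y.1 y.2)) ∧
      ∀ w : G, Preg p w → w ∈ Subgroup.closure ({y.1, y.2} : Set G)} := by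
    refine Nat.card_congr ((Equiv.refl _).subtypeEquiv fun y => ?_)
    have e3 : gn y = Subgroup.closure {y.1, y.2} := rfl
    rw [Equiv.refl_apply, ← ClsFAux.opr_le_iff, ← e3, hP y]
    tauto
  rw [h3]

end Pool.Agent.Lib.P0c8ca5.Bx
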