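import Mathlib
import Pool.Agent.Lib.P0c8ca5V.THpB
import Pool.Agent.Lib.P0c8ca5Bx.Defs

/-!
# Sec: `sec z` is nilpotent on the blocks of positive defect

PROOF. As `hpe_nonDZ` (P0c8ca5V.THpB) with `sec p z` in place of `hpe p k A`: by `blk_nilp_or_unit` for the central element `sec p z` (`sec_mem`) there would be a central `w` with
`sec p z * w * f = f`; `z' ∈ P` of order `p` with `HasBr P f`, `D = zpowers z'`, `C = centralizer D`. `res_sq` becomes: `resS C (sec p z) * resS C (sec p z) = 0`: the coefficient function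
`y ↦ z.coeff (pr p y)` on `C` is invariant under `y ↦ d * y`, `d ∈ D` (`d` commutes with `y`, is a p-element: `pr_mul`, `pr_of_pow`: `pr p (d * y) = pr p y`); copy the proof of
`THpBAux.res_sq` (`sum_eq_sum_fixed`).
-/

namespace Pool.Agent.Lib.P0c8ca5.Bx

open MonoidAlgebra

set_option linter.unusedSectionVars false

variable {p : ℕ} {k : Type*} [Field k] {A : Type*} [Group A] [Finite A]
variable [Fact p.Prime] [CharP k p] [IsAlgClosed k]

namespace SecAux

theorem res_sq {z : MonoidAlgebra k A} {D : Subgroup A} (hD : IsPGroup p D) (hne : D ≠ ⊥)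
    (hcomm : D ≤ Subgroup.centralizer (D : Set A)) :
    resS (Subgroup.centralizer (D : Set A) : Set A) (sec p z) *
      resS (Subgroup.centralizer (D : Set A) : Set A) (sec p z) = 0 := by
  classical
  cases nonempty_fintype A
  set C := Subgroup.centralizer (D : Set A) with hC
  have hcm : ∀ d ∈ D, ∀ u ∈ C, d * u = u * d := by
    intro d hd u hu
    exact Subgroup.mem_centralizer_iff.1 hu d hd
  have hpr : ∀ d ∈ D, pr p d = 1 := by
    intro d hd
    obtain ⟨n, hn⟩ := hD ⟨d, hd⟩
    exact pr_of_pow (n := n) (by simpa using congrArg Subtype.val hn)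
  have hb : ∀ d ∈ D, ∀ u, (resS (C : Set A) (sec p z)).coeff (d * u) =
      (resS (C : Set A) (sec p z)).coeff u := by
    intro d hd u
    by_cases hu : u ∈ C
    · have hdu : d * u ∈ C := C.mul_mem (hcomm hd) hu
      rw [coeff_resS_of_mem _ (SetLike.mem_coe.2 hu), coeff_resS_of_mem _ (SetLike.mem_coe.2 hdu),
        sec_coeff, sec_coeff, pr_mul (show Commute d u from hcm d hd u hu), hpr d hd, one_mul]
    · have hdu : d * u ∉ C := by
        intro h'
        apply hu
        have := C.mul_mem (C.inv_mem (hcomm hd)) h'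
        rwa [inv_mul_cancel_left] at this
      rw [coeff_resS_of_notMem _ (fun h' => hu (SetLike.mem_coe.1 h')),
        coeff_resS_of_notMem _ (fun h' => hdu (SetLike.mem_coe.1 h'))]
  ext y
  rw [coeff_mul_fin]
  rw [sum_eq_sum_fixed (p := p) hD ((MulAction.toPermHom A A).comp D.subtype)
    (fun u => (resS (C : Set A) (sec p z)).coeff u *
      (resS (C : Set A) (sec p z)).coeff (u⁻¹ * y)) ?_ ∅ ?_]
  · rw [Finset.sum_empty]
    rfl
  · intro g u
    change (resS (C : Set A) (sec p z)).coeff ((g : A) * u) *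
      (resS (C : Set A) (sec p z)).coeff (((g : A) * u)⁻¹ * y) = _
    rw [hb g g.2 u]
    by_cases hu : u ∈ C
    · have h1 : ((g : A) * u)⁻¹ * y = (g : A)⁻¹ * (u⁻¹ * y) := by
        rw [hcm g g.2 u hu]
        group
      rw [h1, hb _ (D.inv_mem g.2)]
    · rw [coeff_resS_of_notMem _ (fun h' => hu (SetLike.mem_coe.1 h')), zero_mul, zero_mul]
  · intro x
    constructor
    · intro hx
      exact absurd hx (Finset.notMem_empty x)
    · intro hx
      exfalso
      obtain ⟨d, hd, hd1⟩ := (Subgroup.bot_or_exists_ne_one D).resolve_left hne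
      apply hd1
      have h1 : d * x = x := hx ⟨d, hd⟩
      exact mul_eq_right.1 h1

end SecAux

theorem sec_nonDZ {f z : MonoidAlgebra k A} (hf : IsBlock (⊤ : Subgroup A) f)
    (h : ¬ IsDZ p (⊤ : Subgroup A) f) (hz : z ∈ fixAlg k (⊤ : Subgroup A) ⊤) :
    IsNilpotent (sec p z * f) := by
  classical
  cases nonempty_fintype A
  have hh : sec p z ∈ fixAlg k (⊤ : Subgroup A) ⊤ := sec_mem hz
  rcases blk_nilp_or_unit hf hh with h1 | ⟨w, hw, hwf⟩
  · exact h1
  exfalso
  have hex : ∃ P : Subgroup A, IsPGroup p P ∧ HasBr P f ∧ P ≠ ⊥ := by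
    by_contra hcon
    apply h
    refine ⟨hf, fun P _ hP hbr => ?_⟩
    by_contra hne
    exact hcon ⟨P, hP, hbr, hne⟩
  obtain ⟨P, hP, ⟨x, hx, hfx⟩, hPne⟩ := hex
  obtain ⟨d, hd, hd1⟩ := (Subgroup.bot_or_exists_ne_one P).resolve_left hPne
  have hDP : Subgroup.zpowers d ≤ P := by rwa [Subgroup.zpowers_le]
  have hD : IsPGroup p (Subgroup.zpowers d) := hP.to_le hDP
  have hDne : Subgroup.zpowers d ≠ ⊥ := by
    rwa [Ne, Subgroup.zpowers_eq_bot]
  have hcomm : Subgroup.zpowers d ≤
      Subgroup.centralizer ((Subgroup.zpowers d : Subgroup A) : Set A) := by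
    rw [Subgroup.zpowers_le, Subgroup.mem_centralizer_iff]
    rintro _ ⟨n, rfl⟩
    exact ((Commute.refl d).zpow_left n).eq
  have hsq := SecAux.res_sq (p := p) (k := k) (z := z) hD hDne hcomm
  have hwf' : w * f ∈ fixAlg k (⊤ : Subgroup A) ⊤ := (fixAlg k _ _).mul_mem hw hf.mem
  have hwwf : w * (w * f) ∈ fixAlg k (⊤ : Subgroup A) ⊤ := (fixAlg k _ _).mul_mem hw hwf'
  have hhh : sec p z * sec p z ∈ fixAlg k (⊤ : Subgroup A) ⊤ := (fixAlg k _ _).mul_mem hh hh
  have hfe : sec p z * sec p z * (w * (w * f)) = f := by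
    have hc : w * sec p z = sec p z * w :=
      commute_of (mem_fixAlg.1 hw).1 (mem_fixAlg.1 hh).2
    calc sec p z * sec p z * (w * (w * f)) = sec p z * (sec p z * w) * (w * f) := by
          simp only [mul_assoc]
      _ = sec p z * (w * sec p z) * (w * f) := by rw [hc]
      _ = sec p z * w * (sec p z * w * f) := by simp only [mul_assoc]
      _ = f := by rw [hwf, hwf]
  have hinv : ∀ a : MonoidAlgebra k A, a ∈ fixAlg k (⊤ : Subgroup A) ⊤ →
      InvBy (Subgroup.zpowers d) a := fun a ha => (mem_fixAlg.1 ha).2.mono le_top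
  have h0 : resS (Subgroup.centralizer ((Subgroup.zpowers d : Subgroup A) : Set A) : Set A) f
      = 0 := by
    rw [← hfe, resS_mul hD (hinv _ hhh) (hinv _ hwwf), resS_mul hD (hinv _ hh) (hinv _ hh), hsq,
      zero_mul]
  apply hfx
  have hxC : x ∈ Subgroup.centralizer ((Subgroup.zpowers d : Subgroup A) : Set A) :=
    Subgroup.centralizer_le (SetLike.coe_subset_coe.2 hDP) hx
  rw [← coeff_resS_of_mem (S := (Subgroup.centralizer
    ((Subgroup.zpowers d : Subgroup A) : Set A) : Set A)) f hxC, h0]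
  rfl

end Pool.Agent.Lib.P0c8ca5.Bx
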