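import Mathlib
import Pool.Agent.Lib.P0c8ca5V.THpA
import Pool.Agent.Lib.P0c8ca5V.TDzA
import Pool.Agent.Lib.P0c8ca5Bx.Defs

/-!
# Sing: p-singular class sums vanish on blocks of defect zero

PROOF. `v * f = c • f` by `dz_scalar` (P0c8ca5V.TDzA). Suppose `c ≠ 0`. `f ≠ 0` (block), so `f.coeff g ≠ 0` for some `g`; let `x = f * single g⁻¹ 1`, so `x.coeff 1 = f.coeff g ≠ 0`.
Let `n` be as in `exists_q p k A` (see the proof of `hpe_mul_coeff` in P0c8ca5V.THpA): `y ^ p ^ n = pr p y` for all `y`. Let `x' = x ^ p ^ n`.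
 (a) `x'.coeff 1 = (x.coeff 1) ^ p ^ n ≠ 0`: `THpAAux.key hn f g` says `∑_{Pel y} f.coeff (y * g) ^ p ^ n = ((f * single g⁻¹ 1) ^ p ^ n).coeff 1`; the left side is `(∑_{Pel y} f.coeff (y * g)) ^ p ^ n`
     (Frobenius, `sum_pow_char_pow`) `= ((hpe * f).coeff g) ^ p ^ n` (`THpAAux.coeff_hpe_mul'`) `= (f.coeff g) ^ p ^ n` (`hpe_mul_dz`).
 (b) `(v * x').coeff 1 = 0`: `(v * x').coeff 1 = ∑ y, v.coeff y⁻¹ * x'.coeff y` (or `Fl φ x'` with `φ y = v.coeff y⁻¹`, a class function because `v` is central: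
     `φ (a * b) = φ (b * a)`), by `ChC.Fl_pow` `= ∑ y, x.coeff y ^ p ^ n * φ (y ^ p ^ n) = 0`, because `y ^ p ^ n = pr p y` is p-regular (`preg_pr`), its inverse too, and `v` vanishes there.
 (c) `v * x' = c • x'`: `x' = f * x'` (`f` idempotent and central: `x' = f ^ p ^ n * single .. = f * single ..`, `THpAAux.comm`), and `v * f = c • f`. So `(v * x').coeff 1 = c * x'.coeff 1 ≠ 0`.
-/

namespace Pool.Agent.Lib.P0c8ca5.Bx

open MonoidAlgebra

set_option linter.unusedSectionVars false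

variable {p : ℕ} {k : Type*} [Field k] {A : Type*} [Group A] [Finite A]
variable [Fact p.Prime] [CharP k p] [IsAlgClosed k]

theorem sing_dz {f v : MonoidAlgebra k A} (hf : IsDZ p (⊤ : Subgroup A) f)
    (hv : v ∈ fixAlg k (⊤ : Subgroup A) ⊤) (hs : ∀ y, Preg p y → v.coeff y = 0) : v * f = 0 := by
  classical
  have _ := Fintype.ofFinite A
  have hp : p.Prime := Fact.out
  obtain ⟨c, hc⟩ := dz_scalar hf hv
  by_cases hc0 : c = 0
  · rw [hc, hc0, zero_smul]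
  exfalso
  obtain ⟨g, hg⟩ : ∃ g, f.coeff g ≠ 0 := by
    by_contra h
    apply hf.blk.ne_zero
    ext g
    by_contra hg
    exact h ⟨g, hg⟩
  obtain ⟨n, hn0, hn, -⟩ := exists_q p k A
  have hexp : ExpChar k p := ExpChar.prime hp
  have hq0 : p ^ n ≠ 0 := (pow_pos hp.pos n).ne'
  -- (a)
  have ha : ((f * single g⁻¹ 1) ^ p ^ n).coeff 1 = f.coeff g ^ p ^ n := by
    rw [← THpAAux.key (p := p) hn f g]
    have h1 : (hpe p k A * f).coeff g = f.coeff g := by rw [hpe_mul_dz hf]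
    rw [THpAAux.coeff_hpe_mul'] at h1
    rw [← h1, sum_pow_char_pow]
    refine Finset.sum_congr rfl fun y _ => ?_
    split_ifs
    · rfl
    · exact (zero_pow hq0).symm
  -- (b)
  have hb : (v * (f * single g⁻¹ 1) ^ p ^ n).coeff 1 = 0 := by
    have hfl := ChC.Fl_pow (p := p) (k := k) (G := A) (fun y => v.coeff y⁻¹) (fun x y => by
      have h3 := (mem_fixAlg.1 hv).2 y (Subgroup.mem_top y) (x * y)⁻¹
      have e3 : y * (x * y)⁻¹ * y⁻¹ = (y * x)⁻¹ := by group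
      rw [e3] at h3
      exact h3.symm) (f * single g⁻¹ 1) n
    rw [ChC.Fl_apply] at hfl
    have h4 : ∑ y : A, (f * single g⁻¹ 1).coeff y ^ p ^ n * v.coeff (y ^ p ^ n)⁻¹ = 0 := by
      refine Finset.sum_eq_zero fun y _ => ?_
      rw [hn, hs, mul_zero]
      have h5 := preg_pr (p := p) y
      unfold Preg at h5 ⊢
      rwa [orderOf_inv]
    rw [coeff_mul_fin, ← h4, ← hfl]
    refine Fintype.sum_equiv (Equiv.inv A) _ _ fun y => ?_
    rw [Equiv.inv_apply, inv_inv, mul_one, mul_comm]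
  -- (c)
  have hx : (f * single g⁻¹ (1 : k)) ^ p ^ n = f * (single g⁻¹ (1 : k)) ^ p ^ n := by
    rw [(THpAAux.comm hf.blk.mem g⁻¹).mul_pow]
    congr 1
    exact IsIdempotentElem.pow_eq hf.blk.idem hq0
  have hcx : v * (f * single g⁻¹ (1 : k)) ^ p ^ n = c • (f * single g⁻¹ (1 : k)) ^ p ^ n := by
    rw [hx, ← mul_assoc, hc, smul_mul_assoc]
  rw [hcx, coeff_smul_apply, ha, smul_eq_mul] at hb
  exact mul_ne_zero hc0 (pow_ne_zero _ hg) hb

end Pool.Agent.Lib.P0c8ca5.Bx
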