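import Mathlib
import Pool.Agent.Lib.P0c8ca5V.TDzB
import Pool.Agent.Lib.P0c8ca5Bx.Sec
import Pool.Agent.Lib.P0c8ca5Bx.Sing

/-!
# TrS: the traces of `hpe * z` and of `sec z` agree

PROOF. As `trE_hpe` (P0c8ca5V.TDzB): `1 = ∑ b ∈ Bl, b`, `Bl` the (finite) set of the blocks (there `c = 1`), so `w = ∑ b ∈ Bl, w * b` for central `w`, and `trE` is additive (`TDzBAux.trE_sum`).
So it is enough to show `trE (hpe * z * b) = trE (sec z * b)` for each block `b`. If `b` is not `IsDZ`: both sides are `0` (`hpe_nonDZ`, `sec_nonDZ`: `hpe * z * b = z * (hpe * b)` is nilpotent,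
`trE_nilpotent` of R2b; see TDzB). If `b` is `IsDZ`: `hpe * z * b = z * b` (`hpe_mul_dz`, commutativity) and `(sec z - z) * b = 0` by `sing_dz` (`(sec z - z).coeff y = 0` for p-regular `y`:
`pr_eq_self`); so both are equal to `z * b`.
-/

namespace Pool.Agent.Lib.P0c8ca5.Bx

open MonoidAlgebra

set_option linter.unusedSectionVars false

variable {p : ℕ} {k : Type*} [Field k] {A : Type*} [Group A] [Fintype A]
variable [Fact p.Prime] [CharP k p] [IsAlgClosed k]

theorem trE_sec {z : MonoidAlgebra k A} (hz : z ∈ fixAlg k (⊤ : Subgroup A) ⊤) :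
    trE k (⊤ : Subgroup A) (fun x => (hpe p k A * z).coeff x)
      = trE k (⊤ : Subgroup A) (fun x => (sec p z).coeff x) := by
  classical
  have hone : (1 : MonoidAlgebra k A) ∈ fixAlg k (⊤ : Subgroup A) ⊤ := (fixAlg k _ _).one_mem
  have hfin : {b : MonoidAlgebra k A | IsBlock (⊤ : Subgroup A) b ∧ b * 1 ≠ 0}.Finite :=
    (finite_isBlock (k := k) (⊤ : Subgroup A)).subset (fun b hb => hb.1)
  have hB : ∀ b, b ∈ hfin.toFinset ↔ IsBlock (⊤ : Subgroup A) b ∧ b * 1 ≠ 0 := by
    intro b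
    rw [Set.Finite.mem_toFinset]
    rfl
  generalize hfin.toFinset = B at hB
  have hsum : ∑ b ∈ B, b = 1 := WSumAux.sum_blocks (p := p) hone (one_mul 1) B hB
  have hsec : sec p z ∈ fixAlg k (⊤ : Subgroup A) ⊤ := sec_mem hz
  have e1 : hpe p k A * z = ∑ b ∈ B, hpe p k A * z * b := by
    rw [← Finset.mul_sum, hsum, mul_one]
  have e2 : sec p z = ∑ b ∈ B, sec p z * b := by
    rw [← Finset.mul_sum, hsum, mul_one]
  have key : ∀ b ∈ B, trE k (⊤ : Subgroup A) (fun x => (hpe p k A * z * b).coeff x)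
      = trE k (⊤ : Subgroup A) (fun x => (sec p z * b).coeff x) := by
    intro b hb
    obtain ⟨hb1, _⟩ := (hB b).1 hb
    have hzb : z * b = b * z := commute_of (mem_fixAlg.1 hz).1 (mem_fixAlg.1 hb1.mem).2
    have e3 : hpe p k A * z * b = hpe p k A * b * z := by
      rw [mul_assoc, hzb, ← mul_assoc]
    by_cases hdz : IsDZ p (⊤ : Subgroup A) b
    · have h1 : hpe p k A * z * b = z * b := by
        rw [e3, hpe_mul_dz hdz, hzb]
      have h2 : (sec p z - z) * b = 0 := by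
        refine sing_dz (p := p) hdz ((fixAlg k (⊤ : Subgroup A) ⊤).sub_mem hsec hz) ?_
        intro y hy
        rw [coeff_sub, Finsupp.sub_apply, sec_coeff, pr_eq_self hy, sub_self]
      have h3 : sec p z * b = z * b := by
        rw [sub_mul, sub_eq_zero] at h2
        exact h2
      rw [h1, h3]
    · have hhb : hpe p k A * b ∈ fixAlg k (⊤ : Subgroup A) ⊤ :=
        (fixAlg k (⊤ : Subgroup A) ⊤).mul_mem hpe_mem hb1.mem
      have hm1 : hpe p k A * z * b ∈ fixAlg k (⊤ : Subgroup A) ⊤ := by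
        rw [e3]
        exact (fixAlg k (⊤ : Subgroup A) ⊤).mul_mem hhb hz
      have hm2 : sec p z * b ∈ fixAlg k (⊤ : Subgroup A) ⊤ :=
        (fixAlg k (⊤ : Subgroup A) ⊤).mul_mem hsec hb1.mem
      have hc : Commute (hpe p k A * b) z :=
        commute_of (mem_fixAlg.1 hhb).1 (mem_fixAlg.1 hz).2
      have hn1 : IsNilpotent (hpe p k A * z * b) := by
        rw [e3]
        exact hc.isNilpotent_mul_right (hpe_nonDZ hb1 hdz)
      rw [trE_nilpotent (p := p) (mem_fixAlg.1 hm1).1 (mem_fixAlg.1 hm1).2 hn1,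
        trE_nilpotent (p := p) (mem_fixAlg.1 hm2).1 (mem_fixAlg.1 hm2).2
          (sec_nonDZ hb1 hdz hz)]
  calc trE k (⊤ : Subgroup A) (fun x => (hpe p k A * z).coeff x)
      = trE k (⊤ : Subgroup A) (fun x => (∑ b ∈ B, hpe p k A * z * b).coeff x) := by rw [← e1]
    _ = ∑ b ∈ B, trE k (⊤ : Subgroup A) (fun x => (hpe p k A * z * b).coeff x) :=
        TDzBAux.trE_sum _ _ _
    _ = ∑ b ∈ B, trE k (⊤ : Subgroup A) (fun x => (sec p z * b).coeff x) :=
        Finset.sum_congr rfl key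
    _ = trE k (⊤ : Subgroup A) (fun x => (∑ b ∈ B, sec p z * b).coeff x) :=
        (TDzBAux.trE_sum _ _ _).symm
    _ = trE k (⊤ : Subgroup A) (fun x => (sec p z).coeff x) := by rw [← e2]

end Pool.Agent.Lib.P0c8ca5.Bx
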