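import Mathlib
import Pool.Agent.Lib.P0c8ca5V.TCnt
import Pool.Agent.Lib.P0c8ca5V.ChOrb
import Pool.Agent.Lib.P0c8ca5V.CB
import Pool.Agent.Lib.P0c8ca5Bx.TrS

/-!
# ABa: triples and pairs in the whole group

PROOF. `nA_pf`: let `k = AlgebraicClosure (ZMod p)`. `nA_trE` (P0c8ca5V.TCnt): `nA p ⊤ m = |A| t`, `(t : k) = trE (hpe * zel k m)`. `nE_trE` (R2b) for `⊤` and the class function `pf p m`
(`CF_pf`): `nE ⊤ (pf p m) = |A| t'`, `(t' : k) = trE (zel k (pf p m)) = trE (sec p (zel k m))` (`sec_zel`). By `trE_sec` (`zel_mem`) `((t - t' : ℤ) : k) = 0`, so `p ∣ t - t'`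
(`CharP.intCast_eq_zero_iff`).
`eE_dvd_cf`: as `eE_dvd` (P0c8ca5V.CB); for a class function `f` `|H|` divides `nE H f` (`nE_trE`).
`eE_sub`: linearity of `nE` and `chS`: `nE U (pf p m) - nE U m = nE U (sf p m)` (`sf_eq`).
-/

namespace Pool.Agent.Lib.P0c8ca5.Bx

open MonoidAlgebra

variable {p : ℕ} [Fact p.Prime] {A : Type*} [Group A] [Finite A]

theorem nA_pf {m : A → ℤ} (hm : IsWt p ⊤ m) :
    (p : ℤ) * (Nat.card A : ℤ) ∣ nA p (⊤ : Subgroup A) m - nE (⊤ : Subgroup A) (pf p m) := by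
  classical
  cases nonempty_fintype A
  have hc : CF m := CF_of_wt hm
  obtain ⟨t, h1, h2⟩ := nA_trE (k := AlgebraicClosure (ZMod p)) (p := p) hc
  obtain ⟨t', h3, h4⟩ := nE_trE (k := AlgebraicClosure (ZMod p)) (⊤ : Subgroup A) (m := pf p m)
    (fun h _ x => CF_pf hc h x)
  have h5 := trE_sec (p := p) (k := AlgebraicClosure (ZMod p)) (z := zel _ m) (zel_mem hc)
  have h6 : ((t - t' : ℤ) : AlgebraicClosure (ZMod p)) = 0 := by
    rw [Int.cast_sub, h2, h4, h5, sub_eq_zero]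
    rfl
  have h7 : (p : ℤ) ∣ t - t' := (CharP.intCast_eq_zero_iff (AlgebraicClosure (ZMod p)) p _).1 h6
  obtain ⟨c, hc'⟩ := h7
  rw [h1, h3, Subgroup.card_top, ← mul_sub, hc']
  exact ⟨c, by ring⟩

theorem eE_dvd_cf {f : A → ℤ} (hf : CF f) : (Nat.card A : ℤ) ∣ eE p f := by
  cases nonempty_fintype A
  have h := chS_dvd (p := p) (fun U : Subgroup A => nE U f)
    (fun g U => nE_conj U g (fun x => hf g x)) 1
    (fun σ _ => by
      rw [one_mul]
      obtain ⟨t, h1, _⟩ := nE_trE (k := AlgebraicClosure (ZMod p)) (sN σ) (m := f)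
        (fun h _ x => hf h x)
      exact ⟨t, h1⟩)
  rwa [one_mul] at h

theorem eE_sub {m : A → ℤ} (hm : IsWt p ⊤ m) : eE p (pf p m) - eE p m = eE p (sf p m) := by
  classical
  cases nonempty_fintype A
  have := Fintype.ofFinite (Subgroup A)
  have h1 : ∀ U : Subgroup A, nE U (sf p m) = nE U (pf p m) - nE U m := by
    intro U
    unfold nE
    rw [finsum_eq_sum_of_fintype, finsum_eq_sum_of_fintype, finsum_eq_sum_of_fintype,
      ← Finset.sum_sub_distrib]
    refine Finset.sum_congr rfl fun t _ => ?_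
    split_ifs
    · exact sf_eq hm _
    · rw [sub_zero]
  unfold eE chS
  rw [finsum_eq_sum_of_fintype, finsum_eq_sum_of_fintype, finsum_eq_sum_of_fintype,
    ← Finset.sum_sub_distrib]
  refine Finset.sum_congr rfl fun σ _ => ?_
  split_ifs
  · simp only [h1]
    ring
  · rw [sub_zero]

end Pool.Agent.Lib.P0c8ca5.Bx
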