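import Mathlib
import Pool.Agent.Lib.P0c8ca5Bx.ABa

/-!
# ABb: triples and pairs in subgroups and chain stabilizers

PROOF. `nA_dn`, `nE_dn`: reindexing (`finsum_subtype_eq_finsum_cond` or `finsum_mem_range` as in `bB_dn`, P0c8ca5V.DC; `DCAux.pel_coe`).
`pf_dn`, `sf_dn`: `pr p (x : A) = ((pr p x : ↥H) : A)` (`QuoAux.pr_hom` for `H.subtype`), `DCAux.preg_coe`.
`nA_pf_sub`: `nA_pf` for the group `↥H` and `m` restricted (`IsWt_dn`), `nA_dn`, `nE_dn`, `pf_dn`.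
`eA_pf`: `eA p m - eE p (pf p m) = chS p (fun U => nA p U m - nE U (pf p m))` and `chS_dvd` (P0c8ca5V.ChOrb) with `q = p`; invariance: `nA_conj`, `nE_conj` (`CF_pf`).
-/

namespace Pool.Agent.Lib.P0c8ca5.Bx

open MonoidAlgebra

variable {p : ℕ} [Fact p.Prime] {A : Type*} [Group A] [Finite A]

namespace ABbAux

omit [Finite A] in
/-- the pair in `A` of a pair in `H` -/
theorem up2_injective (H : Subgroup A) :
    Function.Injective (fun t : ↥H × ↥H => ((t.1 : A), (t.2 : A))) := by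
  rintro ⟨a, b⟩ ⟨a', b'⟩ h
  simp only [Prod.mk.injEq, Subtype.coe_inj] at h
  exact Prod.ext h.1 h.2

omit [Finite A] in
theorem up3_injective (H : Subgroup A) :
    Function.Injective (fun t : ↥H × ↥H × ↥H => ((t.1 : A), (t.2.1 : A), (t.2.2 : A))) := by
  rintro ⟨a, b, c⟩ ⟨a', b', c'⟩ h
  simp only [Prod.mk.injEq, Subtype.coe_inj] at h
  exact Prod.ext h.1 (Prod.ext h.2.1 h.2.2)

theorem sum2 (H : Subgroup A) (f : A × A → ℤ) (hf : ∀ t, ¬ (t.1 ∈ H ∧ t.2 ∈ H) → f t = 0) :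
    ∑ᶠ t : ↥H × ↥H, f ((t.1 : A), (t.2 : A)) = ∑ᶠ t : A × A, f t := by
  classical
  have := Fintype.ofFinite A
  rw [finsum_eq_sum_of_fintype, finsum_eq_sum_of_fintype]
  refine Fintype.sum_of_injective _ (up2_injective H) _ _ ?_ ?_
  · rintro ⟨a, b⟩ h
    refine hf _ (fun h1 => h ?_)
    exact ⟨(⟨a, h1.1⟩, ⟨b, h1.2⟩), rfl⟩
  · intro t
    rfl

theorem sum3 (H : Subgroup A) (f : A × A × A → ℤ)
    (hf : ∀ t, ¬ (t.1 ∈ H ∧ t.2.1 ∈ H ∧ t.2.2 ∈ H) → f t = 0) :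
    ∑ᶠ t : ↥H × ↥H × ↥H, f ((t.1 : A), (t.2.1 : A), (t.2.2 : A)) = ∑ᶠ t : A × A × A, f t := by
  classical
  have := Fintype.ofFinite A
  rw [finsum_eq_sum_of_fintype, finsum_eq_sum_of_fintype]
  refine Fintype.sum_of_injective _ (up3_injective H) _ _ ?_ ?_
  · rintro ⟨a, b, c⟩ h
    refine hf _ (fun h1 => h ?_)
    exact ⟨(⟨a, h1.1⟩, ⟨b, h1.2.1⟩, ⟨c, h1.2.2⟩), rfl⟩
  · intro t
    rfl

theorem chS_sub (F G : Subgroup A → ℤ) :
    chS p F - chS p G = chS p (fun U => F U - G U) := by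
  classical
  have := Fintype.ofFinite (Subgroup A)
  unfold chS
  rw [finsum_eq_sum_of_fintype, finsum_eq_sum_of_fintype, finsum_eq_sum_of_fintype,
    ← Finset.sum_sub_distrib]
  refine Finset.sum_congr rfl (fun σ _ => ?_)
  split_ifs
  · ring
  · ring

end ABbAux

open ABbAux

theorem nA_dn (H : Subgroup A) (m : A → ℤ) :
    nA p (⊤ : Subgroup ↥H) (fun x => m x) = nA p H m := by
  classical
  unfold nA
  rw [← sum3 H (fun t : A × A × A => if (t.1 ∈ H ∧ t.2.1 ∈ H ∧ t.2.2 ∈ H) ∧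
    Pel p (cmt t.1 t.2.1 * t.2.2) then m t.2.2 else 0) (fun t h => if_neg (fun h1 => h h1.1))]
  refine finsum_congr (fun t => ?_)
  have h1 : Pel p (cmt (t.1 : A) (t.2.1 : A) * (t.2.2 : A)) ↔ Pel p (cmt t.1 t.2.1 * t.2.2) := by
    rw [← DCAux.pel_coe (cmt t.1 t.2.1 * t.2.2)]
    simp [cmt]
  have h2 : (((t.1 : A) ∈ H ∧ (t.2.1 : A) ∈ H ∧ (t.2.2 : A) ∈ H) ∧
      Pel p (cmt (t.1 : A) (t.2.1 : A) * (t.2.2 : A))) ↔
      ((t.1 ∈ (⊤ : Subgroup ↥H) ∧ t.2.1 ∈ (⊤ : Subgroup ↥H) ∧ t.2.2 ∈ (⊤ : Subgroup ↥H)) ∧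
      Pel p (cmt t.1 t.2.1 * t.2.2)) := by
    rw [h1]
    simp
  exact (if_congr h2 rfl rfl).symm

theorem nE_dn (H : Subgroup A) (f : A → ℤ) :
    nE (⊤ : Subgroup ↥H) (fun x => f x) = nE H f := by
  classical
  unfold nE
  rw [← sum2 H (fun t : A × A => if t.1 ∈ H ∧ t.2 ∈ H then f ((cmt t.1 t.2)⁻¹) else 0)
    (fun t h => if_neg h)]
  refine finsum_congr (fun t => ?_)
  have h1 : (((cmt t.1 t.2)⁻¹ : ↥H) : A) = (cmt (t.1 : A) (t.2 : A))⁻¹ := by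
    simp [cmt]
  have h2 : ((t.1 : A) ∈ H ∧ (t.2 : A) ∈ H) ↔
      (t.1 ∈ (⊤ : Subgroup ↥H) ∧ t.2 ∈ (⊤ : Subgroup ↥H)) := by
    simp
  rw [← h1]
  exact (if_congr h2 rfl rfl).symm

theorem pf_dn (H : Subgroup A) (m : A → ℤ) :
    pf p (fun x : ↥H => m x) = fun x : ↥H => pf p m x := by
  funext x
  unfold pf
  rw [QuoAux.pr_coe' x]

theorem sf_dn (H : Subgroup A) (m : A → ℤ) :
    sf p (fun x : ↥H => m x) = fun x : ↥H => sf p m x := by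
  classical
  funext x
  unfold sf
  rw [QuoAux.pr_coe' x]
  exact if_congr (DCAux.preg_coe x).symm rfl rfl

theorem nA_pf_sub (H : Subgroup A) {m : A → ℤ} (hm : IsWt p ⊤ m) :
    (p : ℤ) * (Nat.card H : ℤ) ∣ nA p H m - nE H (pf p m) := by
  have h := nA_pf (IsWt_dn H hm)
  rwa [nA_dn H m, pf_dn H m, nE_dn H (pf p m)] at h

theorem eA_pf {m : A → ℤ} (hm : IsWt p ⊤ m) :
    (p : ℤ) * (Nat.card A : ℤ) ∣ eA p m - eE p (pf p m) := by
  unfold eA eE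
  rw [chS_sub]
  refine chS_dvd _ (fun g U => ?_) _ (fun σ _ => nA_pf_sub _ hm)
  rw [nA_conj U g (fun x => CF_of_wt hm g x), nE_conj U g (fun x => CF_pf (CF_of_wt hm) g x)]

end Pool.Agent.Lib.P0c8ca5.Bx
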