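import Mathlib
import Pool.Agent.Lib.P0c8ca5Bx.PA
import Pool.Agent.Lib.P0c8ca5Bx.ABb

/-!
# PC: `eE p f` and the `bQ p U f`

Copies of P0c8ca5V.DC (and of `eA_sub_eE`, P0c8ca5V.CB) with pairs in place of the triples.
-/

namespace Pool.Agent.Lib.P0c8ca5.Bx

universe u

namespace PCAux

open DCAux

section
variable {p : ℕ} {A : Type*} [Group A]

theorem gn_le {t : A × A} {U : Subgroup A} : gn t ≤ U ↔ t.1 ∈ U ∧ t.2 ∈ U := by
  rw [gn, Subgroup.closure_le]
  constructor
  · intro h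
    exact ⟨h (by simp), h (by simp)⟩
  · rintro ⟨h1, h2⟩ x hx
    simp only [Set.mem_insert_iff, Set.mem_singleton_iff] at hx
    rcases hx with rfl | rfl
    · exact h1
    · exact h2

/-- the pair in `A` of a pair in `U` -/
def up (U : Subgroup A) (t : ↥U × ↥U) : A × A := (t.1, t.2)

theorem up_injective (U : Subgroup A) : Function.Injective (up U) := by
  rintro ⟨a, b⟩ ⟨a', b'⟩ h
  simp only [up, Prod.mk.injEq, Subtype.coe_inj] at h
  obtain ⟨rfl, rfl⟩ := h
  rfl

theorem gn_up (U : Subgroup A) (t : ↥U × ↥U) :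
    gn (up U t) = (gn t).map U.subtype := by
  unfold gn up
  rw [MonoidHom.map_closure]
  congr 1
  simp [Set.image_insert_eq]

theorem cmt_up (U : Subgroup A) (t : ↥U × ↥U) :
    (cmt (up U t).1 (up U t).2)⁻¹ = (((cmt t.1 t.2)⁻¹ : ↥U) : A) := by
  simp [cmt, up]

theorem range_up (U : Subgroup A) : Set.range (up U) = {t | gn t ≤ U} := by
  ext t
  rw [Set.mem_ofPred_eq, gn_le]
  constructor
  · rintro ⟨s, rfl⟩
    exact ⟨s.1.2, s.2.2⟩
  · rintro ⟨h1, h2⟩
    exact ⟨(⟨t.1, h1⟩, ⟨t.2, h2⟩), rfl⟩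

theorem Opr_top' (U : Subgroup A) : Opr p U = (Opr p (⊤ : Subgroup ↥U)).map U.subtype := by
  unfold Opr
  rw [MonoidHom.map_closure]
  congr 1
  ext x
  simp only [Set.mem_ofPred_eq, Set.mem_image, Subgroup.mem_top, true_and, Subgroup.coe_subtype]
  constructor
  · rintro ⟨hx, h⟩
    exact ⟨⟨x, hx⟩, (preg_coe (⟨x, hx⟩ : ↥U)).1 h, rfl⟩
  · rintro ⟨y, hy, rfl⟩
    exact ⟨y.2, (preg_coe y).2 hy⟩

open Classical in
/-- the sum over the pairs with `O^p(gn t) = H` -/
noncomputable def FH2 (p : ℕ) (f : A → ℤ) (H : Subgroup A) : ℤ :=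
  ∑ᶠ t : A × A, (if Opr p (gn t) = H then f (cmt t.1 t.2)⁻¹ * fK p (gn t) else 0)

/-- conjugation of pairs -/
def cj (g : A) : A × A ≃ A × A :=
  (MulAut.conj g).toEquiv.prodCongr (MulAut.conj g).toEquiv

theorem cj_eq (g : A) (t : A × A) : cj g t = cj2 g t := rfl

theorem f_cj {f : A → ℤ} (hf : CF f) (g : A) (t : A × A) :
    f (cmt (cj2 g t).1 (cj2 g t).2)⁻¹ = f (cmt t.1 t.2)⁻¹ := by
  have h : (cmt (cj2 g t).1 (cj2 g t).2)⁻¹ = g * (cmt t.1 t.2)⁻¹ * g⁻¹ := by
    simp only [cmt, cj2]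
    group
  rw [h, hf]

theorem FH2_cg [Fact p.Prime] [Finite A] {f : A → ℤ} (hf : CF f) (g : A) (H : Subgroup A) :
    FH2 p f (cg g H) = FH2 p f H := by
  classical
  unfold FH2
  rw [← finsum_comp_equiv (cj g)]
  refine finsum_congr (fun t => ?_)
  rw [cj_eq, gn_cj2, Opr_cg, f_cj hf, fK_conj]
  have h : cg g (Opr p (gn t)) = cg g H ↔ Opr p (gn t) = H := by
    constructor
    · intro h
      have := congrArg (cg g⁻¹) h
      rwa [cg_cg, cg_cg, inv_mul_cancel, cg_one, cg_one] at this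
    · intro h
      rw [h]
  simp only [h]

theorem sum_FH2 [Finite A] (f : A → ℤ) :
    ∑ᶠ t : A × A, f (cmt t.1 t.2)⁻¹ * fK p (gn t) = ∑ᶠ H : Subgroup A, FH2 p f H := by
  classical
  have := Fintype.ofFinite A
  have := Fintype.ofFinite (Subgroup A)
  simp only [FH2, finsum_eq_sum_of_fintype]
  rw [Finset.sum_comm]
  refine Finset.sum_congr rfl (fun t _ => ?_)
  rw [Finset.sum_ite_eq]
  simp

theorem cg_Opr_top' [Finite A] (g : A) : cg g (Opr p (⊤ : Subgroup A)) = Opr p ⊤ := by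
  rw [← Opr_cg]
  congr 1
  unfold cg
  exact Subgroup.map_top_of_surjective _ (MulAut.conj g).surjective

/-- the term `H = O^p(A)` -/
theorem FH2_top [Fact p.Prime] [Finite A] (f : A → ℤ) (hA : NoP p (⊤ : Subgroup A)) :
    FH2 p f (Opr p ⊤) = bQ p (⊤ : Subgroup A) f := by
  classical
  unfold FH2 bQ
  refine finsum_congr (fun t => ?_)
  have h : Opr p (gn t) = Opr p ⊤ ↔ (gn t ≤ ⊤ ∧ Opr p ⊤ ≤ gn t) := by
    constructor
    · intro h
      exact ⟨le_top, h ▸ Opr_le _⟩
    · rintro ⟨-, h⟩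
      exact Opr_eq_of_le h le_top
  by_cases h1 : Opr p (gn t) = Opr p ⊤
  · rw [if_pos h1, if_pos (h.1 h1), fK_one, mul_one]
    intro R hR hn
    exact norm_trivial hA le_top hR ((h.1 h1).2.trans hn)
  · rw [if_neg h1, if_neg (fun h2 => h1 (h.2 h2))]

end

end PCAux

open PCAux

section
variable {p : ℕ} {A : Type*} [Group A]

theorem eE_eq [Finite A] (p : ℕ) (f : A → ℤ) :
    eE p f = ∑ᶠ t : A × A, f (cmt t.1 t.2)⁻¹ * fK p (gn t) := by
  classical
  have := Fintype.ofFinite A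
  have := Fintype.ofFinite (Subgroup A)
  have e1 : eE p f = ∑ σ : Finset (Subgroup A), if IsCh p σ then
      (-1) ^ σ.card * ∑ t : A × A, (if gn t ≤ sN σ then f (cmt t.1 t.2)⁻¹ else 0) else 0 := by
    rw [eE, chS, finsum_eq_sum_of_fintype]
    refine Finset.sum_congr rfl (fun σ _ => ?_)
    by_cases hc : IsCh p σ
    · rw [if_pos hc, if_pos hc, nE, finsum_eq_sum_of_fintype]
      congr 1
      refine Finset.sum_congr rfl (fun t _ => ?_)
      simp only [gn_le]
    · rw [if_neg hc, if_neg hc]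
  rw [e1, finsum_eq_sum_of_fintype]
  have e2 : ∀ t : A × A, f (cmt t.1 t.2)⁻¹ * fK p (gn t) = ∑ σ : Finset (Subgroup A),
      if IsCh p σ then (-1) ^ σ.card * (if gn t ≤ sN σ then f (cmt t.1 t.2)⁻¹ else 0) else 0 := by
    intro t
    rw [fK, chS, finsum_eq_sum_of_fintype, Finset.mul_sum]
    refine Finset.sum_congr rfl (fun σ _ => ?_)
    by_cases hc : IsCh p σ
    · rw [if_pos hc, if_pos hc]
      by_cases hg : gn t ≤ sN σ
      · rw [if_pos hg, if_pos hg]
        ring
      · rw [if_neg hg, if_neg hg]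
        ring
    · rw [if_neg hc, if_neg hc, mul_zero]
  rw [Finset.sum_congr rfl (fun t _ => e2 t), Finset.sum_comm]
  refine Finset.sum_congr rfl (fun σ _ => ?_)
  by_cases hc : IsCh p σ
  · simp only [hc, if_true]
    rw [Finset.mul_sum]
  · simp [hc]

theorem bQ_dn (U : Subgroup A) (f : A → ℤ) :
    bQ p (⊤ : Subgroup ↥U) (fun x => f x) = bQ p U f := by
  classical
  unfold bQ
  have h1 : ∀ t : ↥U × ↥U, (if gn t ≤ ⊤ ∧ Opr p (⊤ : Subgroup ↥U) ≤ gn t
      then (fun x : ↥U => f x) (cmt t.1 t.2)⁻¹ else 0) =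
      (if gn (up U t) ≤ U ∧ Opr p U ≤ gn (up U t)
        then f (cmt (up U t).1 (up U t).2)⁻¹ else 0) := by
    intro t
    rw [cmt_up, gn_up, Opr_top' U,
      Subgroup.map_le_map_iff_of_injective U.subtype_injective]
    have h2 : (gn t).map U.subtype ≤ U := by
      rintro _ ⟨y, -, rfl⟩
      exact y.2
    simp only [le_top, h2, true_and]
  rw [finsum_congr h1, ← finsum_mem_range (f := fun t : A × A =>
    if gn t ≤ U ∧ Opr p U ≤ gn t then f (cmt t.1 t.2)⁻¹ else 0) (up_injective U), range_up,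
    finsum_mem_def]
  refine finsum_congr (fun t => ?_)
  by_cases h : gn t ≤ U
  · rw [Set.indicator_of_mem (show t ∈ {t | gn t ≤ U} from h)]
  · rw [Set.indicator_of_notMem (show t ∉ {t | gn t ≤ U} from h), if_neg (fun h' => h h'.1)]

theorem eE_of_bQ [Fact p.Prime] [Finite A] {f : A → ℤ} (hf : CF f)
    (h : ∀ U : Subgroup A, NoP p U →
      (p : ℤ) * (ordProj[p] (Nat.card U) : ℕ) ∣ bQ p U f) :
    (p : ℤ) * (ordProj[p] (Nat.card A) : ℕ) ∣ eE p f := by
  rw [eE_eq, sum_FH2]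
  refine sub_dvd_p _ (fun g U => FH2_cg hf g U) _ (fun K => ?_)
  exact sum_H2 hf (fun U _ hU2 => h U hU2)

end

theorem eE_iff_bQ {p : ℕ} [Fact p.Prime] :
    (∀ (G : Type u) [Group G] [Finite G] (m : G → ℤ), IsWt p ⊤ m →
      (p : ℤ) * (Nat.card G : ℤ) ∣ eE p (sf p m)) ↔
    (∀ (G : Type u) [Group G] [Finite G] (m : G → ℤ), IsWt p ⊤ m → NoP p (⊤ : Subgroup G) →
      (p : ℤ) * (ordProj[p] (Nat.card G) : ℕ) ∣ bQ p (⊤ : Subgroup G) (sf p m)) := by
  constructor
  · intro H
    have key : ∀ n : ℕ, ∀ (G : Type u) [Group G] [Finite G] (m : G → ℤ), Nat.card G = n →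
        IsWt p ⊤ m → NoP p (⊤ : Subgroup G) →
        (p : ℤ) * (ordProj[p] (Nat.card G) : ℕ) ∣ bQ p (⊤ : Subgroup G) (sf p m) := by
      intro n
      induction n using Nat.strong_induction_on with
      | _ n ih =>
      intro G _ _ m hn hm hG
      classical
      have := Fintype.ofFinite (Subgroup G)
      have hcf : CF (sf p m) := CF_sf (CF_of_wt hm)
      have h1 : (p : ℤ) * (ordProj[p] (Nat.card G) : ℕ) ∣
          ∑ᶠ H : Subgroup G, FH2 p (sf p m) H := by
        rw [← sum_FH2, ← eE_eq]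
        refine dvd_trans (mul_dvd_mul_left _ ?_) (H G m hm)
        exact_mod_cast Nat.ordProj_dvd (Nat.card G) p
      have h2 : (p : ℤ) * (ordProj[p] (Nat.card G) : ℕ) ∣
          ∑ᶠ H : Subgroup G, (if H = Opr p ⊤ then 0 else FH2 p (sf p m) H) := by
        refine sub_dvd_p _ ?_ _ ?_
        · intro g U
          have h3 : cg g U = Opr p ⊤ ↔ U = Opr p ⊤ := by
            constructor
            · intro h
              have := congrArg (cg g⁻¹) h
              rwa [cg_cg, inv_mul_cancel, cg_one, cg_Opr_top'] at this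
            · intro h
              rw [h, cg_Opr_top']
          simp only [h3, FH2_cg hcf]
        · intro K
          split_ifs with hK
          · exact dvd_zero _
          · refine sum_H2 hcf (fun U hU hU2 => ?_)
            have hlt : Nat.card U < n := by
              rw [← hn]
              refine lt_of_le_of_ne (Subgroup.card_le_card_group U) ?_
              intro h
              have : U = ⊤ := Subgroup.eq_top_of_card_eq U h
              exact hK (by rw [← hU, this])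
            have := ih _ hlt (↥U) (fun x : ↥U => m x) rfl (IsWt_dn U hm) ((NoP_dn U).2 hU2)
            rwa [sf_dn, bQ_dn] at this
      have h4 : ∑ᶠ H : Subgroup G, FH2 p (sf p m) H =
          (∑ᶠ H : Subgroup G, (if H = Opr p ⊤ then 0 else FH2 p (sf p m) H)) +
            FH2 p (sf p m) (Opr p ⊤) := by
        rw [finsum_eq_sum_of_fintype, finsum_eq_sum_of_fintype,
          ← Finset.sum_erase_add _ _ (Finset.mem_univ (Opr p (⊤ : Subgroup G))),
          ← Finset.sum_erase_add (Finset.univ : Finset (Subgroup G))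
            (fun H => if H = Opr p ⊤ then 0 else FH2 p (sf p m) H)
            (Finset.mem_univ (Opr p (⊤ : Subgroup G)))]
        simp only [if_true, add_zero]
        congr 1
        refine Finset.sum_congr rfl (fun K hK => ?_)
        rw [if_neg (Finset.ne_of_mem_erase hK)]
      rw [h4] at h1
      rw [← FH2_top (sf p m) hG]
      exact (dvd_add_right h2).1 h1
    intro G _ _ m hm hG
    exact key _ G m rfl hm hG
  · intro H G _ _ m hm
    have hcf : CF (sf p m) := CF_sf (CF_of_wt hm)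
    have h1 : (p : ℤ) * (ordProj[p] (Nat.card G) : ℕ) ∣ eE p (sf p m) := by
      refine eE_of_bQ hcf (fun U hU2 => ?_)
      have := H (↥U) (fun x : ↥U => m x) (IsWt_dn U hm) ((NoP_dn U).2 hU2)
      rwa [sf_dn, bQ_dn] at this
    have h2 : (Nat.card G : ℤ) ∣ eE p (sf p m) := eE_dvd_cf hcf
    have h3 : ((ordCompl[p] (Nat.card G) : ℕ) : ℤ) ∣ eE p (sf p m) :=
      dvd_trans (by exact_mod_cast Nat.ordCompl_dvd (Nat.card G) p) h2
    have h4 : IsCoprime ((p : ℤ) * (ordProj[p] (Nat.card G) : ℕ))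
        ((ordCompl[p] (Nat.card G) : ℕ) : ℤ) := by
      have h5 : Nat.Coprime (p * ordProj[p] (Nat.card G)) (ordCompl[p] (Nat.card G)) := by
        have h6 := Nat.coprime_ordCompl (Fact.out : p.Prime) (Nat.card_pos (α := G)).ne'
        rw [Nat.coprime_mul_iff_left]
        exact ⟨h6, h6.pow_left _⟩
      have := h5.isCoprime
      exact_mod_cast this
    have h7 := h4.mul_dvd h1 h3
    have h8 : (p : ℤ) * (ordProj[p] (Nat.card G) : ℕ) * ((ordCompl[p] (Nat.card G) : ℕ) : ℤ)
        = (p : ℤ) * (Nat.card G : ℤ) := by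
      rw [mul_assoc]
      congr 1
      exact_mod_cast Nat.ordProj_mul_ordCompl_eq_self (Nat.card G) p
    rwa [h8] at h7

end Pool.Agent.Lib.P0c8ca5.Bx
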