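import Mathlib
import Pool.Agent.Lib.P0c8ca5V.ClsF
import Pool.Agent.Lib.P0c8ca5V.MainP
import Pool.Agent.Lib.P0c8ca5Bx.ClsA

/-!
# ClsC: single conjugacy classes, triples of involutions

PROOF. `wX_cls` (in ClsB): both sides are sums over the pairs; `(x, z) ↦ (v, w) = (x z, z⁻¹)`, `x = v w`, `closure {x, z} = closure {v, w}`, `ClsFAux.opr_le_iff`. `→`: for p-regular `c` let `m` be the indicator of the class of `(c ^ q)⁻¹`
(`MainPAux.isWt_class` or directly); `IsConj (c ^ q)⁻¹ (((pr p x) ^ q)⁻¹) ↔ IsConj c (pr p x)` because `y ↦ y ^ q` is injective on p-regular elements (`q` prime to their orders: `(y ^ q) ^ q' = y` for a suitable `q'`). `←`: `m` is a sum over the classes `X` of p-regular elements of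
`m (X.out)` times the indicator of `X` (see `tS_iff_class`, P0c8ca5Bw.InvA, and `bB_iff_class`, P0c8ca5V.ClsF).
`tM_cls`: the same for the triples; the bijection `(r, s, t) ↦ (s, r, r t)`: with `r' = s`, `s' = r`, `t' = r t`: ... it is only needed that the number of the triples `(r, s, t)` with `r s t ∈ RC` is equal to the number of the triples on the right: `(r, s, t) ↦ (r, s, r t)` is an involution of the set of the triples
with `r² = s² = t² = 1`, `r t = t r`, it preserves `r s` and the group generated, and `r s t` is conjugate (by `r`) to `s (r t)`: `r (r s t) r⁻¹ = s t r = s r t`.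
If the count on the right is not `0` then `c` is conjugate to `c⁻¹` (`s` inverts `s t`, so `pr p (s t)` is conjugate to its inverse); for `c` conjugate to `c⁻¹` the indicator of the class of `(c ^ 4)⁻¹` is a real weight.
-/

namespace Pool.Agent.Lib.P0c8ca5.Bx

variable {p : ℕ} {G : Type*} [Group G] [Finite G]

namespace ClsCAux

theorem fact2 : Fact (Nat.Prime 2) := ⟨Nat.prime_two⟩

attribute [local instance] fact2

/-- the product of the three elements -/
def xx {G : Type*} [Group G] (y : G × G × G) : G := y.1 * y.2.1 * y.2.2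

/-- the triples counted -/
def Gd {G : Type*} [Group G] (y : G × G × G) : Prop :=
  y.1 ^ 2 = 1 ∧ y.2.1 ^ 2 = 1 ∧ y.2.2 ^ 2 = 1 ∧ y.1 * y.2.2 = y.2.2 * y.1 ∧
    (y.1 * y.2.1) ^ 4 = 1 ∧
    (∀ w : G, Preg 2 w → w ∈ Subgroup.closure ({y.1, y.2.1, y.2.2} : Set G)) ∧
    PRG 2 (xx y) ∧ (xx y * (pr 2 (xx y))⁻¹) ^ 4 ≠ 1

theorem isConj_inv {G : Type*} [Group G] {x y : G} (h : IsConj x y) : IsConj x⁻¹ y⁻¹ := by
  obtain ⟨c, hc⟩ := isConj_iff.1 h
  refine isConj_iff.2 ⟨c, ?_⟩
  rw [← hc]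
  group

theorem isConj_pow {G : Type*} [Group G] {x y : G} (h : IsConj x y) (n : ℕ) :
    IsConj (x ^ n) (y ^ n) := by
  obtain ⟨c, hc⟩ := isConj_iff.1 h
  refine isConj_iff.2 ⟨c, ?_⟩
  rw [← hc, conj_pow]

theorem inv_of_sq {G : Type*} [Group G] {r : G} (h : r ^ 2 = 1) : r⁻¹ = r := by
  rw [inv_eq_iff_mul_eq_one, ← pow_two, h]

theorem real_prod {G : Type*} [Group G] {r s t : G} (hr : r ^ 2 = 1) (hs : s ^ 2 = 1)
    (ht : t ^ 2 = 1) (hc : r * t = t * r) : IsConj (r * s * t) (r * s * t)⁻¹ := by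
  refine isConj_iff.2 ⟨t * r, ?_⟩
  have hr' := inv_of_sq hr
  have hs' := inv_of_sq hs
  have ht' := inv_of_sq ht
  rw [pow_two] at hr hs ht
  have e1 : (r * s * t)⁻¹ = t * s * r := by
    rw [mul_inv_rev, mul_inv_rev, hr', hs', ht', mul_assoc]
  have e2 : (t * r)⁻¹ = t * r := by
    rw [mul_inv_rev, hr', ht', hc]
  rw [e1, e2]
  calc t * r * (r * s * t) * (t * r) = t * (r * r) * s * (t * t) * r := by group
    _ = t * s * r := by rw [hr, ht, mul_one, mul_one]

theorem preg_of_isConj {G : Type*} [Group G] {x y : G} (h : IsConj x y) (hx : Preg 2 x) :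
    Preg 2 y := by
  obtain ⟨c, hc⟩ := isConj_iff.1 h
  rw [← hc, preg_conj]
  exact hx

/-- fourth powers are injective on the elements of odd order -/
theorem pow_four_inj {G : Type*} [Group G] {a b : G} (ha : Preg 2 a) (hb : Preg 2 b)
    (h : a ^ 4 = b ^ 4) : a = b := by
  have h1 : Nat.Coprime 4 (orderOf a * orderOf b) := by
    have e1 : Nat.Coprime 2 (orderOf a) := (Nat.Prime.coprime_iff_not_dvd Nat.prime_two).2 ha
    have e2 : Nat.Coprime 2 (orderOf b) := (Nat.Prime.coprime_iff_not_dvd Nat.prime_two).2 hb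
    have e3 : Nat.Coprime (2 ^ 2) (orderOf a * orderOf b) :=
      Nat.Coprime.pow_left 2 (Nat.Coprime.mul_right e1 e2)
    exact e3
  obtain ⟨u, v, huv⟩ := Nat.isCoprime_iff_coprime.2 h1
  have key : ∀ x : G, x ^ (orderOf a * orderOf b) = 1 → x = (x ^ 4) ^ u := by
    intro x hx
    calc x = x ^ (1 : ℤ) := (zpow_one x).symm
      _ = x ^ (u * ((4 : ℕ) : ℤ) + v * ((orderOf a * orderOf b : ℕ) : ℤ)) := by rw [huv]
      _ = (x ^ 4) ^ u := by
        rw [zpow_add, mul_comm u, zpow_mul, mul_comm v, zpow_mul, zpow_natCast, zpow_natCast, hx,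
          one_zpow, mul_one]
  rw [key a (by rw [pow_mul, pow_orderOf_eq_one, one_pow]),
    key b (by rw [mul_comm, pow_mul, pow_orderOf_eq_one, one_pow]), h]

theorem isConj_four {G : Type*} [Group G] {a b : G} (ha : Preg 2 a) (hb : Preg 2 b) :
    IsConj ((a ^ 4)⁻¹) ((b ^ 4)⁻¹) ↔ IsConj a b := by
  constructor
  · intro h
    have h1 := isConj_inv h
    rw [inv_inv, inv_inv] at h1
    obtain ⟨c, hc⟩ := isConj_iff.1 h1
    rw [← conj_pow] at hc
    exact isConj_iff.2 ⟨c, pow_four_inj ((preg_conj c a).2 ha) hb hc⟩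
  · intro h
    exact isConj_inv (isConj_pow h 4)

open Classical in
theorem tM_eq [Fintype G] (m : G → ℤ) :
    tM {z : G | z ^ 4 = 1} (fun x => if PRG 2 x then sf 2 m ((x ^ 4)⁻¹) else 0)
      = ∑ y : G × G × G, if Gd y then m (((pr 2 (xx y)) ^ 4)⁻¹) else 0 := by
  unfold tM
  rw [finsum_eq_sum_of_fintype]
  refine Finset.sum_congr rfl (fun y _ => ?_)
  have hs := sf_pow (p := 2) 2 m (xx y)
  rw [show (2 : ℕ) ^ 2 = 4 from rfl] at hs
  by_cases h1 : y.1 ^ 2 = 1 ∧ y.2.1 ^ 2 = 1 ∧ y.2.2 ^ 2 = 1 ∧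
    y.1 * y.2.2 = y.2.2 * y.1 ∧ y.1 * y.2.1 ∈ {z : G | z ^ 4 = 1} ∧
    Opr 2 (⊤ : Subgroup G) ≤ Subgroup.closure {y.1, y.2.1, y.2.2}
  · rw [if_pos h1]
    obtain ⟨a1, a2, a3, a4, a5, a6⟩ := h1
    change (if PRG 2 (xx y) then sf 2 m ((xx y ^ 4)⁻¹) else 0) = _
    by_cases h2 : PRG 2 (xx y)
    · rw [if_pos h2]
      by_cases h3 : (xx y * (pr 2 (xx y))⁻¹) ^ 4 = 1
      · rw [hs.1 h3, if_neg (fun h => h.2.2.2.2.2.2.2 h3)]
      · rw [hs.2 h3, if_pos ⟨a1, a2, a3, a4, a5, (ClsFAux.opr_le_iff _).1 a6, h2, h3⟩]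
    · rw [if_neg h2, if_neg (fun h => h2 h.2.2.2.2.2.2.1)]
  · rw [if_neg h1, if_neg]
    rintro ⟨a1, a2, a3, a4, a5, a6, _, _⟩
    exact h1 ⟨a1, a2, a3, a4, a5, (ClsFAux.opr_le_iff _).2 a6⟩

/-- `(r, s, t) ↦ (r, s, r t)` -/
def th {G : Type*} [Group G] : G × G × G ≃ G × G × G where
  toFun y := (y.1, y.2.1, y.1 * y.2.2)
  invFun y := (y.1, y.2.1, y.1⁻¹ * y.2.2)
  left_inv y := by simp
  right_inv y := by simp

theorem closure_th {G : Type*} [Group G] (r s t : G) :
    Subgroup.closure ({r, s, r * t} : Set G) = Subgroup.closure ({r, s, t} : Set G) := by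
  apply le_antisymm
  · rw [Subgroup.closure_le]
    rintro x (rfl | rfl | rfl)
    · exact Subgroup.subset_closure (by simp)
    · exact Subgroup.subset_closure (by simp)
    · exact mul_mem (Subgroup.subset_closure (by simp)) (Subgroup.subset_closure (by simp))
  · rw [Subgroup.closure_le]
    rintro x (rfl | rfl | rfl)
    · exact Subgroup.subset_closure (by simp)
    · exact Subgroup.subset_closure (by simp)
    · have h1 : r ∈ Subgroup.closure ({r, s, r * x} : Set G) := Subgroup.subset_closure (by simp)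
      have h2 : r * x ∈ Subgroup.closure ({r, s, r * x} : Set G) :=
        Subgroup.subset_closure (by simp)
      have h3 := mul_mem (inv_mem h1) h2
      rwa [inv_mul_cancel_left] at h3

theorem rc_conj {G : Type*} [Group G] {c x y : G} (h : IsConj x y) :
    x ∈ RC 2 4 c ↔ y ∈ RC 2 4 c := by
  constructor
  · rintro ⟨u, h1, h2, h3, h4, h5⟩
    exact ⟨u, h1, h2, h3, h4, h5.trans h⟩
  · rintro ⟨u, h1, h2, h3, h4, h5⟩
    exact ⟨u, h1, h2, h3, h4, h5.trans h.symm⟩

theorem card_eq {c : G} (hc : Preg 2 c) :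
    Nat.card {y : G × G × G // y.1 ^ 2 = 1 ∧ y.2.1 ^ 2 = 1 ∧
      y.2.2 ^ 2 = 1 ∧ (y.1 * y.2.2) ^ 2 = 1 ∧ (y.1 * y.2.1) ^ 4 = 1 ∧
      y.2.1 * y.2.2 ∈ RC 2 4 c ∧
      ∀ w : G, Preg 2 w → w ∈ Subgroup.closure ({y.1, y.2.1, y.2.2} : Set G)} =
    Nat.card {y : G × G × G // Gd y ∧ IsConj c (pr 2 (xx y))} := by
  symm
  refine Nat.card_congr (th.subtypeEquiv ?_)
  rintro ⟨r, s, t⟩
  unfold Gd xx th
  simp only [Equiv.coe_fn_mk]
  rw [closure_th]
  constructor
  · rintro ⟨⟨hr, hs, ht, hrt, hrs, hw, hP, hu⟩, hcc⟩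
    have hrt2 : r * (r * t) = t := by
      rw [← mul_assoc, ← pow_two, hr, one_mul]
    have e1 : (r * t) ^ 2 = 1 := by
      have hcm : Commute r t := hrt
      rw [hcm.mul_pow, hr, ht, one_mul]
    have e2 : IsConj (r * s * t) (s * (r * t)) := by
      refine isConj_iff.2 ⟨r, ?_⟩
      rw [inv_of_sq hr]
      calc r * (r * s * t) * r = (r * r) * s * (t * r) := by group
        _ = s * (r * t) := by rw [← pow_two, hr, one_mul, hrt]
    refine ⟨hr, hs, e1, ?_, hrs, ?_, hw⟩
    · rw [hrt2, ht]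
    · rw [← rc_conj e2, mem_RC_iff hc]
      exact ⟨hcc, hu, hP⟩
  · rintro ⟨hr, hs, hrt1, ht1, hrs, hRC, hw⟩
    have hrt2 : r * (r * t) = t := by
      rw [← mul_assoc, ← pow_two, hr, one_mul]
    have ht : t ^ 2 = 1 := by rwa [hrt2] at ht1
    have hrt : r * t = t * r := by
      have := inv_of_sq hrt1
      rw [mul_inv_rev, inv_of_sq hr, inv_of_sq ht] at this
      exact this.symm
    have e2 : IsConj (r * s * t) (s * (r * t)) := by
      refine isConj_iff.2 ⟨r, ?_⟩
      rw [inv_of_sq hr]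
      calc r * (r * s * t) * r = (r * r) * s * (t * r) := by group
        _ = s * (r * t) := by rw [← pow_two, hr, one_mul, hrt]
    rw [← rc_conj e2, mem_RC_iff hc] at hRC
    exact ⟨⟨hr, hs, ht, hrt, hrs, hw, hRC.2.2, hRC.2.1⟩, hRC.1⟩

open Classical in
/-- the weighted count -/
noncomputable def Ns {G : Type*} [Group G] [Fintype G] (c : G) : ℤ :=
  ∑ y : G × G × G, if Gd y ∧ IsConj c (pr 2 (xx y)) then 1 else 0

omit [Finite G] in
theorem card_Ns [Fintype G] (c : G) :
    ((Nat.card {y : G × G × G // Gd y ∧ IsConj c (pr 2 (xx y))} : ℕ) : ℤ) = Ns c := by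
  classical
  unfold Ns
  rw [Nat.card_eq_fintype_card, Fintype.card_subtype, Finset.card_filter]
  push_cast
  rfl

end ClsCAux

open ClsCAux

open Classical in
theorem tM_cls (d : ℤ) :
    (∀ m : G → ℤ, IsWt 2 ⊤ m → (∀ x, m x⁻¹ = m x) → d ∣ tM {z : G | z ^ 4 = 1}
      (fun x => if PRG 2 x then sf 2 m ((x ^ 4)⁻¹) else 0)) ↔
    ∀ c : G, Preg 2 c → d ∣ (Nat.card {y : G × G × G // y.1 ^ 2 = 1 ∧ y.2.1 ^ 2 = 1 ∧
      y.2.2 ^ 2 = 1 ∧ (y.1 * y.2.2) ^ 2 = 1 ∧ (y.1 * y.2.1) ^ 4 = 1 ∧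
      y.2.1 * y.2.2 ∈ RC 2 4 c ∧
      ∀ w : G, Preg 2 w → w ∈ Subgroup.closure ({y.1, y.2.1, y.2.2} : Set G)} : ℤ) := by
  have : Fintype G := Fintype.ofFinite G
  constructor
  · intro h c hc
    rw [card_eq hc, card_Ns]
    by_cases hex : ∃ y : G × G × G, Gd y ∧ IsConj c (pr 2 (xx y))
    · obtain ⟨y0, hy0, hcy⟩ := hex
      have hx : IsConj (xx y0) (xx y0)⁻¹ := real_prod hy0.1 hy0.2.1 hy0.2.2.1 hy0.2.2.2.1
      have hcc : IsConj c c⁻¹ := by
        have h1 : IsConj (pr 2 (xx y0)) (pr 2 (xx y0))⁻¹ := by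
          have h2 := isConj_pow hx (uexp 2 G)
          rw [inv_pow] at h2
          exact h2
        exact (hcy.trans h1).trans (isConj_inv hcy).symm
      have hc4 : Preg 2 ((c ^ 4)⁻¹) := by
        have h1 : orderOf ((c ^ 4)⁻¹) ∣ orderOf c := by
          rw [orderOf_inv]
          exact orderOf_pow_dvd 4
        exact fun h2 => hc (h2.trans h1)
      have hreal : IsConj (c ^ 4) ((c ^ 4)⁻¹) := by
        have h1 := isConj_pow hcc 4
        rwa [inv_pow] at h1
      have hm : ∀ z : G, (if IsConj ((c ^ 4)⁻¹) z⁻¹ then (1 : ℤ) else 0)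
          = if IsConj ((c ^ 4)⁻¹) z then (1 : ℤ) else 0 := by
        intro z
        refine if_congr ?_ rfl rfl
        constructor
        · intro h1
          have h2 := isConj_inv h1
          rw [inv_inv, inv_inv] at h2
          exact hreal.symm.trans h2
        · intro h1
          have h2 := isConj_inv h1
          rw [inv_inv] at h2
          exact hreal.symm.trans h2
      have h1 := h (fun z => if IsConj ((c ^ 4)⁻¹) z then 1 else 0)
        (MainPAux.isWt_class hc4 (fun z hz => if_pos hz) (fun z hz => if_neg hz)) hm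
      rw [tM_eq] at h1
      convert h1 using 1
      unfold Ns
      refine Finset.sum_congr rfl (fun y _ => ?_)
      by_cases hy : Gd y
      · rw [if_pos hy]
        refine if_congr ?_ rfl rfl
        rw [isConj_four hc (preg_pr _)]
        exact ⟨fun h => h.2, fun h => ⟨hy, h⟩⟩
      · rw [if_neg hy, if_neg (fun h => hy h.1)]
    · have h0 : Ns c = 0 := by
        unfold Ns
        refine Finset.sum_eq_zero (fun y _ => if_neg (fun h => hex ⟨y, h⟩))
      rw [h0]
      exact dvd_zero d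
  · intro h m hm _
    rw [tM_eq]
    have hf : ∀ x y : G, IsConj x y → m ((x ^ 4)⁻¹) = m ((y ^ 4)⁻¹) := by
      intro x y hxy
      obtain ⟨g, hg⟩ := isConj_iff.1 (isConj_inv (isConj_pow hxy 4))
      rw [← hg, hm.conj g (Subgroup.mem_top g)]
    have key : (∑ y : G × G × G, if Gd y then m (((pr 2 (xx y)) ^ 4)⁻¹) else 0)
        = ∑ X : ConjClasses G, m ((Quotient.out X ^ 4)⁻¹) * Ns (Quotient.out X) := by
      unfold Ns
      simp only [Finset.mul_sum]
      rw [Finset.sum_comm]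
      refine Finset.sum_congr rfl (fun y _ => ?_)
      by_cases hg : Gd y
      · rw [if_pos hg]
        rw [Finset.sum_eq_single (ConjClasses.mk (pr 2 (xx y)))]
        · have h1 : IsConj (Quotient.out (ConjClasses.mk (pr 2 (xx y)))) (pr 2 (xx y)) :=
            ConjClasses.mk_eq_mk_iff_isConj.1 (Quotient.out_eq _)
          rw [if_pos ⟨hg, h1⟩, mul_one]
          exact (hf _ _ h1).symm
        · intro X _ hX
          rw [if_neg, mul_zero]
          rintro ⟨_, h1⟩
          apply hX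
          have h2 := ConjClasses.mk_eq_mk_iff_isConj.2 h1
          rw [← h2]
          exact (Quotient.out_eq X).symm
        · intro h1
          exact absurd (Finset.mem_univ _) h1
      · rw [if_neg hg]
        symm
        refine Finset.sum_eq_zero (fun X _ => ?_)
        rw [if_neg (fun h => hg h.1), mul_zero]
    rw [key]
    refine Finset.dvd_sum (fun X _ => ?_)
    by_cases hX : Preg 2 (Quotient.out X)
    · have h1 := h _ hX
      rw [card_eq hX, card_Ns] at h1
      exact Dvd.dvd.mul_left h1 _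
    · have h0 : Ns (Quotient.out X) = 0 := by
        unfold Ns
        refine Finset.sum_eq_zero (fun y _ => if_neg (fun h => hX ?_))
        exact preg_of_isConj h.2.symm (preg_pr _)
      rw [h0, mul_zero]
      exact dvd_zero d

end Pool.Agent.Lib.P0c8ca5.Bx
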