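import Mathlib
import Pool.Agent.Lib.P0c8ca5V.GalF
import Pool.Agent.Lib.P0c8ca5Bx.Defs

/-!
# Gal: only the rational elements count

PROOF. `rat_sumG`: as `GalE.rat_sum` (P0c8ca5V.GalE), with `PRG p x` in place of `PRat p x`; the hypothesis that the support consists of p-elements is not needed: if the index of `π.range` is `1` then every
`j` with `GalJ p A j`, `j = 1` modulo `p` gives an element of `Lam p A` (`x ↦ x ^ j`), which is in the image of the stabilizer, so `x` is conjugate to `x ^ j`; if `p` does not divide `|A|`, `GalJ p A j` means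
`j ≡ 1` modulo `|A|`, so `x ^ j = x` and all `x` are `PRG`. `PRG` is invariant under conjugation and under the `x ↦ x ^ j` of `Lam p A` (as `pRat_conj`, `pRat_perm`).
`wX_eq`: `wX p q s M = ∑ x, M x * GalD.phP p s q δ x`, `δ c = if c = 1 then 1 else 0` (`GalD.phP p s q δ x = ∑ z, if z ^ q = 1 ∧ Opr p ⊤ ≤ closure {x, z} then δ ((x * z) ^ s) else 0`); `δ` is `IsWt p ⊤`.
`wX_rat`: `rat_sumG` with `φ x = M x * GalD.phP p s q δ x` (`GalD.phP_conj`, `GalD.phP_pow`, `GalFAux.phP_dvd`).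
-/

namespace Pool.Agent.Lib.P0c8ca5.Bx

variable {p : ℕ} {A : Type*} [Group A]

theorem PRG_conj (g x : A) : PRG p (g * x * g⁻¹) ↔ PRG p x := by
  unfold PRG
  refine forall_congr' fun j => forall_congr' fun _ => forall_congr' fun _ => ?_
  have h1 : IsConj x (g * x * g⁻¹) := isConj_iff.2 ⟨g, rfl⟩
  have h2 : IsConj (x ^ j) ((g * x * g⁻¹) ^ j) := by
    rw [conj_pow]
    exact isConj_iff.2 ⟨g, rfl⟩
  exact ⟨fun h => (h1.trans h).trans h2.symm, fun h => (h1.symm.trans h).trans h2⟩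

namespace GalAux

open GalE

theorem prg_of_pow {x : A} (j : ℕ) (h : PRG p x) : PRG p (x ^ j) := by
  intro i hi hi1
  have h1 := isConj_pow (h i hi hi1) j
  rwa [← pow_mul, mul_comm, pow_mul] at h1

theorem prg_perm [Finite A] {π : Equiv.Perm A} (hπ : π ∈ Lam p A) (x : A) :
    PRG p (π x) ↔ PRG p x := by
  have h1 : ∀ π ∈ Lam p A, ∀ x : A, PRG p x → PRG p (π x) := by
    rintro π ⟨j, _, _, hj⟩ x hx
    rw [hj]
    exact prg_of_pow j hx
  refine ⟨fun h => ?_, h1 π hπ x⟩
  have h2 := h1 π⁻¹ ((Lam p A).inv_mem hπ) _ h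
  have h3 : π⁻¹ (π x) = x := by
    rw [← Equiv.Perm.mul_apply, inv_mul_cancel]
    rfl
  rwa [h3] at h2

open Classical in
/-- the weight supported at `1` -/
noncomputable def dlt (A : Type*) [Group A] (c : A) : ℤ := if c = 1 then 1 else 0

theorem dlt_wt [Fact p.Prime] : IsWt p (⊤ : Subgroup A) (dlt A) := by
  classical
  have hp : p.Prime := Fact.out
  refine ⟨fun h _ x => ?_, fun x hx => ?_⟩
  · unfold dlt
    exact if_congr conj_eq_one_iff rfl rfl
  · unfold dlt at hx
    have h1 : x = 1 := by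
      by_contra h2
      exact hx (if_neg h2)
    rw [h1]
    unfold Preg
    simp [hp.ne_one]

open Classical in
theorem wX_eq [Fintype A] (q s : ℕ) (M : A → ℤ) :
    wX p q s M = ∑ x : A, M x * GalD.phP p s q (dlt A) x := by
  unfold wX
  rw [finsum_eq_sum_of_fintype, Fintype.sum_prod_type]
  refine Finset.sum_congr rfl fun x _ => ?_
  unfold GalD.phP
  rw [Finset.mul_sum]
  refine Finset.sum_congr rfl fun z _ => ?_
  change (if z ^ q = 1 ∧ (x * z) ^ s = 1 ∧ Opr p (⊤ : Subgroup A) ≤ Subgroup.closure {x, z}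
    then M x else 0) = _
  unfold dlt
  by_cases h1 : z ^ q = 1 ∧ Opr p (⊤ : Subgroup A) ≤ Subgroup.closure {x, z}
  · rw [if_pos h1]
    by_cases h2 : (x * z) ^ s = 1
    · rw [if_pos h2, if_pos ⟨h1.1, h2, h1.2⟩, mul_one]
    · rw [if_neg h2, if_neg (fun h => h2 h.2.1), mul_zero]
  · rw [if_neg h1, if_neg (fun h => h1 ⟨h.1, h.2.2⟩), mul_zero]

end GalAux

open GalE in
open Classical in
theorem rat_sumG [Fact p.Prime] [Fintype A] {φ : A → ℤ} (hcl : ∀ c x, φ (c * x * c⁻¹) = φ x)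
    (hj : ∀ j, GalJ p A j → ∀ x, φ (x ^ j) = φ x)
    (hd : ∀ x, ((ordProj[p] (Nat.card (Subgroup.centralizer ({x} : Set A))) : ℕ) : ℤ) ∣ φ x) :
    (p : ℤ) * (ordProj[p] (Nat.card A) : ℕ) ∣ ∑ x : A, if PRG p x then 0 else φ x := by
  have hp : p.Prime := Fact.out
  have hCp : IsPGroup p (Lam p A) := Lam_pGroup
  have hcomm : ∀ (g : A) (c : ↥(Lam p A)), Commute (cjA g) ((Lam p A).subtype c) := by
    rintro g ⟨c, j, hj1, hj2, hj3⟩
    apply Equiv.ext
    intro x
    change g * c x * g⁻¹ = c (g * x * g⁻¹)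
    rw [hj3, hj3, conj_pow]
  let Ψ : A × ↥(Lam p A) →* Equiv.Perm A :=
    MonoidHom.noncommCoprod cjA (Lam p A).subtype hcomm
  let _ : MulAction (A × ↥(Lam p A)) A := MulAction.compHom _ Ψ
  have hsm : ∀ (g : A) (c : ↥(Lam p A)) (x : A),
      ((g, c) : A × ↥(Lam p A)) • x = g * (c : Equiv.Perm A) x * g⁻¹ := fun _ _ _ => rfl
  have hcard : ∀ K : Subgroup ↥(Lam p A), ordProj[p] (Nat.card K) = Nat.card K := by
    intro K
    obtain ⟨n, hn⟩ := IsPGroup.iff_card.1 (hCp.to_subgroup K)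
    rw [hn, hp.factorization_pow]
    simp
  have hcard' : ordProj[p] (Nat.card ↥(Lam p A)) = Nat.card ↥(Lam p A) := by
    obtain ⟨n, hn⟩ := IsPGroup.iff_card.1 hCp
    rw [hn, hp.factorization_pow]
    simp
  have key := orb_dvd_p (p := p) (T := A × ↥(Lam p A)) (X := A)
    (fun x => ((Nat.card ↥(Lam p A) : ℕ) : ℤ) * (if PRG p x then 0 else φ x)) ?_ (p : ℤ) ?_
  · rw [← Finset.mul_sum, Nat.card_prod, Nat.ordProj_mul p Nat.card_pos.ne' Nat.card_pos.ne',
      hcard'] at key
    have h1 : (((Nat.card ↥(Lam p A) : ℕ) : ℤ)) ≠ 0 := by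
      exact_mod_cast (Nat.card_pos (α := ↥(Lam p A))).ne'
    have h2 : (p : ℤ) * ((ordProj[p] (Nat.card A) * Nat.card ↥(Lam p A) : ℕ) : ℤ)
        = ((Nat.card ↥(Lam p A) : ℕ) : ℤ) * ((p : ℤ) * (ordProj[p] (Nat.card A) : ℕ)) := by
      push_cast
      ring
    rw [h2] at key
    exact (mul_dvd_mul_iff_left h1).1 key
  · rintro ⟨g, c⟩ x
    simp only [hsm, hcl, phi_perm hj c.2]
    have h1 : PRG p (g * (c : Equiv.Perm A) x * g⁻¹) ↔ PRG p x :=
      (PRG_conj g _).trans (GalAux.prg_perm c.2 x)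
    congr 1
    exact if_congr h1 rfl rfl
  · intro x
    by_cases hx : PRG p x
    · simp only [if_pos hx, mul_zero]
      exact dvd_zero _
    by_cases hφ : φ x = 0
    · simp only [hφ, ite_self, mul_zero]
      exact dvd_zero _
    simp only [if_neg hx]
    let S : Subgroup (A × ↥(Lam p A)) := MulAction.stabilizer (A × ↥(Lam p A)) x
    let π : ↥S →* ↥(Lam p A) := (MonoidHom.snd A ↥(Lam p A)).comp S.subtype
    have hπ : ∀ s : ↥S, π s = (s : A × ↥(Lam p A)).2 := fun s => rfl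
    have hker : Nat.card π.ker = Nat.card (Subgroup.centralizer ({x} : Set A)) := by
      refine Nat.card_congr
        { toFun := fun s => ⟨((s : ↥S) : A × ↥(Lam p A)).1, ?_⟩
          invFun := fun g => ⟨⟨((g : A), 1), ?_⟩, ?_⟩
          left_inv := ?_
          right_inv := ?_ }
      · have h2 : ((s : ↥S) : A × ↥(Lam p A)).2 = 1 := s.2
        have h3 : (((s : ↥S) : A × ↥(Lam p A))) • x = x := (s : ↥S).2
        have h4 := hsm ((s : ↥S) : A × ↥(Lam p A)).1 ((s : ↥S) : A × ↥(Lam p A)).2 x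
        rw [Prod.mk.eta, h3, h2] at h4
        rw [Subgroup.mem_centralizer_singleton_iff]
        have h5 : x = ((s : ↥S) : A × ↥(Lam p A)).1 * x * (((s : ↥S) : A × ↥(Lam p A)).1)⁻¹ := h4
        exact (mul_inv_eq_iff_eq_mul.1 h5.symm)
      · change (g : A) * x * (g : A)⁻¹ = x
        have h5 := Subgroup.mem_centralizer_singleton_iff.1 g.2
        rw [mul_inv_eq_iff_eq_mul]
        exact h5
      · rfl
      · intro s
        apply Subtype.ext
        apply Subtype.ext
        have h2 : ((s : ↥S) : A × ↥(Lam p A)).2 = 1 := s.2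
        exact Prod.ext rfl h2.symm
      · intro g
        rfl
    have hidx : p ∣ π.range.index := by
      obtain ⟨n, hn⟩ := hCp.index π.range
      have h1 : n ≠ 0 := by
        rintro rfl
        rw [pow_zero, Subgroup.index_eq_one] at hn
        apply hx
        intro i hi1 hi2
        let σ : ↥(Lam p A) := ⟨powCoprime hi1.1, i, hi1, hi2, fun _ => rfl⟩
        have h2 : σ ∈ π.range := by
          rw [hn]
          exact Subgroup.mem_top _
        obtain ⟨s, hs⟩ := h2
        rw [hπ] at hs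
        have h3 : ((s : A × ↥(Lam p A))) • x = x := s.2
        have h4 := hsm (s : A × ↥(Lam p A)).1 (s : A × ↥(Lam p A)).2 x
        rw [Prod.mk.eta, h3, hs] at h4
        have h5 : x = (s : A × ↥(Lam p A)).1 * x ^ i * ((s : A × ↥(Lam p A)).1)⁻¹ := h4
        exact (isConj_iff.2 ⟨_, h5.symm⟩).symm
      rw [hn]
      exact dvd_pow_self p h1
    have h1 : Nat.card ↥S = Nat.card π.ker * Nat.card π.range := by
      rw [← Subgroup.index_ker, Subgroup.card_mul_index]
    have h2 : Nat.card π.range * π.range.index = Nat.card ↥(Lam p A) :=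
      Subgroup.card_mul_index _
    obtain ⟨i, hi⟩ := hidx
    obtain ⟨d, hd'⟩ := hd x
    change (p : ℤ) * ((ordProj[p] (Nat.card ↥S) : ℕ) : ℤ) ∣ _
    rw [h1, Nat.ordProj_mul p Nat.card_pos.ne' Nat.card_pos.ne', hcard, hker, ← h2, hi, hd']
    refine ⟨(i : ℤ) * d, ?_⟩
    push_cast
    ring

open Classical in
theorem wX_rat [Fact p.Prime] [Finite A] (hO : NoP p (⊤ : Subgroup A)) (q s : ℕ) {M : A → ℤ}
    (hM : CF M) (hj : ∀ j, GalJ p A j → ∀ x, M (x ^ j) = M x) :
    (p : ℤ) * (ordProj[p] (Nat.card A) : ℕ) ∣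
      wX p q s M - wX p q s (fun x => if PRG p x then M x else 0) := by
  have : Fintype A := Fintype.ofFinite A
  have hw : IsWt p (⊤ : Subgroup A) (GalAux.dlt A) := GalAux.dlt_wt
  have h := rat_sumG (p := p) (A := A)
    (φ := fun x => M x * GalD.phP p s q (GalAux.dlt A) x)
    (fun c x => by rw [hM, GalD.phP_conj hw])
    (fun j hjj x => by rw [hj j hjj, GalD.phP_pow hw hjj])
    (fun x => (GalFAux.phP_dvd hO hw x).mul_left _)
  have h1 : wX p q s M - wX p q s (fun x => if PRG p x then M x else 0)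
      = ∑ x : A, if PRG p x then 0 else M x * GalD.phP p s q (GalAux.dlt A) x := by
    rw [GalAux.wX_eq, GalAux.wX_eq, ← Finset.sum_sub_distrib]
    refine Finset.sum_congr rfl fun x _ => ?_
    by_cases hx : PRG p x
    · simp only [if_pos hx, sub_self]
    · simp only [if_neg hx, zero_mul, sub_zero]
  rw [h1]
  exact h

end Pool.Agent.Lib.P0c8ca5.Bx
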