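import Mathlib
import Pool.Agent.Lib.P0c8ca5Bw.TauA
import Pool.Agent.Lib.P0c8ca5Bw.TauB
import Pool.Agent.Lib.P0c8ca5Bw.TauC
import Pool.Agent.Lib.P0c8ca5Bx.Defs

/-!
# Re: pairs and triples of involutions

PROOF. `tM_eq`: as `tS_eq` (P0c8ca5Bw.TauB): `tM P M = ∑ᶠ y, wM P M y * nI y`, `wM P M y = if y.1 ∈ P ∧ y.2 ^ 2 = 1 ∧ Opr 2 ⊤ ≤ gn y then M (y.1 * y.2) else 0` (the bijection `(r, s, t) ↦ ((r * s, t), r)` and `opr_triple`).
`pM_congr_tM`: as `pS_congr_tS` (P0c8ca5Bw.TauC) with `wM P M` in place of `wP S m`; `wM P M (x⁻¹, z) = wM P M (x, z)`: `M (x⁻¹ z) = M (x z)` because `x⁻¹ z = z⁻¹ (x z)⁻¹ z` for `z² = 1` (`hM`, `hr`).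
`wX_eq_pM`: `(x, z) ↦ (z, x z)` is a bijection from the pairs with `z⁴ = 1`, `(x z)² = 1` to the pairs `(z, v)` with `z⁴ = 1`, `v² = 1` (inverse: `x = v z⁻¹`), `closure {x, z} = closure {z, v}`, and
`M x = M (v z⁻¹) = M ((z v)⁻¹) = M (z v)` (`v⁻¹ = v`).
-/

namespace Pool.Agent.Lib.P0c8ca5.Bx

open Bw

variable {A : Type*} [Group A] [Finite A]

namespace ReAux

open Classical in
/-- the weight of a pair -/
noncomputable def wM (P : Set A) (M : A → ℤ) (y : A × A) : ℤ :=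
  if y.1 ∈ P ∧ y.2 ^ 2 = 1 ∧ Opr 2 (⊤ : Subgroup A) ≤ gn y then M (y.1 * y.2) else 0

theorem tM_eq (P : Set A) (M : A → ℤ) :
    tM P M = ∑ᶠ y : A × A, wM P M y * (nI y : ℤ) := by
  classical
  have := Fintype.ofFinite A
  have h1 : ∀ y : A × A, wM P M y * (nI y : ℤ) = ∑ r : A,
      if r ^ 2 = 1 ∧ r * y.1 * r⁻¹ = y.1⁻¹ ∧ r * y.2 * r⁻¹ = y.2 then wM P M y else 0 := by
    intro y
    rw [← Finset.sum_filter, Finset.sum_const, nI, Nat.card_eq_fintype_card, Fintype.card_subtype,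
      nsmul_eq_mul, mul_comm]
  rw [finsum_eq_sum_of_fintype, tM, finsum_eq_sum_of_fintype, Finset.sum_congr rfl (fun y _ => h1 y),
    ← Fintype.sum_prod_type' (fun (y : A × A) (r : A) =>
      if r ^ 2 = 1 ∧ r * y.1 * r⁻¹ = y.1⁻¹ ∧ r * y.2 * r⁻¹ = y.2 then wM P M y else 0)]
  refine Fintype.sum_equiv TauBAux.eqv _ _ ?_
  rintro ⟨r, s, t⟩
  change _ = if r ^ 2 = 1 ∧ r * (r * s) * r⁻¹ = (r * s)⁻¹ ∧ r * t * r⁻¹ = t then
    wM P M (r * s, t) else 0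
  have hw : wM P M (r * s, t) = if r * s ∈ P ∧ t ^ 2 = 1 ∧
      Opr 2 (⊤ : Subgroup A) ≤ Subgroup.closure {r * s, t} then M (r * s * t) else 0 := by
    unfold wM gn
    congr
  rw [hw, ← ite_and]
  refine if_congr ?_ rfl rfl
  constructor
  · rintro ⟨hr, hs, ht, hc, hS, hO⟩
    have hr' : r * r = 1 := by rw [← sq, hr]
    have hs' : s * s = 1 := by rw [← sq, hs]
    refine ⟨⟨hr, ?_, ?_⟩, hS, ht, (opr_triple r s t hr hs hc).1 hO⟩
    · rw [← mul_assoc, hr', one_mul, mul_inv_rev, inv_eq_of_mul_eq_one_left hs']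
    · rw [hc, mul_inv_cancel_right]
  · rintro ⟨⟨hr, h1, h2⟩, hS, ht, hO⟩
    have hr' : r * r = 1 := by rw [← sq, hr]
    have hc : r * t = t * r := mul_inv_eq_iff_eq_mul.1 h2
    have hs : s ^ 2 = 1 := by
      rw [← mul_assoc, hr', one_mul, mul_inv_rev] at h1
      have h3 : s = s⁻¹ := mul_right_cancel h1
      rw [sq]
      nth_rw 1 [h3]
      exact inv_mul_cancel s
    exact ⟨hr, hs, ht, hc, hS, (opr_triple r s t hr hs hc).2 hO⟩

omit [Finite A] in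
/-- `(g, ε) • (x, z) = (g x^ε g⁻¹, g z g⁻¹)` -/
@[reducible] def actP : MulAction (A × ℤˣ) (A × A) where
  smul t y := (t.1 * y.1 ^ ((t.2 : ℤˣ) : ℤ) * t.1⁻¹, t.1 * y.2 * t.1⁻¹)
  one_smul y := by
    refine Prod.ext ?_ ?_
    · change (1 : A) * y.1 ^ (((1 : ℤˣ) : ℤˣ) : ℤ) * (1 : A)⁻¹ = y.1
      simp
    · change (1 : A) * y.2 * (1 : A)⁻¹ = y.2
      simp
  mul_smul s t y := by
    refine Prod.ext ?_ ?_
    · change (s.1 * t.1) * y.1 ^ ((s.2 * t.2 : ℤˣ) : ℤ) * (s.1 * t.1)⁻¹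
        = s.1 * (t.1 * y.1 ^ ((t.2 : ℤˣ) : ℤ) * t.1⁻¹) ^ ((s.2 : ℤˣ) : ℤ) * s.1⁻¹
      rw [conj_zpow, ← zpow_mul, Units.val_mul, mul_comm (s.2 : ℤ) (t.2 : ℤ)]
      group
    · change (s.1 * t.1) * y.2 * (s.1 * t.1)⁻¹ = s.1 * (t.1 * y.2 * t.1⁻¹) * s.1⁻¹
      group

omit [Finite A] in
theorem closure_conj (g x z : A) : Subgroup.closure {g * x * g⁻¹, g * z * g⁻¹}
    = (Subgroup.closure {x, z}).map (MulAut.conj g).toMonoidHom := by
  rw [MonoidHom.map_closure, Set.image_insert_eq, Set.image_singleton]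
  rfl

omit [Finite A] in
theorem closure_inv (x z : A) :
    Subgroup.closure {x⁻¹, z} = Subgroup.closure {x, z} := by
  apply le_antisymm
  · rw [Subgroup.closure_le]
    rintro y (rfl | rfl)
    · exact inv_mem (Subgroup.subset_closure (Or.inl rfl))
    · exact Subgroup.subset_closure (Or.inr rfl)
  · rw [Subgroup.closure_le]
    rintro y (rfl | rfl)
    · have h : y⁻¹ ∈ Subgroup.closure {y⁻¹, z} := Subgroup.subset_closure (Or.inl rfl)
      exact (inv_mem_iff (H := Subgroup.closure {y⁻¹, z})).1 h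
    · exact Subgroup.subset_closure (Or.inr rfl)

omit [Finite A] in
theorem wM_conj {P : Set A} (hC : CInv P) {M : A → ℤ} (hM : CF M) (g x z : A) :
    wM P M (g * x * g⁻¹, g * z * g⁻¹) = wM P M (x, z) := by
  classical
  have h1 : (g * x * g⁻¹ ∈ P ∧ (g * z * g⁻¹) ^ 2 = 1 ∧
      Opr 2 (⊤ : Subgroup A) ≤ Subgroup.closure {g * x * g⁻¹, g * z * g⁻¹}) ↔
      (x ∈ P ∧ z ^ 2 = 1 ∧ Opr 2 (⊤ : Subgroup A) ≤ Subgroup.closure {x, z}) := by
    refine and_congr (hC g x) (and_congr ?_ ?_)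
    · rw [conj_pow]
      exact conj_eq_one_iff
    · rw [closure_conj]
      conv_lhs => rw [← RotAux.map_Opr_top (p := 2) g]
      exact Subgroup.map_le_map_iff_of_injective (MulAut.conj g).injective
  have h2 : M (g * x * g⁻¹ * (g * z * g⁻¹)) = M (x * z) := by
    have e : g * x * g⁻¹ * (g * z * g⁻¹) = g * (x * z) * g⁻¹ := by group
    rw [e, hM g]
  unfold wM gn
  change (if g * x * g⁻¹ ∈ P ∧ (g * z * g⁻¹) ^ 2 = 1 ∧
      Opr 2 (⊤ : Subgroup A) ≤ Subgroup.closure {g * x * g⁻¹, g * z * g⁻¹} then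
        M (g * x * g⁻¹ * (g * z * g⁻¹)) else 0)
    = if x ∈ P ∧ z ^ 2 = 1 ∧
      Opr 2 (⊤ : Subgroup A) ≤ Subgroup.closure {x, z} then M (x * z) else 0
  rw [h2]
  exact if_congr h1 rfl rfl

omit [Finite A] in
theorem wM_inv {P : Set A} (hi : ∀ u, u⁻¹ ∈ P ↔ u ∈ P) {M : A → ℤ}
    (hM : CF M) (hr : ∀ x, M x⁻¹ = M x) (x z : A) :
    wM P M (x⁻¹, z) = wM P M (x, z) := by
  classical
  have h1 : (x⁻¹ ∈ P ∧ z ^ 2 = 1 ∧
      Opr 2 (⊤ : Subgroup A) ≤ Subgroup.closure {x⁻¹, z}) ↔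
      (x ∈ P ∧ z ^ 2 = 1 ∧ Opr 2 (⊤ : Subgroup A) ≤ Subgroup.closure {x, z}) := by
    refine and_congr (hi x) (and_congr Iff.rfl ?_)
    rw [closure_inv]
  change (if x⁻¹ ∈ P ∧ z ^ 2 = 1 ∧
      Opr 2 (⊤ : Subgroup A) ≤ Subgroup.closure {x⁻¹, z} then M (x⁻¹ * z) else 0)
    = if x ∈ P ∧ z ^ 2 = 1 ∧
      Opr 2 (⊤ : Subgroup A) ≤ Subgroup.closure {x, z} then M (x * z) else 0
  by_cases hc : x ∈ P ∧ z ^ 2 = 1 ∧
      Opr 2 (⊤ : Subgroup A) ≤ Subgroup.closure {x, z}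
  · rw [if_pos hc, if_pos (h1.2 hc)]
    have hz : z⁻¹ = z := by
      rw [inv_eq_iff_mul_eq_one, ← pow_two]
      exact hc.2.1
    have e : x⁻¹ * z = z⁻¹ * (x * z)⁻¹ * z⁻¹⁻¹ := by
      have e1 : z⁻¹ * (x * z)⁻¹ * z⁻¹⁻¹ = z⁻¹ * z⁻¹ * x⁻¹ * z := by group
      have e2 : z⁻¹ * z⁻¹ = 1 := by
        conv_lhs => rw [hz]
        rw [← pow_two]
        exact hc.2.1
      rw [e1, e2, one_mul]
    rw [e, hM z⁻¹, hr]
  · rw [if_neg hc, if_neg (fun h => hc (h1.1 h))]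

omit [Finite A] in
theorem nI_conj (g x z : A) : nI (g * x * g⁻¹, g * z * g⁻¹) = nI (x, z) := by
  unfold nI
  refine Nat.card_congr (Equiv.subtypeEquiv (MulAut.conj g).toEquiv ?_).symm
  intro r
  change (r ^ 2 = 1 ∧ r * x * r⁻¹ = x⁻¹ ∧ r * z * r⁻¹ = z) ↔
    ((g * r * g⁻¹) ^ 2 = 1 ∧ (g * r * g⁻¹) * (g * x * g⁻¹) * (g * r * g⁻¹)⁻¹ = (g * x * g⁻¹)⁻¹ ∧
      (g * r * g⁻¹) * (g * z * g⁻¹) * (g * r * g⁻¹)⁻¹ = g * z * g⁻¹)
  refine and_congr ?_ (and_congr ?_ ?_)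
  · rw [conj_pow]
    exact conj_eq_one_iff.symm
  · have e1 : (g * r * g⁻¹) * (g * x * g⁻¹) * (g * r * g⁻¹)⁻¹ = g * (r * x * r⁻¹) * g⁻¹ := by
      group
    rw [e1, conj_inv, mul_left_inj, mul_right_inj]
  · have e1 : (g * r * g⁻¹) * (g * z * g⁻¹) * (g * r * g⁻¹)⁻¹ = g * (r * z * r⁻¹) * g⁻¹ := by
      group
    rw [e1, mul_left_inj, mul_right_inj]

omit [Finite A] in
theorem nI_inv (x z : A) : nI (x⁻¹, z) = nI (x, z) := by
  unfold nI
  refine Nat.card_congr (Equiv.subtypeEquivRight ?_)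
  intro r
  change (r ^ 2 = 1 ∧ r * x⁻¹ * r⁻¹ = x⁻¹⁻¹ ∧ r * z * r⁻¹ = z) ↔
    (r ^ 2 = 1 ∧ r * x * r⁻¹ = x⁻¹ ∧ r * z * r⁻¹ = z)
  refine and_congr Iff.rfl (and_congr ?_ Iff.rfl)
  rw [← conj_inv, inv_inj]

end ReAux

open ReAux in
theorem pM_congr_tM (hO : NoP 2 (⊤ : Subgroup A)) {P : Set A} (hC : CInv P)
    (hi : ∀ u, u⁻¹ ∈ P ↔ u ∈ P) {M : A → ℤ} (hM : CF M) (hr : ∀ x, M x⁻¹ = M x) :
    (2 : ℤ) * (ordProj[2] (Nat.card A) : ℕ) ∣ pM P M - tM P M := by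
  classical
  have : Fact (Nat.Prime 2) := ⟨Nat.prime_two⟩
  have : Fintype A := Fintype.ofFinite A
  let _ : MulAction (A × ℤˣ) (A × A) := actP
  have hsm : ∀ (t : A × ℤˣ) (y : A × A),
      t • y = (t.1 * y.1 ^ ((t.2 : ℤˣ) : ℤ) * t.1⁻¹, t.1 * y.2 * t.1⁻¹) := fun _ _ => rfl
  have hp : pM P M = ∑ᶠ y : A × A, wM P M y := rfl
  have hsum : pM P M - tM P M = ∑ y : A × A, wM P M y * (1 - (nI y : ℤ)) := by
    rw [hp, tM_eq, finsum_eq_sum_of_fintype, finsum_eq_sum_of_fintype, ← Finset.sum_sub_distrib]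
    refine Finset.sum_congr rfl fun y _ => ?_
    ring
  have key := orb_dvd_p (p := 2) (T := A × ℤˣ) (X := A × A)
    (fun y => wM P M y * (1 - (nI y : ℤ))) ?_ 1 ?_
  · rw [hsum]
    have h2 : Nat.card ℤˣ = 2 := by
      rw [Nat.card_eq_fintype_card]
      exact Fintype.card_units_int
    have h3 : ordProj[2] 2 = 2 := by
      rw [Nat.prime_two.factorization_self, pow_one]
    rw [one_mul, Nat.card_prod, h2, Nat.ordProj_mul 2 Nat.card_pos.ne' (by norm_num), h3,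
      Nat.cast_mul, mul_comm] at key
    exact key
  · rintro ⟨g, ε⟩ ⟨x, z⟩
    simp only [hsm]
    rw [wM_conj hC hM, nI_conj]
    rcases Int.units_eq_one_or ε with rfl | rfl
    · rw [Units.val_one, zpow_one]
    · rw [Units.val_neg, Units.val_one, zpow_neg, zpow_one, wM_inv hi hM hr, nI_inv]
  · rintro ⟨x, z⟩
    by_cases hw : wM P M (x, z) = 0
    · simp only [hw, zero_mul]
      exact dvd_zero _
    have hg : Opr 2 (⊤ : Subgroup A) ≤ Subgroup.closure {x, z} := by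
      by_contra h1
      refine hw ?_
      unfold wM
      exact if_neg (fun h2 => h1 h2.2.2)
    refine Dvd.dvd.mul_left ?_ _
    rw [one_mul]
    let T : Subgroup (A × ℤˣ) := MulAction.stabilizer (A × ℤˣ) (x, z)
    let π : ↥T →* ℤˣ := (MonoidHom.snd A ℤˣ).comp T.subtype
    have hπ : ∀ s : ↥T, π s = (s : A × ℤˣ).2 := fun s => rfl
    have hker : ¬ 2 ∣ Nat.card π.ker := by
      intro h1
      obtain ⟨s, hs⟩ := exists_prime_orderOf_dvd_card' 2 h1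
      have h2 : ((s : ↥T) : A × ℤˣ).2 = 1 := s.2
      have h3 : (((s : ↥T) : A × ℤˣ)) • ((x, z) : A × A) = (x, z) := (s : ↥T).2
      rw [hsm, h2, Units.val_one, zpow_one] at h3
      have h4 : ((s : ↥T) : A × ℤˣ).1 * x * (((s : ↥T) : A × ℤˣ).1)⁻¹ = x :=
        congrArg Prod.fst h3
      have h5 : ((s : ↥T) : A × ℤˣ).1 * z * (((s : ↥T) : A × ℤˣ).1)⁻¹ = z :=
        congrArg Prod.snd h3
      refine cent_odd hO hg (mul_inv_eq_iff_eq_mul.1 h4) (mul_inv_eq_iff_eq_mul.1 h5) ?_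
      have h6 : ((s : ↥T) : A × ℤˣ).1 ^ 2 = 1 := by
        have h7 : s ^ 2 = 1 := by rw [← hs]; exact pow_orderOf_eq_one s
        have h8 := congrArg (fun s : ↥π.ker => ((s : ↥T) : A × ℤˣ).1) h7
        simpa using h8
      have h7 : ((s : ↥T) : A × ℤˣ).1 ≠ 1 := by
        intro h8
        have h9 : s = 1 := Subtype.ext (Subtype.ext (Prod.ext h8 h2))
        rw [h9, orderOf_one] at hs
        exact absurd hs (by norm_num)
      rw [orderOf_eq_prime h6 h7]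
    have hcard : Nat.card ↥T = Nat.card π.ker * Nat.card π.range := by
      rw [← Subgroup.index_ker, Subgroup.card_mul_index]
    have hk1 : ordProj[2] (Nat.card π.ker) = 1 := by
      rw [Nat.factorization_eq_zero_of_not_dvd hker, pow_zero]
    have hT : ordProj[2] (Nat.card ↥T) = ordProj[2] (Nat.card π.range) := by
      rw [hcard, Nat.ordProj_mul 2 Nat.card_pos.ne' Nat.card_pos.ne', hk1, one_mul]
    change ((ordProj[2] (Nat.card ↥T) : ℕ) : ℤ) ∣ 1 - (nI (x, z) : ℤ)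
    rw [hT]
    by_cases hex : ∃ s : ↥T, π s = -1
    · obtain ⟨s, hs⟩ := hex
      have h3 : (s : A × ℤˣ) • ((x, z) : A × A) = (x, z) := s.2
      rw [hπ] at hs
      rw [hsm, hs, Units.val_neg, Units.val_one, zpow_neg, zpow_one] at h3
      have h4 : (s : A × ℤˣ).1 * x⁻¹ * ((s : A × ℤˣ).1)⁻¹ = x := congrArg Prod.fst h3
      have h5 : (s : A × ℤˣ).1 * z * ((s : A × ℤˣ).1)⁻¹ = z := congrArg Prod.snd h3
      have h6 : (s : A × ℤˣ).1 * x * ((s : A × ℤˣ).1)⁻¹ = x⁻¹ := by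
        rw [← conj_inv, inv_eq_iff_eq_inv] at h4
        exact h4
      have h7 := nI_odd hO hg h6 h5
      refine dvd_trans ?_ h7
      have h8 : Nat.card π.range ∣ 2 := by
        have h9 := Subgroup.card_subgroup_dvd_card π.range
        rw [Nat.card_eq_fintype_card (α := ℤˣ), Fintype.card_units_int] at h9
        exact h9
      have h9 : ordProj[2] (Nat.card π.range) ∣ 2 := (Nat.ordProj_dvd _ 2).trans h8
      exact_mod_cast h9
    · have h1 : π.range = ⊥ := by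
        rw [eq_bot_iff]
        rintro _ ⟨s, rfl⟩
        rw [Subgroup.mem_bot]
        rcases Int.units_eq_one_or (π s) with h2 | h2
        · exact h2
        · exact absurd ⟨s, h2⟩ hex
      rw [h1, Subgroup.card_bot]
      simp

namespace ReAux

/-- `(x, z) ↦ (z, x * z)` -/
def eqx : A × A ≃ A × A where
  toFun y := (y.2, y.1 * y.2)
  invFun y := (y.2 * y.1⁻¹, y.1)
  left_inv y := by simp
  right_inv y := by simp

omit [Finite A] in
theorem closure_eqx (x z : A) : Subgroup.closure {z, x * z} = Subgroup.closure {x, z} := by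
  apply le_antisymm
  · rw [Subgroup.closure_le]
    rintro y (rfl | rfl)
    · exact Subgroup.subset_closure (Or.inr rfl)
    · exact mul_mem (Subgroup.subset_closure (Or.inl rfl)) (Subgroup.subset_closure (Or.inr rfl))
  · rw [Subgroup.closure_le]
    rintro y (rfl | rfl)
    · have h1 : y * z ∈ Subgroup.closure {z, y * z} := Subgroup.subset_closure (Or.inr rfl)
      have h2 : z ∈ Subgroup.closure {z, y * z} := Subgroup.subset_closure (Or.inl rfl)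
      have h3 := mul_mem h1 (inv_mem h2)
      rw [mul_inv_cancel_right] at h3
      exact h3
    · exact Subgroup.subset_closure (Or.inl rfl)

end ReAux

theorem wX_eq_pM {M : A → ℤ} (hr : ∀ x, M x⁻¹ = M x) :
    wX 2 4 2 M = pM {z : A | z ^ 4 = 1} M := by
  classical
  have := Fintype.ofFinite A
  rw [wX, finsum_eq_sum_of_fintype, pM, finsum_eq_sum_of_fintype]
  refine Fintype.sum_equiv ReAux.eqx _ _ ?_
  rintro ⟨x, z⟩
  change (if z ^ 4 = 1 ∧ (x * z) ^ 2 = 1 ∧ Opr 2 (⊤ : Subgroup A) ≤ Subgroup.closure {x, z} then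
    M x else 0) = if z ^ 4 = 1 ∧ (x * z) ^ 2 = 1 ∧
      Opr 2 (⊤ : Subgroup A) ≤ Subgroup.closure {z, x * z} then M (z * (x * z)) else 0
  rw [ReAux.closure_eqx]
  by_cases h : z ^ 4 = 1 ∧ (x * z) ^ 2 = 1 ∧ Opr 2 (⊤ : Subgroup A) ≤ Subgroup.closure {x, z}
  · rw [if_pos h, if_pos h]
    have h1 : z * (x * z) = x⁻¹ := by
      have h2 : x * z * (x * z) = 1 := by rw [← sq]; exact h.2.1
      rw [eq_inv_iff_mul_eq_one]
      have h3 : x * (z * (x * z)) = 1 := by rw [← mul_assoc]; exact h2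
      exact mul_eq_one_comm.1 h3
    rw [h1, hr]
  · rw [if_neg h, if_neg h]

end Pool.Agent.Lib.P0c8ca5.Bx
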