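import Mathlib
import Pool.Agent.Lib.P0c8ca5Bx.Defs

/-!
# Rq: the rotations of the pairs of order 3 and 4

PROOF. All by `group` and a few lines. `E3 (a, b) = (a b a⁻¹, b⁻¹ a⁻¹)`, `E4 (a, b) = (a b a⁻¹, a⁻¹)`. `pow`: `E3 (E3 (E3 t)) = cj2 [a, b] t`, `E4^[4] t = cj2 [a, b] t`. `gen`: each of the entries of `t` is a word in those
of `E t` and conversely (`E4`: `a = (a⁻¹)⁻¹`, `b = a⁻¹ (a b a⁻¹) a`; `E3`: `(a b a⁻¹) * (b⁻¹ a⁻¹)⁻¹ = a b a⁻¹ a b = a b b`.. find the words: with `a' = a b a⁻¹`, `b' = b⁻¹ a⁻¹`: `b' * a' = b⁻¹ a⁻¹ a b a⁻¹ = a⁻¹`.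
so `a = (b' a')⁻¹`, `b = a⁻¹ a' a`).
`T x z = (x ^ (q - 1) z, z x⁻¹)`, i.e. `T3 x z = (x² z, z x⁻¹)`, `T4 x z = (x³ z, z x⁻¹)`. For `q = 3`, `s = 3`: let `z³ = 1`, `(x z)³ = 1`. `[a, b] = a b a⁻¹ b⁻¹ = x³`, `E3 (a, b) = (x a x⁻¹, x b x⁻¹)`:
`a b a⁻¹ = x² z z x⁻¹ z⁻¹ x⁻² = x³ z x⁻¹` iff `z⁻¹ x⁻¹ z⁻¹ x⁻¹ = x z` (`z² = z⁻¹`) iff `(x z)³ = 1`; `b⁻¹ a⁻¹ = x z⁻¹ z⁻¹ x⁻² = x z x⁻²` (`z⁻² = z`) ` = x (z x⁻¹) x⁻¹`.
For `q = 4`, `s = 2`: `z⁴ = 1`, `(x z)² = 1`: `a⁻¹ = z⁻¹ x⁻³ = x (z x⁻¹) x⁻¹` iff `(x z)² = 1` [`z⁻¹ x⁻¹ = x z`]; etc.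
`surj`: from `E t = cj2 x t` and `[a, b] = x ^ q`: `z = b x`. `q = 3`: `x a x⁻¹ = a b a⁻¹ = [a, b] b = x³ b`, so `a = x² b x = x² z`, `b = z x⁻¹`; `x b x⁻¹ = b⁻¹ a⁻¹` gives `a = x b⁻¹ x⁻¹ b⁻¹ = x² z⁻²`, so `z³ = 1`; then `(x z)³ = 1` as above.
`q = 4`: `a = x³ b x = x³ z`; `x b x⁻¹ = a⁻¹` gives `a = x b⁻¹ x⁻¹ = x² z⁻¹ x⁻¹`, so `x z = z⁻¹ x⁻¹`, `(x z)² = 1`, and then `a b a⁻¹ = x a x⁻¹` gives `z⁴ = 1`.
`inj`: from the second component. `le`: clear. `zz`: `i = q - 1`: `x ^ i * z` is the first component.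
-/

namespace Pool.Agent.Lib.P0c8ca5.Bx

variable {A : Type*} [Group A]

/-- the rotation of order 3 -/
def Eq3 (t : A × A) : A × A := (t.1 * t.2 * t.1⁻¹, t.2⁻¹ * t.1⁻¹)

/-- the rotation of order 4 -/
def Eq4 (t : A × A) : A × A := (t.1 * t.2 * t.1⁻¹, t.1⁻¹)

/-- the fixed orbits of the rotation of order 3 -/
def Tq3 (x z : A) : A × A := (x ^ 2 * z, z * x⁻¹)

/-- the fixed orbits of the rotation of order 4 -/
def Tq4 (x z : A) : A × A := (x ^ 3 * z, z * x⁻¹)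

private theorem gn_le {t : A × A} {H : Subgroup A} (h1 : t.1 ∈ H) (h2 : t.2 ∈ H) : gn t ≤ H := by
  unfold gn
  rw [Subgroup.closure_le]
  rintro y (rfl | rfl)
  · exact h1
  · exact h2

private theorem gn_fst (t : A × A) : t.1 ∈ gn t :=
  Subgroup.subset_closure (Set.mem_insert _ _)

private theorem gn_snd (t : A × A) : t.2 ∈ gn t :=
  Subgroup.subset_closure (Set.mem_insert_of_mem _ rfl)

private theorem p2 {y : A} : y ^ 2 = y * y := pow_two y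

private theorem p3 {y : A} : y ^ 3 = y * y * y := by rw [pow_succ, pow_two]

private theorem p4 {y : A} : y ^ 4 = y * y * y * y := by rw [pow_succ, pow_succ, pow_two]

private theorem q3a {z : A} (hz : z ^ 3 = 1) : z * z = z⁻¹ := by
  rw [p3] at hz
  exact eq_inv_of_mul_eq_one_left hz

private theorem q3b {x z : A} (hxz : (x * z) ^ 3 = 1) : z⁻¹ * x⁻¹ * z⁻¹ = x * z * x := by
  rw [p3] at hxz
  rw [← mul_inv_eq_one, ← inv_eq_one, ← hxz]
  group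

private theorem q4a {z : A} (hz : z ^ 4 = 1) : z * z * z = z⁻¹ := by
  rw [p4] at hz
  exact eq_inv_of_mul_eq_one_left hz

private theorem q4b {x z : A} (hxz : (x * z) ^ 2 = 1) : x⁻¹ * z⁻¹ * x⁻¹ = z := by
  rw [p2] at hxz
  rw [← mul_inv_eq_one, ← inv_eq_one]
  have h : (x⁻¹ * z⁻¹ * x⁻¹ * z⁻¹)⁻¹ = x⁻¹ * (x * z * (x * z)) * x := by group
  rw [h, hxz]
  group

private theorem q4c {x z : A} (hxz : (x * z) ^ 2 = 1) : z⁻¹ * x⁻¹ = x * z := by
  rw [p2] at hxz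
  rw [← mul_inv_eq_one, ← inv_eq_one, ← hxz]
  group

theorem Eq3_isRq : IsRq 3 (Eq3 : A × A → A × A) where
  cj g t := by
    simp only [Eq3, cj2, Prod.mk.injEq]
    constructor <;> group
  pow t := by
    simp only [Function.iterate_succ, Function.iterate_zero, Function.comp, id, Eq3, cj2, cmt,
      Prod.mk.injEq]
    constructor <;> group
  cm t := by
    simp only [Eq3, cmt]
    group
  gen t := by
    apply le_antisymm
    · apply gn_le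
      · exact mul_mem (mul_mem (gn_fst t) (gn_snd t)) (inv_mem (gn_fst t))
      · exact mul_mem (inv_mem (gn_snd t)) (inv_mem (gn_fst t))
    · have ha : t.1 ∈ gn (Eq3 t) := by
        have h : t.1 = ((Eq3 t).2 * (Eq3 t).1)⁻¹ := by
          simp only [Eq3]
          group
        rw [h]
        exact inv_mem (mul_mem (gn_snd _) (gn_fst _))
      apply gn_le ha
      have h : t.2 = t.1⁻¹ * (Eq3 t).1 * t.1 := by
        simp only [Eq3]
        group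
      rw [h]
      exact mul_mem (mul_mem (inv_mem ha) (gn_fst _)) ha

theorem Eq4_isRq : IsRq 4 (Eq4 : A × A → A × A) where
  cj g t := by
    simp only [Eq4, cj2, Prod.mk.injEq]
    constructor <;> group
  pow t := by
    simp only [Function.iterate_succ, Function.iterate_zero, Function.comp, id, Eq4, cj2, cmt,
      Prod.mk.injEq]
    constructor <;> group
  cm t := by
    simp only [Eq4, cmt]
    group
  gen t := by
    apply le_antisymm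
    · apply gn_le
      · exact mul_mem (mul_mem (gn_fst t) (gn_snd t)) (inv_mem (gn_fst t))
      · exact inv_mem (gn_fst t)
    · have ha : t.1 ∈ gn (Eq4 t) := by
        have h : t.1 = ((Eq4 t).2)⁻¹ := by
          simp only [Eq4]
          group
        rw [h]
        exact inv_mem (gn_snd _)
      apply gn_le ha
      have h : t.2 = t.1⁻¹ * (Eq4 t).1 * t.1 := by
        simp only [Eq4]
        group
      rw [h]
      exact mul_mem (mul_mem (inv_mem ha) (gn_fst _)) ha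

theorem Tq3_isPq : IsPq 3 3 (Eq3 : A × A → A × A) (Tq3 : A → A → A × A) where
  fix x z hz hxz := by
    have e1 := q3a hz
    have e2 := q3b hxz
    simp only [Eq3, Tq3, cj2, Prod.mk.injEq]
    constructor
    · calc x ^ 2 * z * (z * x⁻¹) * (x ^ 2 * z)⁻¹
          = x ^ 2 * ((z * z) * x⁻¹ * z⁻¹) * (x ^ 2)⁻¹ := by group
        _ = x ^ 2 * (x * z * x) * (x ^ 2)⁻¹ := by rw [e1, e2]
        _ = x * (x ^ 2 * z) * x⁻¹ := by group
    · calc (z * x⁻¹)⁻¹ * (x ^ 2 * z)⁻¹ = x * (z * z)⁻¹ * (x ^ 2)⁻¹ := by group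
        _ = x * (z * x⁻¹) * x⁻¹ := by rw [e1]; group
  cm x z hz hxz := by
    have e1 := q3a hz
    have e2 := q3b hxz
    simp only [Tq3, cmt]
    calc x ^ 2 * z * (z * x⁻¹) * (x ^ 2 * z)⁻¹ * (z * x⁻¹)⁻¹
        = x ^ 2 * ((z * z) * x⁻¹ * z⁻¹) * x⁻¹ * z⁻¹ := by group
      _ = x ^ 2 * (x * z * x) * x⁻¹ * z⁻¹ := by rw [e1, e2]
      _ = x ^ 3 := by group
  surj x t ht hc := by
    obtain ⟨a, b⟩ := t
    simp only [Eq3, cj2, cmt, Prod.mk.injEq] at ht hc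
    obtain ⟨h1, h2⟩ := ht
    have ha : a = x ^ 2 * b * x := by
      rw [h1] at hc
      have : a = x⁻¹ * (x * a * x⁻¹ * b⁻¹) * b * x := by group
      rw [this, hc]; group
    have h3 : b * x * b * x * b * x = 1 := by
      have h4 : x * b * x⁻¹ * a * b = 1 := by rw [← h2]; group
      rw [ha] at h4
      have h5 : b * x * b * x * b * x = x⁻¹ * (x * b * x⁻¹ * (x ^ 2 * b * x) * b) * x := by group
      rw [h5, h4]; group
    have h3' : b * x * b = x⁻¹ * b⁻¹ * x⁻¹ := by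
      rw [← mul_inv_eq_one, ← h3]; group
    refine ⟨b * x, ?_, ?_, ?_⟩
    · rw [p3, ← h3]; group
    · have h6 : x ^ 2 * b * x * b * (x ^ 2 * b * x)⁻¹ * (x * (x ^ 2 * b * x) * x⁻¹)⁻¹ = 1 := by
        rw [mul_inv_eq_one, ← ha, h1]
      have h7 : x ^ 2 * b * x * b * (x ^ 2 * b * x)⁻¹ * (x * (x ^ 2 * b * x) * x⁻¹)⁻¹
          = x ^ 2 * (b * x * b) * x⁻¹ * b⁻¹ * x⁻¹ * x⁻¹ * b⁻¹ * x⁻¹ * x⁻¹ * x⁻¹ := by group
      rw [h7, h3'] at h6
      rw [← inv_eq_one]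
      rw [p3]
      have h8 : (x * (b * x) * (x * (b * x)) * (x * (b * x)))⁻¹ = x⁻¹ * (x⁻¹ * (x ^ 2 * (x⁻¹ * b⁻¹ * x⁻¹) * x⁻¹ * b⁻¹ * x⁻¹ * x⁻¹ * b⁻¹
          * x⁻¹ * x⁻¹ * x⁻¹) * x) * x := by group
      rw [h8, h6]; group
    · simp only [Tq3, Prod.mk.injEq]
      constructor
      · rw [ha]; group
      · group
  inj x z z' h := by
    have h2 := congrArg Prod.snd h
    exact mul_right_cancel h2
  le x z := by
    have hx : x ∈ Subgroup.closure {x, z} := Subgroup.subset_closure (Set.mem_insert _ _)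
    have hz : z ∈ Subgroup.closure {x, z} :=
      Subgroup.subset_closure (Set.mem_insert_of_mem _ rfl)
    exact gn_le (mul_mem (pow_mem hx 2) hz) (mul_mem hz (inv_mem hx))
  zz x z := ⟨2, by
    have h := gn_fst (Tq3 x z)
    have e : (Tq3 x z).1 = x ^ (2 : ℤ) * z := by
      simp only [Tq3]
      rw [← zpow_natCast x 2]
      rfl
    rwa [e] at h⟩

theorem Tq4_isPq : IsPq 4 2 (Eq4 : A × A → A × A) (Tq4 : A → A → A × A) where
  fix x z hz hxz := by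
    have e1 := q4a hz
    have e2 := q4b hxz
    have e3 := q4c hxz
    simp only [Eq4, Tq4, cj2, Prod.mk.injEq]
    constructor
    · calc x ^ 3 * z * (z * x⁻¹) * (x ^ 3 * z)⁻¹
          = x ^ 3 * (z * z * (x⁻¹ * z⁻¹ * x⁻¹)) * (x ^ 2)⁻¹ := by group
        _ = x ^ 3 * (z⁻¹ * x⁻¹) * x⁻¹ := by rw [e2, e1]; group
        _ = x * (x ^ 3 * z) * x⁻¹ := by rw [e3]; group
    · calc (x ^ 3 * z)⁻¹ = (z⁻¹ * x⁻¹) * (x ^ 2)⁻¹ := by group
        _ = x * (z * x⁻¹) * x⁻¹ := by rw [e3]; group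
  cm x z hz hxz := by
    have e1 := q4a hz
    have e2 := q4b hxz
    have e3 := q4c hxz
    simp only [Tq4, cmt]
    calc x ^ 3 * z * (z * x⁻¹) * (x ^ 3 * z)⁻¹ * (z * x⁻¹)⁻¹
        = x ^ 3 * (z * z * (x⁻¹ * z⁻¹ * x⁻¹)) * x⁻¹ * z⁻¹ := by group
      _ = x ^ 3 * (z⁻¹ * x⁻¹) * z⁻¹ := by rw [e2, e1]; group
      _ = x ^ 4 := by rw [e3]; group
  surj x t ht hc := by
    obtain ⟨a, b⟩ := t
    simp only [Eq4, cj2, cmt, Prod.mk.injEq] at ht hc
    obtain ⟨h1, h2⟩ := ht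
    have ha : a = x ^ 3 * b * x := by
      rw [h1] at hc
      have : a = x⁻¹ * (x * a * x⁻¹ * b⁻¹) * b * x := by group
      rw [this, hc]; group
    have ha' : a = x * b⁻¹ * x⁻¹ := by
      rw [← inv_inv a, h2]; group
    have h3 : x * b * x * x * b * x = 1 := by
      have h4 : x ^ 3 * b * x * (x * b⁻¹ * x⁻¹)⁻¹ = 1 := by
        rw [mul_inv_eq_one, ← ha, ha']
      have h5 : x * b * x * x * b * x = x⁻¹ * x⁻¹ * (x ^ 3 * b * x * (x * b⁻¹ * x⁻¹)⁻¹) * x * x := by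
        group
      rw [h5, h4]; group
    have h3' : x⁻¹ * b⁻¹ * x⁻¹ = x * b * x := by
      rw [← mul_inv_eq_one, ← inv_eq_one]
      have h4 : (x⁻¹ * b⁻¹ * x⁻¹ * (x * b * x)⁻¹)⁻¹ = x * b * x * x * b * x := by
        simp only [mul_inv_rev, inv_inv, mul_assoc]
      rw [h4, h3]
    refine ⟨b * x, ?_, ?_, ?_⟩
    · have h6 : (x * b⁻¹ * x⁻¹) * b * (x * b⁻¹ * x⁻¹)⁻¹ * (x * (x * b⁻¹ * x⁻¹) * x⁻¹)⁻¹ = 1 := by
        rw [mul_inv_eq_one, ← ha', h1]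
      have h7 : (b * x) ^ 4 = b * x * b * x * b * (x * b * x) := by rw [p4]; group
      rw [h7, ← h3']
      have h8 : b * x * b * x * b * (x⁻¹ * b⁻¹ * x⁻¹) = x * (b * x⁻¹ * ((x * b⁻¹ * x⁻¹) * b
          * (x * b⁻¹ * x⁻¹)⁻¹ * (x * (x * b⁻¹ * x⁻¹) * x⁻¹)⁻¹) * x * b⁻¹) * x⁻¹ := by group
      rw [h8, h6]; group
    · rw [p2, ← h3]; group
    · simp only [Tq4, Prod.mk.injEq]
      constructor
      · rw [ha]; group
      · group
  inj x z z' h := by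
    have h2 := congrArg Prod.snd h
    exact mul_right_cancel h2
  le x z := by
    have hx : x ∈ Subgroup.closure {x, z} := Subgroup.subset_closure (Set.mem_insert _ _)
    have hz : z ∈ Subgroup.closure {x, z} :=
      Subgroup.subset_closure (Set.mem_insert_of_mem _ rfl)
    exact gn_le (mul_mem (pow_mem hx 3) hz) (mul_mem hz (inv_mem hx))
  zz x z := ⟨3, by
    have h := gn_fst (Tq4 x z)
    have e : (Tq4 x z).1 = x ^ (3 : ℤ) * z := by
      simp only [Tq4]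
      rw [← zpow_natCast x 3]
      rfl
    rwa [e] at h⟩

end Pool.Agent.Lib.P0c8ca5.Bx
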