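import Mathlib
import Pool.Agent.Lib.P0c8ca5V.RotP
import Pool.Agent.Lib.P0c8ca5Bx.Defs

/-!
# RqA: fixed orbits of rotations

PROOF. `no_cent2`: a p-element commuting with the entries of `t` is trivial (`RotAux.no_p_cent` applied to the triple `(a, b, 1)`, or `norm_trivial`).
`nY_mod`: if `E t = cj2 h t` for some `h` then `nY ≡ 1` modulo `p`. Let `y = [a, b]`; `h` commutes with `y` (`hE.cm`: `cmt` of `cj2 h t`). `cj2 (h ^ q) t = E^[q] t = cj2 y t`, so `ζ = y⁻¹ * h ^ q` is in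
`C = ` the set of the elements commuting with `a` and `b` (group without elements of order `p`, `no_cent2`), `ζ` commutes with `h`. `ζ` has order prime to `p`, so there is a power `η` of `ζ` with `η ^ q = ζ⁻¹`; `x₀ = h * η`:
`E t = cj2 x₀ t`, `x₀ ^ q = h ^ q * η ^ q = y`. So `X = {x // E t = cj2 x t ∧ x ^ q = y}` is not empty. The map `x ↦ x₀ * x * x₀⁻¹` is a permutation of `X` (`x₀ * x * x₀⁻¹ = x₀ * (x * x₀⁻¹)` and `x * x₀⁻¹ ∈ C`..: `cj2 (x₀ x x₀⁻¹) t = cj2 (x₀ x) (E⁻¹ t)`, use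
`x = x₀ c`, `c ∈ C`, `x₀ C x₀⁻¹ = C` because `gn (E t) = gn t`, i.e. `cj2 x₀ t = E t` generates the same group, so `x₀` normalizes `gn t` and hence its centralizer); its `q`-th iterate is conjugation by `x₀ ^ q = y`, trivial on `X` (`x ^ q = y` commutes with `x`).
Its fixed points: `x = x₀ c` with `c ∈ C` commuting with `x₀`: `x ^ q = y c ^ q = y`, so `c ^ q = 1`, `c = 1`. So exactly one fixed point, and `|X| ≡ 1` (`Equiv.Perm.card_fixedPoints_modEq` as in `RotPAux.nX_mod`, P0c8ca5V.RotP).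
-/

namespace Pool.Agent.Lib.P0c8ca5.Bx

variable {p : ℕ} {A : Type*} [Group A]

theorem no_cent2 [Fact p.Prime] [Finite A] (hO : NoP p (⊤ : Subgroup A)) {t : A × A}
    (ht : Opr p (⊤ : Subgroup A) ≤ gn t) {g : A} (hg : cj2 g t = t) : ¬ p ∣ orderOf g := by
  refine RotAux.no_p_cent (p := p) hO (t := (t.1, t.2, 1)) ?_ ?_
  · refine ht.trans ?_
    unfold gn gen
    refine Subgroup.closure_mono ?_
    rintro y (rfl | rfl)
    · exact Or.inl rfl
    · exact Or.inr (Or.inl rfl)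
  · have h1 : g * t.1 * g⁻¹ = t.1 := congrArg Prod.fst hg
    have h2 : g * t.2 * g⁻¹ = t.2 := congrArg Prod.snd hg
    change (g * t.1 * g⁻¹, g * t.2 * g⁻¹, g * 1 * g⁻¹) = (t.1, t.2, 1)
    rw [h1, h2, mul_one, mul_inv_cancel]

namespace RqAAux

theorem cj2_one (t : A × A) : cj2 1 t = t := by
  simp [cj2]

theorem cj2_mul (g h : A) (t : A × A) : cj2 (g * h) t = cj2 g (cj2 h t) := by
  simp [cj2, mul_assoc]

theorem cmt_cj2 (g : A) (t : A × A) :
    cmt (cj2 g t).1 (cj2 g t).2 = g * cmt t.1 t.2 * g⁻¹ := by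
  unfold cmt cj2
  group

variable {E : A × A → A × A}

theorem cj2_inj (g : A) {s t : A × A} (h : cj2 g s = cj2 g t) : s = t := by
  have h1 := congrArg (cj2 g⁻¹) h
  rwa [← cj2_mul, ← cj2_mul, inv_mul_cancel, cj2_one, cj2_one] at h1

theorem E_inj [Fact p.Prime] {r : ℕ} (hE : IsRq (p ^ r) E) : Function.Injective E := by
  intro s t hst
  have h1 : E^[p ^ r] s = E^[p ^ r] t := by
    obtain ⟨n, hn⟩ := Nat.exists_eq_succ_of_ne_zero (pow_pos (Fact.out : p.Prime).pos r).ne'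
    rw [hn, Function.iterate_succ_apply, Function.iterate_succ_apply, hst]
  rw [hE.pow, hE.pow] at h1
  have h2 : cmt s.1 s.2 = cmt t.1 t.2 := by rw [← hE.cm s, hst, hE.cm t]
  rw [h2] at h1
  exact cj2_inj _ h1

theorem iter_cj2 (hcj : ∀ g t, E (cj2 g t) = cj2 g (E t)) (n : ℕ) (g : A) (t : A × A) :
    E^[n] (cj2 g t) = cj2 g (E^[n] t) := by
  induction n generalizing t with
  | zero => rfl
  | succ n ih => rw [Function.iterate_succ_apply, Function.iterate_succ_apply, hcj, ih]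

theorem iter_fix (hcj : ∀ g t, E (cj2 g t) = cj2 g (E t)) {h : A} {t : A × A}
    (ht : E t = cj2 h t) (n : ℕ) : E^[n] t = cj2 (h ^ n) t := by
  induction n with
  | zero => rw [pow_zero, cj2_one]; rfl
  | succ n ih =>
    rw [Function.iterate_succ_apply, ht, iter_cj2 hcj, ih, ← cj2_mul, pow_succ']

theorem fix_pow {g : A} {t : A × A} (hg : cj2 g t = t) (n : ℕ) : cj2 (g ^ n) t = t := by
  induction n with
  | zero => rw [pow_zero, cj2_one]
  | succ n ih => rw [pow_succ, cj2_mul, hg, ih]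

theorem fix_inv {g : A} {t : A × A} (hg : cj2 g t = t) : cj2 g⁻¹ t = t := by
  conv_lhs => rw [← hg]
  rw [← cj2_mul, inv_mul_cancel, cj2_one]

/-- an element `x₀` with `E t = cj2 x₀ t` and `x₀ ^ q = [a, b]` -/
theorem exists_root [Fact p.Prime] [Finite A] {r : ℕ} (hE : IsRq (p ^ r) E)
    (hO : NoP p (⊤ : Subgroup A)) {t : A × A} (ht : Opr p (⊤ : Subgroup A) ≤ gn t) {h : A}
    (hh : E t = cj2 h t) : ∃ x : A, E t = cj2 x t ∧ x ^ p ^ r = cmt t.1 t.2 := by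
  have hp : p.Prime := Fact.out
  obtain ⟨y, hy⟩ : ∃ y, y = cmt t.1 t.2 := ⟨_, rfl⟩
  have h1 : h * y * h⁻¹ = y := by
    have h2 := hE.cm t
    rw [hh, cmt_cj2, ← hy] at h2
    exact h2
  have hcomm : Commute h y := mul_inv_eq_iff_eq_mul.1 h1
  have h2 : cj2 (h ^ p ^ r) t = cj2 y t := by
    rw [← iter_fix hE.cj hh, hE.pow, hy]
  obtain ⟨z, hz⟩ : ∃ z, z = y⁻¹ * h ^ p ^ r := ⟨_, rfl⟩
  have hzt : cj2 z t = t := by
    rw [hz, cj2_mul, h2, ← cj2_mul, inv_mul_cancel, cj2_one]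
  have hzh : Commute h z := by
    rw [hz]
    exact hcomm.inv_right.mul_right ((Commute.refl h).pow_right _)
  have hzi : cj2 z⁻¹ t = t := fix_inv hzt
  have h3 := no_cent2 hO ht hzi
  have h6 : (p ^ r).Coprime (orderOf z⁻¹) :=
    Nat.Coprime.pow_left _ ((Nat.Prime.coprime_iff_not_dvd hp).2 h3)
  obtain ⟨m, hm⟩ := exists_pow_eq_self_of_coprime h6
  refine ⟨h * z⁻¹ ^ m, ?_, ?_⟩
  · rw [cj2_mul, fix_pow hzi, hh]
  · have h7 : Commute h (z⁻¹ ^ m) := hzh.inv_right.pow_right m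
    rw [h7.mul_pow, ← pow_mul, mul_comm m, pow_mul, hm, hz, mul_inv_rev, inv_inv, ← hy,
      mul_inv_cancel_left]

end RqAAux

open RqAAux

theorem nY_mod [Fact p.Prime] [Finite A] {r : ℕ} {E : A × A → A × A} (hE : IsRq (p ^ r) E)
    (hO : NoP p (⊤ : Subgroup A)) {t : A × A} (ht : Opr p (⊤ : Subgroup A) ≤ gn t) {h : A}
    (hh : E t = cj2 h t) : (p : ℤ) ∣ 1 - (nY (p ^ r) E t : ℤ) := by
  classical
  have hp : p.Prime := Fact.out
  have : Fintype A := Fintype.ofFinite A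
  have hEi := E_inj hE
  obtain ⟨x0, hx0t, hx0q⟩ := exists_root hE hO ht hh
  obtain ⟨y, hy⟩ : ∃ y, y = cmt t.1 t.2 := ⟨_, rfl⟩
  rw [← hy] at hx0q
  have hcent : ∀ x : A, E t = cj2 x t → cj2 (x0⁻¹ * x) t = t := by
    intro x hxt
    rw [cj2_mul, ← hxt, hx0t, ← cj2_mul, inv_mul_cancel, cj2_one]
  have hstab : ∀ x : A, E t = cj2 x t ∧ x ^ p ^ r = y →
      E t = cj2 (x0 * x * x0⁻¹) t ∧ (x0 * x * x0⁻¹) ^ p ^ r = y := by
    rintro x ⟨hxt, hx⟩
    refine ⟨?_, ?_⟩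
    · have hc := hcent x hxt
      have hs : E (cj2 x0⁻¹ t) = t := by
        rw [hE.cj, hx0t, ← cj2_mul, inv_mul_cancel, cj2_one]
      have hcs : cj2 (x0⁻¹ * x) (cj2 x0⁻¹ t) = cj2 x0⁻¹ t := by
        apply hEi
        rw [hE.cj, hs, hc]
      have e1 : x0 * x * x0⁻¹ = x0 * (x0 * (x0⁻¹ * x) * x0⁻¹) := by group
      rw [e1, cj2_mul, cj2_mul (x0 * (x0⁻¹ * x)), cj2_mul x0 (x0⁻¹ * x), hcs, ← cj2_mul x0 x0⁻¹,
        mul_inv_cancel, cj2_one, hx0t]
    · rw [conj_pow, hx, ← hx0q, ← pow_succ', pow_succ, mul_inv_cancel_right]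
  let S := {x : A // E t = cj2 x t ∧ x ^ p ^ r = y}
  let f : Function.End S := fun s => ⟨x0 * s.1 * x0⁻¹, hstab s.1 s.2⟩
  have hf1 : ∀ (n : ℕ) (s : S), ((f ^ n) s : A) = x0 ^ n * s.1 * (x0 ^ n)⁻¹ := by
    intro n
    induction n with
    | zero =>
      intro s
      rw [pow_zero, pow_zero, one_mul, inv_one, mul_one]
      rfl
    | succ n ih =>
      intro s
      have h6 : (f ^ (n + 1)) s = f ((f ^ n) s) := by rw [pow_succ']; rfl
      rw [h6]
      change x0 * ((f ^ n) s : A) * x0⁻¹ = _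
      rw [ih, pow_succ']
      group
  have hf : f ^ p ^ r = 1 := by
    funext s
    apply Subtype.ext
    rw [hf1, hx0q]
    change y * (s : A) * y⁻¹ = (s : A)
    obtain ⟨x, hx1, hx2⟩ := s
    change y * x * y⁻¹ = x
    have h9 : y * x = x * y := by rw [← hx2, ← pow_succ, ← pow_succ']
    rw [h9, mul_inv_cancel_right]
  have h6 := Equiv.Perm.card_fixedPoints_modEq hf
  have h7 : Fintype.card (Function.fixedPoints f) = 1 := by
    rw [Fintype.card_eq_one_iff]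
    have hx0S : E t = cj2 x0 t ∧ x0 ^ p ^ r = y := ⟨hx0t, hx0q⟩
    refine ⟨⟨⟨x0, hx0S⟩, ?_⟩, ?_⟩
    · apply Subtype.ext
      change x0 * x0 * x0⁻¹ = x0
      group
    · rintro ⟨⟨x, hxt, hx⟩, hfx⟩
      have h8 : x0 * x * x0⁻¹ = x := congrArg Subtype.val hfx
      have h9 : Commute x0 x := mul_inv_eq_iff_eq_mul.1 h8
      have h10 := no_cent2 hO ht (hcent x hxt)
      have h11 : (x0⁻¹ * x) ^ p ^ r = 1 := by
        rw [h9.inv_left.mul_pow, inv_pow, hx0q, hx, inv_mul_cancel]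
      have h12 : orderOf (x0⁻¹ * x) = 1 := by
        have h13 : Nat.Coprime (orderOf (x0⁻¹ * x)) (p ^ r) :=
          Nat.Coprime.pow_right _ ((Nat.Prime.coprime_iff_not_dvd hp).2 h10).symm
        exact Nat.dvd_one.1 (h13 ▸ Nat.dvd_gcd dvd_rfl (orderOf_dvd_of_pow_eq_one h11))
      rw [orderOf_eq_one_iff] at h12
      apply Subtype.ext
      apply Subtype.ext
      exact (inv_mul_eq_one.1 h12).symm
  rw [h7] at h6
  have h8 : nY (p ^ r) E t = Fintype.card S := by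
    unfold nY
    rw [Nat.card_eq_fintype_card]
    refine Fintype.card_congr (Equiv.subtypeEquivRight fun x => ?_)
    rw [hy]
  rw [h8]
  exact (Nat.modEq_iff_dvd).1 h6

end Pool.Agent.Lib.P0c8ca5.Bx
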