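import Mathlib
import Pool.Agent.Lib.P0c8ca5V.RotP
import Pool.Agent.Lib.P0c8ca5Bw.RotP
import Pool.Agent.Lib.P0c8ca5Bx.RqA

/-!
# RqC: rotations and orbits

PROOF. `rotq_congr`: as `rot_congr` (P0c8ca5V.RotP / P0c8ca5Bw.RotP): the group `A × zpowers E` (`E` as a permutation: it is injective because `E^[q]` is) acts on the pairs; the function
`F t = (if Opr p ⊤ ≤ gn t then f (cmt t.1 t.2)⁻¹ else 0) * (1 - nY t)` is invariant (`hf`, `hE.cm`, `hE.gen`, `hE.cj`; `nY (E t) = nY t`, `nY (cj2 g t) = nY t`); for every `t` with `F t ≠ 0`: the p-part of the stabilizer injects to `zpowers E` (kernel without p-elements: `no_cent2`);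
if `t` is not of the form `E t = cj2 h t` then the p-part of the image is smaller than that of `zpowers E` (if `E ^ n' t = cj2 g t` with `n'` prime to `p`, combine with `E^[q] t = cj2 y t`, `E^[q]^[i] t = cj2 (y ^ i) t`); otherwise `p ∣ 1 - nY t`.
Copy the structure of the proof there.
-/

namespace Pool.Agent.Lib.P0c8ca5.Bx

variable {p : ℕ} {A : Type*} [Group A]

namespace RqCAux

variable {E : A × A → A × A}

theorem cj2_one (t : A × A) : cj2 1 t = t := by
  simp [cj2]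

theorem cj2_mul (g h : A) (t : A × A) : cj2 (g * h) t = cj2 g (cj2 h t) := by
  simp [cj2, mul_assoc]

theorem cmt_cj2 (g : A) (t : A × A) :
    cmt (cj2 g t).1 (cj2 g t).2 = g * cmt t.1 t.2 * g⁻¹ := by
  unfold cmt cj2
  group

/-- conjugation by `g` as a permutation -/
def cjP2 (g : A) : Equiv.Perm (A × A) where
  toFun := cj2 g
  invFun := cj2 g⁻¹
  left_inv t := by rw [← cj2_mul, inv_mul_cancel, cj2_one]
  right_inv t := by rw [← cj2_mul, mul_inv_cancel, cj2_one]

/-- conjugation as a homomorphism -/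
def cjH2 : A →* Equiv.Perm (A × A) where
  toFun := cjP2
  map_one' := Equiv.ext cj2_one
  map_mul' g h := Equiv.ext (cj2_mul g h)

theorem gn_cj2 (g : A) (t : A × A) :
    gn (cj2 g t) = (gn t).map (MulAut.conj g).toMonoidHom := by
  unfold gn cj2
  rw [MonoidHom.map_closure, Set.image_insert_eq, Set.image_singleton]
  rfl

theorem opr_gn_cj2 (g : A) (t : A × A) :
    Opr p (⊤ : Subgroup A) ≤ gn (cj2 g t) ↔ Opr p (⊤ : Subgroup A) ≤ gn t := by
  rw [gn_cj2]
  conv_lhs => rw [← RotAux.map_Opr_top (p := p) g]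
  exact Subgroup.map_le_map_iff_of_injective (MulAut.conj g).injective

theorem E_inj {q : ℕ} (hq : 0 < q) (hE : IsRq q E) : Function.Injective E := by
  intro s t hst
  have h1 : E^[q] s = E^[q] t := by
    obtain ⟨n, hn⟩ := Nat.exists_eq_succ_of_ne_zero hq.ne'
    rw [hn, Function.iterate_succ_apply, Function.iterate_succ_apply, hst]
  rw [hE.pow, hE.pow] at h1
  have h2 : cmt s.1 s.2 = cmt t.1 t.2 := by rw [← hE.cm s, hst, hE.cm t]
  rw [h2] at h1
  exact (cjP2 (cmt t.1 t.2)).injective h1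

theorem nY_E {q : ℕ} (hq : 0 < q) (hE : IsRq q E) (t : A × A) :
    nY q E (E t) = nY q E t := by
  unfold nY
  refine Nat.card_congr (Equiv.subtypeEquivRight fun x => ?_)
  rw [hE.cm]
  refine and_congr ?_ Iff.rfl
  rw [← hE.cj]
  exact ⟨fun h => E_inj hq hE h, fun h => congrArg E h⟩

theorem nY_cj2 {q : ℕ} (hE : IsRq q E) (g : A) (t : A × A) :
    nY q E (cj2 g t) = nY q E t := by
  unfold nY
  refine (Nat.card_congr (Equiv.subtypeEquiv (MulAut.conj g).toEquiv fun x => ?_)).symm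
  change _ ↔ E (cj2 g t) = cj2 (g * x * g⁻¹) (cj2 g t) ∧
    (g * x * g⁻¹) ^ q = cmt (cj2 g t).1 (cj2 g t).2
  rw [hE.cj, ← cj2_mul, cmt_cj2, conj_pow]
  have h1 : g * x * g⁻¹ * g = g * x := by group
  rw [h1, cj2_mul]
  refine and_congr ⟨fun h => congrArg _ h, fun h => (cjP2 g).injective h⟩ ?_
  constructor
  · intro h
    rw [h]
  · intro h
    exact mul_left_cancel (mul_right_cancel h)

open Classical in
/-- the weight of a pair -/
noncomputable def wQ (p : ℕ) (f : A → ℤ) (t : A × A) : ℤ :=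
  if Opr p (⊤ : Subgroup A) ≤ gn t then f (cmt t.1 t.2)⁻¹ else 0

theorem wQ_E {q : ℕ} (hE : IsRq q E) (f : A → ℤ) (t : A × A) :
    wQ p f (E t) = wQ p f t := by
  unfold wQ
  rw [hE.gen, hE.cm]

theorem wQ_cj2 {f : A → ℤ} (hf : CF f) (g : A) (t : A × A) :
    wQ p f (cj2 g t) = wQ p f t := by
  classical
  have h3 : f (cmt (cj2 g t).1 (cj2 g t).2)⁻¹ = f (cmt t.1 t.2)⁻¹ := by
    rw [cmt_cj2]
    have h4 : (g * cmt t.1 t.2 * g⁻¹)⁻¹ = g * (cmt t.1 t.2)⁻¹ * g⁻¹ := by group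
    rw [h4, hf]
  unfold wQ
  rw [h3]
  exact if_congr (opr_gn_cj2 g t) rfl rfl

end RqCAux

open Classical in
theorem rotq_congr [Fact p.Prime] [Finite A] {r : ℕ} {E : A × A → A × A} (hE : IsRq (p ^ r) E)
    (hO : NoP p (⊤ : Subgroup A)) {f : A → ℤ} (hf : CF f) :
    (p : ℤ) * (ordProj[p] (Nat.card A) : ℕ) ∣ bQ p (⊤ : Subgroup A) f -
      ∑ᶠ t : A × A, (if Opr p (⊤ : Subgroup A) ≤ gn t then f (cmt t.1 t.2)⁻¹ else 0)
        * (nY (p ^ r) E t : ℤ) := by
  classical
  have hp : p.Prime := Fact.out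
  have : Fintype A := Fintype.ofFinite A
  have hq0 : 0 < p ^ r := pow_pos hp.pos r
  have hinj := RqCAux.E_inj hq0 hE
  let F : Equiv.Perm (A × A) := Equiv.ofBijective E (Finite.injective_iff_bijective.1 hinj)
  have hFE : ∀ t, F t = E t := fun t => rfl
  let C : Subgroup (Equiv.Perm (A × A)) := Subgroup.zpowers F
  have hcomm : ∀ (g : A) (c : ↥C), Commute (RqCAux.cjH2 g) (C.subtype c) := by
    rintro g ⟨c, k, rfl⟩
    refine Commute.zpow_right ?_ k
    exact Equiv.ext fun t => (hE.cj g t).symm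
  let Ψ : A × ↥C →* Equiv.Perm (A × A) := MonoidHom.noncommCoprod RqCAux.cjH2 C.subtype hcomm
  let _ : MulAction (A × ↥C) (A × A) := MulAction.compHom _ Ψ
  have hsm : ∀ (g : A) (c : ↥C) (t : A × A),
      ((g, c) : A × ↥C) • t = cj2 g ((c : Equiv.Perm (A × A)) t) := fun _ _ _ => rfl
  have hwF : ∀ (k : ℤ) (t : A × A), RqCAux.wQ p f ((F ^ k) t) = RqCAux.wQ p f t := by
    have h1 : ∀ (n : ℕ) (t : A × A), RqCAux.wQ p f ((F ^ n) t) = RqCAux.wQ p f t := by
      intro n
      induction n with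
      | zero => intro t; rfl
      | succ n ih =>
        intro t
        rw [pow_succ, Equiv.Perm.mul_apply, ih, hFE, RqCAux.wQ_E hE]
    intro k t
    obtain ⟨n, rfl | rfl⟩ := k.eq_nat_or_neg
    · rw [zpow_natCast, h1]
    · rw [← h1 n ((F ^ (-(n : ℤ))) t), ← Equiv.Perm.mul_apply, zpow_neg, zpow_natCast,
        mul_inv_cancel]
      rfl
  have hnF : ∀ (k : ℤ) (t : A × A), nY (p ^ r) E ((F ^ k) t) = nY (p ^ r) E t := by
    have h1 : ∀ (n : ℕ) (t : A × A), nY (p ^ r) E ((F ^ n) t) = nY (p ^ r) E t := by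
      intro n
      induction n with
      | zero => intro t; rfl
      | succ n ih =>
        intro t
        rw [pow_succ, Equiv.Perm.mul_apply, ih, hFE, RqCAux.nY_E hq0 hE]
    intro k t
    obtain ⟨n, rfl | rfl⟩ := k.eq_nat_or_neg
    · rw [zpow_natCast, h1]
    · rw [← h1 n ((F ^ (-(n : ℤ))) t), ← Equiv.Perm.mul_apply, zpow_neg, zpow_natCast,
        mul_inv_cancel]
      rfl
  have key := orb_dvd_p (p := p) (T := A × ↥C) (X := A × A)
    (fun t => ((ordProj[p] (Nat.card C) : ℕ) : ℤ) *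
      (RqCAux.wQ p f t * (1 - (nY (p ^ r) E t : ℤ)))) ?_ (p : ℤ) ?_
  · rw [← Finset.mul_sum, Nat.card_prod, Nat.ordProj_mul p Nat.card_pos.ne' Nat.card_pos.ne'] at key
    have h1 : (((ordProj[p] (Nat.card C) : ℕ) : ℤ)) ≠ 0 := by
      exact_mod_cast (Nat.ordProj_pos (Nat.card C) p).ne'
    have h2 : (p : ℤ) * ((ordProj[p] (Nat.card A) * ordProj[p] (Nat.card C) : ℕ) : ℤ)
        = ((ordProj[p] (Nat.card C) : ℕ) : ℤ) * ((p : ℤ) * (ordProj[p] (Nat.card A) : ℕ)) := by
      push_cast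
      ring
    rw [h2] at key
    have h3 := (mul_dvd_mul_iff_left h1).1 key
    have h4 : bQ p (⊤ : Subgroup A) f -
        ∑ᶠ t : A × A, (if Opr p (⊤ : Subgroup A) ≤ gn t then f (cmt t.1 t.2)⁻¹ else 0)
          * (nY (p ^ r) E t : ℤ)
        = ∑ t : A × A, RqCAux.wQ p f t * (1 - (nY (p ^ r) E t : ℤ)) := by
      unfold bQ
      rw [finsum_eq_sum_of_fintype, finsum_eq_sum_of_fintype, ← Finset.sum_sub_distrib]
      refine Finset.sum_congr rfl fun t _ => ?_
      unfold RqCAux.wQ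
      by_cases h5 : Opr p (⊤ : Subgroup A) ≤ gn t
      · rw [if_pos ⟨le_top, h5⟩, if_pos h5]
        ring
      · rw [if_neg (fun h6 => h5 h6.2), if_neg h5]
        ring
    rw [h4]
    exact h3
  · rintro ⟨g, c, k, rfl⟩ t
    simp only [hsm]
    rw [RqCAux.wQ_cj2 hf, hwF, RqCAux.nY_cj2 hE, hnF]
  · intro t
    by_cases hw : Opr p (⊤ : Subgroup A) ≤ gn t
    swap
    · have hw0 : RqCAux.wQ p f t = 0 := if_neg hw
      simp only [hw0, zero_mul, mul_zero]
      exact dvd_zero _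
    let St : Subgroup (A × ↥C) := MulAction.stabilizer (A × ↥C) t
    let π : ↥St →* ↥C := (MonoidHom.snd A ↥C).comp St.subtype
    have hπ : ∀ s : ↥St, π s = (s : A × ↥C).2 := fun s => rfl
    have hker : ¬ p ∣ Nat.card π.ker := by
      intro h1
      obtain ⟨s, hs⟩ := exists_prime_orderOf_dvd_card' p h1
      have h2 : ((s : ↥St) : A × ↥C).2 = 1 := s.2
      have h3 : (((s : ↥St) : A × ↥C)) • t = t := (s : ↥St).2
      have h4 : cj2 ((s : ↥St) : A × ↥C).1 t = t := by
        have h5 := hsm ((s : ↥St) : A × ↥C).1 ((s : ↥St) : A × ↥C).2 t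
        rw [h2] at h5
        rw [← Prod.mk.eta (p := ((s : ↥St) : A × ↥C)), h2] at h3
        exact h5.symm.trans h3
      refine no_cent2 hO hw h4 ?_
      have h5 : ((s : ↥St) : A × ↥C).1 ^ p = 1 := by
        have h6 : s ^ p = 1 := by rw [← hs]; exact pow_orderOf_eq_one s
        have h7 := congrArg (fun s : ↥π.ker => ((s : ↥St) : A × ↥C).1) h6
        simpa using h7
      have h6 : ((s : ↥St) : A × ↥C).1 ≠ 1 := by
        intro h7
        have h8 : s = 1 := Subtype.ext (Subtype.ext (Prod.ext h7 h2))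
        rw [h8, orderOf_one] at hs
        exact hp.one_lt.ne hs
      rw [orderOf_eq_prime h5 h6]
    let E0 : ↥C := ⟨F, Subgroup.mem_zpowers F⟩
    have hcm : ∀ a b : ↥C, a * b = b * a := by
      rintro ⟨a, i, rfl⟩ ⟨b, j, rfl⟩
      apply Subtype.ext
      exact zpow_mul_comm F i j
    have hN : π.range.Normal := ⟨fun n hn g => by
      rw [hcm g n, mul_inv_cancel_right]
      exact hn⟩
    have h1 : Nat.card ↥St = Nat.card π.ker * Nat.card π.range := by
      rw [← Subgroup.index_ker, Subgroup.card_mul_index]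
    by_cases hfix : ∃ h : A, E t = cj2 h t
    · obtain ⟨h, hh⟩ := hfix
      obtain ⟨q, hq⟩ := nY_mod hE hO hw hh
      have h2 := RotPAux.arith' hp h1 hker π.range.index_ne_zero_of_finite Nat.card_pos.ne'
      rw [Subgroup.card_mul_index] at h2
      obtain ⟨i, hi⟩ := h2
      refine ⟨(i : ℤ) * (RqCAux.wQ p f t * q), ?_⟩
      rw [hq, hi]
      push_cast
      ring
    refine Dvd.dvd.mul_right ?_ _
    have hidx : p ∣ π.range.index := by
      have h1 : E0 ^ p ^ r ∈ π.range := by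
        refine ⟨⟨((cmt t.1 t.2)⁻¹, E0 ^ p ^ r), ?_⟩, rfl⟩
        change cj2 (cmt t.1 t.2)⁻¹ ((F ^ p ^ r) t) = t
        rw [← Equiv.Perm.iterate_eq_pow]
        change cj2 (cmt t.1 t.2)⁻¹ (E^[p ^ r] t) = t
        rw [hE.pow, ← RqCAux.cj2_mul, inv_mul_cancel, RqCAux.cj2_one]
      have h2 : E0 ∉ π.range := by
        rintro ⟨s, hs⟩
        rw [hπ] at hs
        have h3 : ((s : A × ↥C)) • t = t := s.2
        have h4 := hsm (s : A × ↥C).1 (s : A × ↥C).2 t
        rw [Prod.mk.eta, h3, hs] at h4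
        have h5 : t = cj2 (s : A × ↥C).1 (E t) := h4
        refine hfix ⟨((s : A × ↥C).1)⁻¹, ?_⟩
        conv_rhs => rw [h5]
        rw [← RqCAux.cj2_mul, inv_mul_cancel, RqCAux.cj2_one]
      have h3 : (QuotientGroup.mk E0 : ↥C ⧸ π.range) ^ p ^ r = 1 := by
        rw [← QuotientGroup.mk_pow, QuotientGroup.eq_one_iff]
        exact h1
      obtain ⟨j, _, hj⟩ := (Nat.dvd_prime_pow hp).1 (orderOf_dvd_of_pow_eq_one h3)
      have h4 : j ≠ 0 := by
        rintro rfl
        rw [pow_zero, orderOf_eq_one_iff, QuotientGroup.eq_one_iff] at hj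
        exact h2 hj
      have h5 : p ∣ orderOf (QuotientGroup.mk E0 : ↥C ⧸ π.range) := by
        rw [hj]
        exact dvd_pow_self p h4
      exact h5.trans (orderOf_dvd_natCard _)
    have h2 := RotAux.arith hp h1 hker hidx Nat.card_pos.ne' π.range.index_ne_zero_of_finite
    rw [Subgroup.card_mul_index] at h2
    exact_mod_cast h2

end Pool.Agent.Lib.P0c8ca5.Bx
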