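import Mathlib
import Pool.Agent.Lib.P0c8ca5V.ParX
import Pool.Agent.Lib.P0c8ca5Bx.RqC

/-!
# RqB: the fixed orbits in terms of pairs `(x, z)`

PROOF. `opr_iff2`: let `K = gn (T x z)`, `L = closure {x, z}`. `K ≤ L` (`hT.le`). `x` normalizes `K`: `cj2 x (T x z) = E (T x z)` (`hT.fix`) generates `K` (`hE.gen`). `x ^ q = cmt .. ∈ K` (`hT.cm`). `z ∈ x ^ (-i) K` (`hT.zz`). So `L = {x ^ j k}` and `L / K` is generated by
the image of `x`, of order dividing `q = p ^ r`: every `g ∈ L` has `g ^ (p ^ r) ∈ K`, and a p-regular element `g ∈ L` is a power of `g ^ (p ^ r)`, so it is in `K`. So `Opr p ⊤ = closure {g | Preg p g} ≤ L` implies `≤ K`.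
(See `opr_iff` in P0c8ca5V.Par.)
`parq_sum`: as `par_sum` (P0c8ca5V.ParX / P0c8ca5Bw.Par): `nY q E t = ∑ x, if E t = cj2 x t ∧ x ^ q = cmt t.1 t.2 then 1 else 0`; exchange the sums; for fixed `x` the `t` are the `T x z` with `z ^ q = 1`, `(x z) ^ s = 1` (`hT.fix`, `hT.cm`, `hT.surj`, `hT.inj`).
-/

namespace Pool.Agent.Lib.P0c8ca5.Bx

variable {p : ℕ} {A : Type*} [Group A]

open ParAux

namespace RqBAux

theorem gn_cj2 (g : A) (t : A × A) : gn (cj2 g t) = (gn t).map (MulAut.conj g).toMonoidHom := by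
  unfold gn cj2
  rw [MonoidHom.map_closure, Set.image_pair]
  rfl

theorem norm_gn {q : ℕ} {E : A × A → A × A} (hE : IsRq q E) {t : A × A} {x : A}
    (h : E t = cj2 x t) : x ∈ Subgroup.normalizer (gn t : Set A) := by
  have h1 : (gn t).map (MulAut.conj x).toMonoidHom = gn t := by
    rw [← gn_cj2, ← h, hE.gen]
  rw [Subgroup.mem_normalizer_iff]
  intro y
  constructor
  · intro hy
    rw [← h1]
    exact ⟨y, hy, rfl⟩
  · intro hy
    rw [← h1] at hy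
    obtain ⟨y', hy', h2⟩ := hy
    have h3 : x * y' * x⁻¹ = x * y * x⁻¹ := h2
    have h4 : y' = y := by simpa using h3
    rw [← h4]
    exact hy'

theorem cmt_mem (t : A × A) : cmt t.1 t.2 ∈ gn t := by
  have h1 : t.1 ∈ gn t := Subgroup.subset_closure (Or.inl rfl)
  have h2 : t.2 ∈ gn t := Subgroup.subset_closure (Or.inr rfl)
  unfold cmt
  exact mul_mem (mul_mem (mul_mem h1 h2) (inv_mem h1)) (inv_mem h2)

end RqBAux

open RqBAux

theorem opr_iff2 [Fact p.Prime] [Finite A] {r s : ℕ} {E : A × A → A × A} {T : A → A → A × A}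
    (hE : IsRq (p ^ r) E) (hT : IsPq (p ^ r) s E T) {x z : A} (hz : z ^ p ^ r = 1)
    (hxz : (x * z) ^ s = 1) :
    Opr p (⊤ : Subgroup A) ≤ gn (T x z) ↔ Opr p (⊤ : Subgroup A) ≤ Subgroup.closure {x, z} := by
  refine ⟨fun h => h.trans (hT.le x z), fun h => ?_⟩
  have hn := norm_gn hE (hT.fix x z hz hxz)
  have h1 : Subgroup.closure {x, z} ≤ ext (gn (T x z)) x hn := by
    rw [Subgroup.closure_le]
    rintro y (rfl | rfl)
    · exact ⟨-1, by simp⟩
    · obtain ⟨i, hi⟩ := hT.zz x y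
      refine ⟨i, ?_⟩
      have h2 : x ^ (-i) * (x ^ i * y) * (x ^ (-i))⁻¹ ∈ gn (T x y) :=
        (Subgroup.mem_normalizer_iff.1 (zpow_mem hn _) _).1 hi
      have h3 : y * x ^ i = x ^ (-i) * (x ^ i * y) * (x ^ (-i))⁻¹ := by
        rw [zpow_neg]
        group
      rw [h3]
      exact h2
  have h2 : Opr p (⊤ : Subgroup A) = Subgroup.closure {y | y ∈ (⊤ : Subgroup A) ∧ Preg p y} := rfl
  rw [h2, Subgroup.closure_le]
  rintro y ⟨_, hy⟩
  have h3 : y ∈ Opr p (⊤ : Subgroup A) := Subgroup.subset_closure ⟨Subgroup.mem_top y, hy⟩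
  obtain ⟨i, hi⟩ := h1 (h h3)
  have h4 := pow_mem_of hn hi (p ^ r)
  have h5 : x ^ (i * ((p ^ r : ℕ) : ℤ)) ∈ gn (T x z) := by
    rw [mul_comm, zpow_mul, zpow_natCast, ← hT.cm x z hz hxz]
    exact zpow_mem (cmt_mem _) _
  have h6 : y ^ p ^ r ∈ gn (T x z) := by
    have h7 := mul_mem h4 (inv_mem h5)
    rwa [mul_inv_cancel_right] at h7
  exact mem_of_preg hy h6

open Classical in
theorem parq_sum [Fact p.Prime] [Finite A] {r s : ℕ} {E : A × A → A × A} {T : A → A → A × A}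
    (hE : IsRq (p ^ r) E) (hT : IsPq (p ^ r) s E T) (f : A → ℤ) :
    ∑ᶠ t : A × A, (if Opr p (⊤ : Subgroup A) ≤ gn t then f (cmt t.1 t.2)⁻¹ else 0)
        * (nY (p ^ r) E t : ℤ) = wX p (p ^ r) s (fun x => f (x ^ p ^ r)⁻¹) := by
  have : Fintype A := Fintype.ofFinite A
  unfold wX
  rw [finsum_eq_sum_of_fintype, finsum_eq_sum_of_fintype]
  have h1 : ∀ t : A × A, (if Opr p (⊤ : Subgroup A) ≤ gn t then f (cmt t.1 t.2)⁻¹ else 0)
        * (nY (p ^ r) E t : ℤ)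
      = ∑ x : A, if E t = cj2 x t ∧ x ^ p ^ r = cmt t.1 t.2 then
        (if Opr p (⊤ : Subgroup A) ≤ gn t then f (cmt t.1 t.2)⁻¹ else 0) else 0 := by
    intro t
    rw [← Finset.sum_filter, Finset.sum_const, nsmul_eq_mul, mul_comm]
    congr 2
    unfold nY
    rw [Nat.card_eq_fintype_card, Fintype.card_subtype]
  rw [Finset.sum_congr rfl (fun t _ => h1 t), Finset.sum_comm, Fintype.sum_prod_type]
  refine Finset.sum_congr rfl fun x _ => ?_
  set F : A × A → ℤ := fun t => if E t = cj2 x t ∧ x ^ p ^ r = cmt t.1 t.2 then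
        (if Opr p (⊤ : Subgroup A) ≤ gn t then f (cmt t.1 t.2)⁻¹ else 0) else 0 with hF
  have h2 : ∀ z : A, (if z ^ p ^ r = 1 ∧ (x * z) ^ s = 1 ∧
      Opr p (⊤ : Subgroup A) ≤ gn (x, z) then f (x ^ p ^ r)⁻¹ else 0)
      = if z ^ p ^ r = 1 ∧ (x * z) ^ s = 1 then F (T x z) else 0 := by
    intro z
    by_cases hz : z ^ p ^ r = 1 ∧ (x * z) ^ s = 1
    · have h4 := opr_iff2 hE hT hz.1 hz.2
      have h5 : gn (x, z) = Subgroup.closure {x, z} := rfl
      rw [if_pos hz]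
      simp only [hF]
      rw [if_pos (show E (T x z) = cj2 x (T x z) ∧ x ^ p ^ r = cmt (T x z).1 (T x z).2 from
        ⟨hT.fix x z hz.1 hz.2, (hT.cm x z hz.1 hz.2).symm⟩), hT.cm x z hz.1 hz.2, h5]
      by_cases h6 : Opr p (⊤ : Subgroup A) ≤ Subgroup.closure {x, z}
      · rw [if_pos ⟨hz.1, hz.2, h6⟩, if_pos (h4.2 h6)]
      · rw [if_neg (fun h => h6 h.2.2), if_neg (fun h => h6 (h4.1 h))]
    · rw [if_neg hz, if_neg (fun h => hz ⟨h.1, h.2.1⟩)]
  have h7 : ∑ z : A, (if z ^ p ^ r = 1 ∧ (x * z) ^ s = 1 then F (T x z) else 0)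
      = ∑ z ∈ Finset.univ.filter (fun z : A => z ^ p ^ r = 1 ∧ (x * z) ^ s = 1), F (T x z) :=
    (Finset.sum_filter _ _).symm
  have h8 : ∑ z ∈ Finset.univ.filter (fun z : A => z ^ p ^ r = 1 ∧ (x * z) ^ s = 1), F (T x z)
      = ∑ t ∈ (Finset.univ.filter (fun z : A => z ^ p ^ r = 1 ∧ (x * z) ^ s = 1)).image
        (fun z => T x z), F t :=
    (Finset.sum_image (fun z _ z' _ h => hT.inj x z z' h)).symm
  refine Eq.trans ?_ (Finset.sum_congr rfl (fun z _ => h2 z)).symm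
  rw [h7, h8]
  symm
  refine Finset.sum_subset (Finset.subset_univ _) fun t _ ht => ?_
  by_contra h3
  have h4 : E t = cj2 x t ∧ x ^ p ^ r = cmt t.1 t.2 := by
    by_contra h5
    exact h3 (if_neg h5)
  obtain ⟨z, hz, hz2, hz'⟩ := hT.surj x t h4.1 h4.2.symm
  exact ht (Finset.mem_image.2 ⟨z, Finset.mem_filter.2 ⟨Finset.mem_univ z, hz, hz2⟩, hz'.symm⟩)

theorem bQ_congr [Fact p.Prime] [Finite A] {r s : ℕ} {E : A × A → A × A} {T : A → A → A × A}
    (hE : IsRq (p ^ r) E) (hT : IsPq (p ^ r) s E T) (hO : NoP p (⊤ : Subgroup A)) {f : A → ℤ}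
    (hf : CF f) :
    (p : ℤ) * (ordProj[p] (Nat.card A) : ℕ) ∣
      bQ p (⊤ : Subgroup A) f - wX p (p ^ r) s (fun x => f (x ^ p ^ r)⁻¹) := by
  rw [← parq_sum hE hT f]
  exact rotq_congr hE hO hf

end Pool.Agent.Lib.P0c8ca5.Bx
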