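import Mathlib
import Pool.Agent.Lib.P0c8ca5V.Main
import Pool.Agent.Lib.P0c8ca5V.Loc
import Pool.Agent.Lib.P0c8ca5O.Main
import Pool.Agent.Lib.P0c8ca5Bw.Inv
import Pool.Agent.Lib.P0c8ca5Bx.PC
import Pool.Agent.Lib.P0c8ca5Bx.Rq
import Pool.Agent.Lib.P0c8ca5Bx.RqB
import Pool.Agent.Lib.P0c8ca5Bx.Gal
import Pool.Agent.Lib.P0c8ca5Bx.Re
import Pool.Agent.Lib.P0c8ca5Bx.ClsB
import Pool.Agent.Lib.P0c8ca5Bx.ClsC

/-!
# The blockwise weight conjecture and pairs of elements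

`baw_iff_pairs`: all primes, pairs `(a, b)` by the p'-part of the commutator.
`baw_iff_rot`: if there is a rotation of order `q = p ^ r`: pairs `(v, w)` with `v ^ s = w ^ q = 1`
by the product `v w`. `baw_iff_maps`: `p = 2`, regular maps of type `{4, n}`.
-/

namespace Pool.Agent.Lib.P0c8ca5.Bx

open MonoidAlgebra TFinAux

universe u v

section
variable {p : ℕ} [Fact p.Prime] {A : Type u} [Group A] [Finite A]

theorem full_of {x : ℤ} (h1 : (p : ℤ) * (ordProj[p] (Nat.card A) : ℕ) ∣ x)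
    (h2 : (Nat.card A : ℤ) ∣ x) : (p : ℤ) * (Nat.card A : ℤ) ∣ x := by
  have h3 : ((ordCompl[p] (Nat.card A) : ℕ) : ℤ) ∣ x :=
    dvd_trans (by exact_mod_cast Nat.ordCompl_dvd (Nat.card A) p) h2
  have h4 : IsCoprime ((p : ℤ) * (ordProj[p] (Nat.card A) : ℕ))
      ((ordCompl[p] (Nat.card A) : ℕ) : ℤ) := by
    have h5 : Nat.Coprime (p * ordProj[p] (Nat.card A)) (ordCompl[p] (Nat.card A)) := by
      have h6 := Nat.coprime_ordCompl (Fact.out : p.Prime) (Nat.card_pos (α := A)).ne'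
      rw [Nat.coprime_mul_iff_left]
      exact ⟨h6, h6.pow_left _⟩
    have := h5.isCoprime
    exact_mod_cast this
  have h7 := h4.mul_dvd h1 h3
  have h8 : (p : ℤ) * (ordProj[p] (Nat.card A) : ℕ) * ((ordCompl[p] (Nat.card A) : ℕ) : ℤ)
      = (p : ℤ) * (Nat.card A : ℤ) := by
    rw [mul_assoc]
    congr 1
    exact_mod_cast Nat.ordProj_mul_ordCompl_eq_self (Nat.card A) p
  rwa [h8] at h7

/-- triples and pairs -/
theorem eA_iff {m : A → ℤ} (hm : IsWt p ⊤ m) :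
    (p : ℤ) * (Nat.card A : ℤ) ∣ eA p m - eE p m ↔
      (p : ℤ) * (Nat.card A : ℤ) ∣ eE p (sf p m) := by
  have h1 := eA_pf hm
  rw [← eE_sub hm]
  have e : eA p m - eE p m = (eA p m - eE p (pf p m)) + (eE p (pf p m) - eE p m) := by ring
  rw [e]
  exact dvd_add_right h1

/-- one group -/
theorem eA_of_bQ {m : A → ℤ} (hm : IsWt p ⊤ m)
    (h : ∀ U : Subgroup A, NoP p U →
      (p : ℤ) * (ordProj[p] (Nat.card U) : ℕ) ∣ bQ p U (sf p m)) :
    (p : ℤ) * (Nat.card A : ℤ) ∣ eA p m - eE p m := by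
  rw [eA_iff hm]
  have hcf : CF (sf p m) := CF_sf (CF_of_wt hm)
  exact full_of (eE_of_bQ hcf h) (eE_dvd_cf hcf)

end

section
variable {p : ℕ} [Fact p.Prime] {A : Type*} [Group A] [Finite A]

theorem pr_pow (x : A) (j : ℕ) : pr p (x ^ j) = (pr p x) ^ j := by
  unfold pr
  rw [← pow_mul, ← pow_mul, mul_comm]

theorem pr_inv (x : A) : pr p x⁻¹ = (pr p x)⁻¹ := by
  unfold pr
  rw [inv_pow]

theorem preg_inv (x : A) : Preg p x⁻¹ ↔ Preg p x := by
  unfold Preg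
  rw [orderOf_inv]

theorem preg_pow_iff {j : ℕ} (hj : (Nat.card A).Coprime j) (x : A) :
    Preg p (x ^ j) ↔ Preg p x := by
  unfold Preg
  have h : (orderOf x).Coprime j := hj.coprime_dvd_left (orderOf_dvd_natCard x)
  rw [h.orderOf_pow]

theorem pr_galJ {j : ℕ} (hj : GalJ p A j) (x : A) : pr p (x ^ j) = pr p x := by
  rw [pr_pow]
  conv_rhs => rw [← pow_one (pr p x)]
  rw [pow_eq_pow_iff_modEq]
  exact hj.2.of_dvd (orderOf_dvd_ordCompl (preg_pr x))

theorem sf_galJ {m : A → ℤ} {j : ℕ} (hj : GalJ p A j) (x : A) :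
    sf p m ((x ^ j)⁻¹) = sf p m x⁻¹ := by
  classical
  unfold sf
  rw [pr_inv, pr_inv, pr_galJ hj]
  refine if_congr ?_ rfl rfl
  rw [preg_inv, preg_inv, preg_pow_iff hj.1]

theorem sf_inv {m : A → ℤ} (hr : ∀ x, m x⁻¹ = m x) (x : A) : sf p m x⁻¹ = sf p m x := by
  classical
  unfold sf
  rw [pr_inv, hr]
  exact if_congr (preg_inv x) rfl rfl

theorem CF_sq {m : A → ℤ} (hm : CF m) (q : ℕ) : CF (fun x => sf p m ((x ^ q)⁻¹)) := by
  intro g x
  have e : ((g * x * g⁻¹) ^ q)⁻¹ = g * (x ^ q)⁻¹ * g⁻¹ := by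
    rw [conj_pow]
    group
  change sf p m (((g * x * g⁻¹) ^ q)⁻¹) = sf p m ((x ^ q)⁻¹)
  rw [e, CF_sf hm]

open Classical in
/-- pairs in terms of the rotation, rational elements only -/
theorem bQ_rat {r s : ℕ} {E : A × A → A × A} {T : A → A → A × A}
    (hE : IsRq (p ^ r) E) (hT : IsPq (p ^ r) s E T) (hO : NoP p (⊤ : Subgroup A)) {m : A → ℤ}
    (hm : CF m) :
    (p : ℤ) * (ordProj[p] (Nat.card A) : ℕ) ∣ bQ p (⊤ : Subgroup A) (sf p m) -
      wX p (p ^ r) s (fun x => if PRG p x then sf p m ((x ^ p ^ r)⁻¹) else 0) := by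
  have h1 := bQ_congr hE hT hO (CF_sf (p := p) hm)
  have h2 := wX_rat hO (p ^ r) s (CF_sq (p := p) hm (p ^ r)) (fun j hj x => by
    have e : (x ^ j) ^ p ^ r = (x ^ p ^ r) ^ j := by rw [← pow_mul, ← pow_mul, mul_comm]
    change sf p m (((x ^ j) ^ p ^ r)⁻¹) = sf p m ((x ^ p ^ r)⁻¹)
    rw [e]
    exact sf_galJ hj _)
  have h3 := dvd_add h1 h2
  rwa [sub_add_sub_cancel] at h3

theorem PRG_inv (x : A) : PRG p x⁻¹ ↔ PRG p x := by
  have key : ∀ x : A, PRG p x → PRG p x⁻¹ := by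
    intro x h j hj hj1
    obtain ⟨c, hc⟩ := isConj_iff.1 (h j hj hj1)
    refine isConj_iff.2 ⟨c, ?_⟩
    rw [inv_pow, ← hc]
    group
  refine ⟨fun h => ?_, key x⟩
  have h1 := key _ h
  rwa [inv_inv] at h1

end

open Classical in
/-- `p = 2`, real weights: triples of involutions -/
theorem bQ_inv {A : Type*} [Group A] [Finite A] (hO : NoP 2 (⊤ : Subgroup A)) {m : A → ℤ}
    (hm : CF m) (hr : ∀ x, m x⁻¹ = m x) :
    (2 : ℤ) * (ordProj[2] (Nat.card A) : ℕ) ∣ bQ 2 (⊤ : Subgroup A) (sf 2 m) -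
      tM {z : A | z ^ 4 = 1} (fun x => if PRG 2 x then sf 2 m ((x ^ 4)⁻¹) else 0) := by
  have : Fact (Nat.Prime 2) := ⟨Nat.prime_two⟩
  have h1 := bQ_rat (p := 2) (r := 2) (s := 2) (E := Eq4) (T := Tq4) (A := A)
    (by norm_num; exact Eq4_isRq) (by norm_num; exact Tq4_isPq) hO hm
  norm_num at h1
  set M : A → ℤ := fun x => if PRG 2 x then sf 2 m ((x ^ 4)⁻¹) else 0 with hM
  have hMr : ∀ x, M x⁻¹ = M x := by
    intro x
    have e : ((x⁻¹) ^ 4)⁻¹ = ((x ^ 4)⁻¹)⁻¹ := by rw [inv_pow]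
    simp only [hM]
    rw [e, sf_inv hr]
    exact if_congr (PRG_inv x) rfl rfl
  have hMc : CF M := by
    intro g x
    have h := CF_sq (p := 2) hm 4 g x
    simp only [hM]
    simp only at h
    rw [h]
    exact if_congr (PRG_conj g x) rfl rfl
  rw [wX_eq_pM hMr] at h1
  have h2 := pM_congr_tM hO (P := {z : A | z ^ 4 = 1}) (fun g x => by
    change (g * x * g⁻¹) ^ 4 = 1 ↔ x ^ 4 = 1
    rw [conj_pow, conj_eq_one_iff]) (fun x => by
    change (x⁻¹) ^ 4 = 1 ↔ x ^ 4 = 1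
    rw [inv_pow, inv_eq_one]) hMc hMr
  push_cast at h2 ⊢
  have h3 := dvd_add h1 h2
  rwa [sub_add_sub_cancel] at h3

section
variable {p : ℕ} [Fact p.Prime] {k : Type v} [Field k] [IsAlgClosed k] [CharP k p]

/-- BAW modulo `p`, pairs with weights -/
theorem bawp_iff_bQ :
    (∀ (G : Type u) [Group G] [Finite G] (b : MonoidAlgebra k G), IsBlock (⊤ : Subgroup G) b →
      ∃ t : ℤ, gap p (⊤ : Subgroup G) ⊤ b = (p : ℚ) * t) ↔
    (∀ (G : Type u) [Group G] [Finite G] (m : G → ℤ), IsWt p ⊤ m → NoP p (⊤ : Subgroup G) →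
      (p : ℤ) * (ordProj[p] (Nat.card G) : ℕ) ∣ bQ p (⊤ : Subgroup G) (sf p m)) := by
  rw [baw_iff_chains, ← eE_iff_bQ]
  constructor
  · intro h G _ _ m hm
    rw [← eA_iff hm, eA_sub_eE]
    exact h G m hm
  · intro h G _ _ m hm
    rw [← eA_sub_eE, eA_iff hm]
    exact h G m hm

/-- **The blockwise weight conjecture and pairs of elements.** -/
theorem baw_iff_pairs :
    (∀ (G : Type u) [Group G] [Finite G] (b : MonoidAlgebra k G), IsBlock (⊤ : Subgroup G) b →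
      gap p (⊤ : Subgroup G) ⊤ b = 0) ↔
    (∀ (G : Type u) [Group G] [Finite G], NoP p (⊤ : Subgroup G) → ∀ c : G, Preg p c →
      p * ordProj[p] (Nat.card G) ∣ Nat.card {y : G × G // ¬ Preg p (cmt y.1 y.2) ∧
        IsConj c (pr p (cmt y.1 y.2)) ∧
        ∀ w : G, Preg p w → w ∈ Subgroup.closure ({y.1, y.2} : Set G)}) := by
  constructor
  · intro h G _ _ hG c hc
    have h1 := (bawp_iff_bQ (p := p) (k := k)).1 (fun G _ _ b hb => ⟨0, by
      rw [h G b hb]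
      simp⟩)
    have h2 := (bQ_cls (G := G) ((p : ℤ) * (ordProj[p] (Nat.card G) : ℕ))).1
      (fun m hm => h1 G m hm hG) c hc
    exact_mod_cast h2
  · intro h
    refine amp (p := p) ?_
    refine (bawp_iff_bQ (p := p) (k := k)).2 (fun G _ _ m hm hG => ?_)
    refine (bQ_cls (G := G) ((p : ℤ) * (ordProj[p] (Nat.card G) : ℕ))).2 (fun c hc => ?_) m hm
    exact_mod_cast h G hG c hc

/-- **The blockwise weight conjecture and pairs of elements of given orders.** -/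
theorem baw_iff_rot {r s : ℕ} (E : ∀ (X : Type u) [Group X], X × X → X × X)
    (hE : ∀ (X : Type u) [Group X], IsRq (p ^ r) (E X))
    (T : ∀ (X : Type u) [Group X], X → X → X × X)
    (hT : ∀ (X : Type u) [Group X], IsPq (p ^ r) s (E X) (T X)) :
    (∀ (G : Type u) [Group G] [Finite G] (b : MonoidAlgebra k G), IsBlock (⊤ : Subgroup G) b →
      gap p (⊤ : Subgroup G) ⊤ b = 0) ↔
    (∀ (G : Type u) [Group G] [Finite G], NoP p (⊤ : Subgroup G) → ∀ c : G, Preg p c →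
      p * ordProj[p] (Nat.card G) ∣ Nat.card {y : G × G // y.1 ^ s = 1 ∧ y.2 ^ p ^ r = 1 ∧
        y.1 * y.2 ∈ RC p (p ^ r) c ∧
        ∀ w : G, Preg p w → w ∈ Subgroup.closure ({y.1, y.2} : Set G)}) := by
  classical
  constructor
  · intro h G _ _ hG c hc
    have h1 := (bawp_iff_bQ (p := p) (k := k)).1 (fun G _ _ b hb => ⟨0, by
      rw [h G b hb]
      simp⟩)
    have h2 := (wX_cls (G := G) r s ((p : ℤ) * (ordProj[p] (Nat.card G) : ℕ))).1
      (fun m hm => by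
        have h3 := bQ_rat (hE G) (hT G) hG (CF_of_wt hm)
        exact (dvd_sub_right (h1 G m hm hG)).1 h3) c hc
    exact_mod_cast h2
  · intro h
    refine amp (p := p) ?_
    refine (bawp_iff_bQ (p := p) (k := k)).2 (fun G _ _ m hm hG => ?_)
    have h2 := (wX_cls (G := G) r s ((p : ℤ) * (ordProj[p] (Nat.card G) : ℕ))).2
      (fun c hc => by exact_mod_cast h G hG c hc) m hm
    have h3 := bQ_rat (hE G) (hT G) hG (CF_of_wt hm)
    have h4 := dvd_add h3 h2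
    rwa [sub_add_cancel] at h4

end

/-- `p = 3`: pairs of elements of order 3 whose product has order divisible by 9 -/
theorem baw_iff_three {k : Type v} [Field k] [IsAlgClosed k] [CharP k 3] :
    (∀ (G : Type u) [Group G] [Finite G] (b : MonoidAlgebra k G), IsBlock (⊤ : Subgroup G) b →
      gap 3 (⊤ : Subgroup G) ⊤ b = 0) ↔
    (∀ (G : Type u) [Group G] [Finite G], NoP 3 (⊤ : Subgroup G) → ∀ c : G, Preg 3 c →
      3 * ordProj[3] (Nat.card G) ∣ Nat.card {y : G × G // y.1 ^ 3 = 1 ∧ y.2 ^ 3 = 1 ∧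
        y.1 * y.2 ∈ RC 3 3 c ∧
        ∀ w : G, Preg 3 w → w ∈ Subgroup.closure ({y.1, y.2} : Set G)}) := by
  have : Fact (Nat.Prime 3) := ⟨Nat.prime_three⟩
  have h := baw_iff_rot (p := 3) (k := k) (r := 1) (s := 3) (fun X _ => Eq3)
    (fun X _ => by norm_num; exact Eq3_isRq) (fun X _ => Tq3)
    (fun X _ => by norm_num; exact Tq3_isPq)
  simpa only [pow_one] using h

/-- `p = 2`: pairs of elements of order 2 and 4 whose product has order divisible by 8 -/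
theorem baw_iff_two {k : Type v} [Field k] [IsAlgClosed k] [CharP k 2] :
    (∀ (G : Type u) [Group G] [Finite G] (b : MonoidAlgebra k G), IsBlock (⊤ : Subgroup G) b →
      gap 2 (⊤ : Subgroup G) ⊤ b = 0) ↔
    (∀ (G : Type u) [Group G] [Finite G], NoP 2 (⊤ : Subgroup G) → ∀ c : G, Preg 2 c →
      2 * ordProj[2] (Nat.card G) ∣ Nat.card {y : G × G // y.1 ^ 2 = 1 ∧ y.2 ^ 4 = 1 ∧
        y.1 * y.2 ∈ RC 2 4 c ∧
        ∀ w : G, Preg 2 w → w ∈ Subgroup.closure ({y.1, y.2} : Set G)}) := by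
  have : Fact (Nat.Prime 2) := ⟨Nat.prime_two⟩
  have h := baw_iff_rot (p := 2) (k := k) (r := 2) (s := 2) (fun X _ => Eq4)
    (fun X _ => by norm_num; exact Eq4_isRq) (fun X _ => Tq4)
    (fun X _ => by norm_num; exact Tq4_isPq)
  have e : (2 : ℕ) ^ 2 = 4 := by norm_num
  simpa only [e] using h

/-- real blocks, pairs -/
theorem real_blocks_bQ {k : Type v} [Field k] [IsAlgClosed k] [CharP k 2]
    (h : ∀ (X : Type u) [Group X] [Finite X], NoP 2 (⊤ : Subgroup X) → ∀ m : X → ℤ,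
      IsWt 2 ⊤ m → (∀ x, m x⁻¹ = m x) →
      (2 : ℤ) * (ordProj[2] (Nat.card X) : ℕ) ∣ bQ 2 (⊤ : Subgroup X) (sf 2 m))
    (G : Type u) [Group G] [Finite G] {e : MonoidAlgebra k G} (he : IsBlock (⊤ : Subgroup G) e)
    (hreal : ∀ x, e.coeff x⁻¹ = e.coeff x) :
    ∃ t : ℤ, gap 2 (⊤ : Subgroup G) ⊤ e = (2 : ℚ) * t := by
  have : Fintype G := Fintype.ofFinite G
  have : Fact (Nat.Prime 2) := ⟨Nat.prime_two⟩
  have key := Bw.gap_of_Lam (p := 2) he ?_
  · exact_mod_cast key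
  refine Bw.blk_of_real (p := 2) (Θ := fun z => Lam 2 z) Lam_add Lam_smul
    (fun m hm hr => ?_) he hreal
  obtain ⟨t, ht, ht'⟩ := Lam_zel (k := k) hm
  have h1 : (2 : ℤ) * (Nat.card G : ℤ) ∣ nL 2 (⊤ : Subgroup G) m - P0c8ca5.wS 2 m := by
    have h2 := LocAux.wS_of_eL (p := 2) G hm (fun Q _ => ?_)
    · exact_mod_cast h2
    have h3 : IsWt 2 (⊤ : Subgroup (NQ Q)) (mb Q m) := mb_isWt Q hm
    have h3r := Bw.mb_real Q hr
    refine LocAux.eL_of_eA (NQ Q) h3 (eA_of_bQ h3 fun U hU => ?_)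
    rw [← bQ_dn, ← sf_dn]
    have h4 := h ↥U ((NoP_dn U).2 hU) (fun x => mb Q m x) (IsWt_dn U h3) (fun x => by
      rw [Subgroup.coe_inv]
      exact h3r _)
    exact_mod_cast h4
  have hA : (Nat.card G : ℤ) ≠ 0 := by exact_mod_cast (Nat.card_pos (α := G)).ne'
  rw [ht, mul_comm (2 : ℤ)] at h1
  have h3 : (2 : ℤ) ∣ t := Int.dvd_of_mul_dvd_mul_left hA h1
  rw [← ht']
  exact (CharP.intCast_eq_zero_iff k 2 t).2 (by exact_mod_cast h3)

/-- **The blockwise weight conjecture at `p = 2` and regular maps of type `{4, n}`.** -/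
theorem baw_iff_maps {k : Type v} [Field k] [IsAlgClosed k] [CharP k 2] :
    (∀ (G : Type u) [Group G] [Finite G] (b : MonoidAlgebra k G), IsBlock (⊤ : Subgroup G) b →
      gap 2 (⊤ : Subgroup G) ⊤ b = 0) ↔
    (∀ (G : Type u) [Group G] [Finite G], NoP 2 (⊤ : Subgroup G) → ∀ c : G, Preg 2 c →
      2 * ordProj[2] (Nat.card G) ∣ Nat.card {y : G × G × G // y.1 ^ 2 = 1 ∧ y.2.1 ^ 2 = 1 ∧
        y.2.2 ^ 2 = 1 ∧ (y.1 * y.2.2) ^ 2 = 1 ∧ (y.1 * y.2.1) ^ 4 = 1 ∧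
        y.2.1 * y.2.2 ∈ RC 2 4 c ∧
        ∀ w : G, Preg 2 w → w ∈ Subgroup.closure ({y.1, y.2.1, y.2.2} : Set G)}) := by
  classical
  have : Fact (Nat.Prime 2) := ⟨Nat.prime_two⟩
  constructor
  · intro h G _ _ hG c hc
    have h1 := (bawp_iff_bQ (p := 2) (k := k)).1 (fun G _ _ b hb => ⟨0, by
      rw [h G b hb]
      simp⟩)
    have h2 := (tM_cls (G := G) ((2 : ℤ) * (ordProj[2] (Nat.card G) : ℕ))).1
      (fun m hm hr => by
        have h3 := bQ_inv hG (CF_of_wt hm) hr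
        have h4 := h1 G m hm hG
        push_cast at h3 h4 ⊢
        exact (dvd_sub_right h4).1 h3) c hc
    exact_mod_cast h2
  · intro h
    refine amp (p := 2) (fun G _ _ b hb => ?_)
    have key := Bw.all_blocks (k := k) (fun G _ _ e he hreal => ?_) G b hb
    · exact_mod_cast key
    refine real_blocks_bQ (fun X _ _ hO m hm hr => ?_) G he hreal
    have h1 := bQ_inv hO (CF_of_wt hm) hr
    have h2 := (tM_cls (G := X) ((2 : ℤ) * (ordProj[2] (Nat.card X) : ℕ))).2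
      (fun c hc => by exact_mod_cast h X hO c hc) m hm hr
    have h4 := dvd_add h1 h2
    rwa [sub_add_cancel] at h4

end Pool.Agent.Lib.P0c8ca5.Bx
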