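import Mathlib
import Pool.Agent.Lib.P0c8ca5Bw.Rl

/-!
# Lm: block idempotents as combinations of class sums in their support

PROOF. As `blk_of_wt` and `blk_of_real` (P0c8ca5Bw.Rl); `b = ∑ K, b.coeff K.out • zel k (1_K)`, the sum over the classes `K` with `b.coeff K.out ≠ 0` (of p-regular elements by `osima`). In `blk_of_real'` the sum is over the
pairs `K, K⁻¹`: `m = 1_K + 1_{K⁻¹}` (or `1_K` if `K = K⁻¹`).
-/

namespace Pool.Agent.Lib.P0c8ca5.Bx

open MonoidAlgebra

set_option linter.unusedSectionVars false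

variable {p : ℕ} {k : Type*} [Field k] {A : Type*} [Group A] [Fintype A]
variable [Fact p.Prime] [CharP k p] [IsAlgClosed k]

namespace LmAux

open TFinAux Bw.RlAux

theorem in_of_icl {X : Cl (⊤ : Subgroup A) (Preg p)} {x : A} (h : icl p X x ≠ 0) :
    InCl (⊤ : Subgroup A) (Preg p) X x := by
  by_contra h1
  exact h (if_neg h1)

theorem co_of_in {b : MonoidAlgebra k A} (hb : IsBlock (⊤ : Subgroup A) b)
    {X : Cl (⊤ : Subgroup A) (Preg p)} {x : A} (h : InCl (⊤ : Subgroup A) (Preg p) X x) :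
    b.coeff x = b.coeff (X.out : A) := by
  obtain ⟨g, _, hg⟩ := InCl_out_conj h
  rw [hg, hb.invBy g (Subgroup.mem_top g)]

theorem co_ci {b : MonoidAlgebra k A} (hb : IsBlock (⊤ : Subgroup A) b)
    (hr : ∀ x, b.coeff x⁻¹ = b.coeff x) (X : Cl (⊤ : Subgroup A) (Preg p)) :
    b.coeff ((ci X).out : A) = b.coeff (X.out : A) := by
  rw [← co_of_in hb (in_ci (InCl_out X)), hr]

end LmAux

open TFinAux Bw.RlAux LmAux

theorem blk_of_wt' {Θ : MonoidAlgebra k A → k} (h1 : ∀ y z, Θ (y + z) = Θ y + Θ z)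
    (h2 : ∀ (c : k) z, Θ (c • z) = c * Θ z) {b : MonoidAlgebra k A}
    (hb : IsBlock (⊤ : Subgroup A) b)
    (h : ∀ m : A → ℤ, IsWt p ⊤ m → (∀ x, m x ≠ 0 → b.coeff x ≠ 0) → Θ (zel k m) = 0) :
    Θ b = 0 := by
  letI : Fintype (Cl (⊤ : Subgroup A) (Preg p)) := Fintype.ofFinite _
  rw [blk_eq_sum (p := p) hb, th_sum h1 h2]
  refine Finset.sum_eq_zero (fun X _ => ?_)
  rw [h2]
  by_cases hX : b.coeff (X.out : A) = 0
  · rw [hX, zero_mul]
  · rw [h _ (icl_isWt X), mul_zero]
    intro x hx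
    rw [co_of_in hb (in_of_icl hx)]
    exact hX

theorem blk_of_real' {Θ : MonoidAlgebra k A → k} (h1 : ∀ y z, Θ (y + z) = Θ y + Θ z)
    (h2 : ∀ (c : k) z, Θ (c • z) = c * Θ z) {b : MonoidAlgebra k A}
    (hb : IsBlock (⊤ : Subgroup A) b) (hr : ∀ x, b.coeff x⁻¹ = b.coeff x)
    (h : ∀ m : A → ℤ, IsWt p ⊤ m → (∀ x, m x⁻¹ = m x) → (∀ x, m x ≠ 0 → b.coeff x ≠ 0) →
      Θ (zel k m) = 0) : Θ b = 0 := by
  classical
  letI : Fintype (Cl (⊤ : Subgroup A) (Preg p)) := Fintype.ofFinite _
  rw [blk_eq_sum (p := p) hb, th_sum h1 h2]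
  refine Finset.sum_involution (fun X _ => ci X) ?_ ?_ (fun X _ => Finset.mem_univ _)
    (fun X _ => ci_ci X)
  · intro X _
    rw [h2, h2, co_ci hb hr]
    by_cases hX : b.coeff (X.out : A) = 0
    · rw [hX, zero_mul, zero_mul, add_zero]
    rw [← mul_add, ← h1, ← zel_add]
    have hw : IsWt p (⊤ : Subgroup A) (fun x => icl p X x + icl p (ci X) x) := by
      constructor
      · intro g hg x
        rw [(icl_isWt X).conj g hg, (icl_isWt (ci X)).conj g hg]
      · intro x hx
        by_contra h3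
        apply hx
        have e1 : icl p X x = 0 := by
          by_contra h4
          exact h3 ((icl_isWt X).reg x h4)
        have e2 : icl p (ci X) x = 0 := by
          by_contra h4
          exact h3 ((icl_isWt (ci X)).reg x h4)
        rw [e1, e2, add_zero]
    rw [h _ hw, mul_zero]
    · intro x
      change icl p X x⁻¹ + icl p (ci X) x⁻¹ = icl p X x + icl p (ci X) x
      rw [icl_ci, icl_ci, inv_inv, add_comm]
    · intro x hx
      by_cases e1 : icl p X x = 0
      · have e2 : icl p (ci X) x ≠ 0 := by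
          intro e2
          apply hx
          rw [e1, e2, add_zero]
        rw [co_of_in hb (in_of_icl e2), co_ci hb hr]
        exact hX
      · rw [co_of_in hb (in_of_icl e1)]
        exact hX
  · intro X _ hX hE
    apply hX
    rw [h2]
    by_cases hX0 : b.coeff (X.out : A) = 0
    · rw [hX0, zero_mul]
    rw [h _ (icl_isWt X), mul_zero]
    · intro x
      have h3 := icl_ci X x
      rw [hE] at h3
      exact h3.symm
    · intro x hx
      rw [co_of_in hb (in_of_icl hx)]
      exact hX0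

end Pool.Agent.Lib.P0c8ca5.Bx
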