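import Mathlib
import Pool.Agent.Lib.P0c8ca5Bx.Fin
import Pool.Agent.Lib.P0c8ca5Bx.Lm
import Pool.Agent.Lib.P0c8ca5Bx.Cop

/-!
# Blockwise congruences

`gap_of_sup`: let `e` be a block of `G`, `q = p ^ r` such that there is a rotation of order `q`.
Suppose that for all p-subgroups `Q`, all `c` in `N(Q)` with `e_c ≠ 0` and all p-elements `x` of `N(Q)`
with `x ^ q ∉ Q` that commute with `c` modulo `Q`, `x` is not p-rational in the centralizer of `c`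
modulo `Q`. Then `l(B) = w(B)` modulo `p`. `gap_of_rsup`: `p = 2`, real blocks.
-/

namespace Pool.Agent.Lib.P0c8ca5.Bx

open MonoidAlgebra TFinAux

universe u v

theorem mb_ne {G : Type*} [Group G] {Q : Subgroup G} {m : G → ℤ} {y : NQ Q} (h : mb Q m y ≠ 0) :
    ∃ c : ↥(Subgroup.normalizer (Q : Set G)), (QuotientGroup.mk c : NQ Q) = y ∧ m (c : G) ≠ 0 := by
  by_contra h1
  push Not at h1
  apply h
  unfold mb
  refine finsum_eq_zero_of_forall_eq_zero (fun c => ?_)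
  exact h1 c.1 c.2

/-- from `eE` of the sections to the gap, weights supported in the support of the block -/
theorem gap_of_wt {p : ℕ} [Fact p.Prime] {k : Type v} [Field k] [IsAlgClosed k] [CharP k p]
    (G : Type u) [Group G] [Finite G] {e : MonoidAlgebra k G} (he : IsBlock (⊤ : Subgroup G) e)
    (h : ∀ m : G → ℤ, IsWt p ⊤ m → (∀ x, m x ≠ 0 → e.coeff x ≠ 0) → ∀ Q : Subgroup G,
      IsPGroup p Q → ∀ U : Subgroup (NQ Q), NoP p (⊤ : Subgroup ↥U) →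
      (p : ℤ) * (ordProj[p] (Nat.card U) : ℕ) ∣
        bQ p (⊤ : Subgroup ↥U) (sf p (fun x : ↥U => mb Q m x))) :
    ∃ t : ℤ, gap p (⊤ : Subgroup G) ⊤ e = (p : ℚ) * t := by
  have : Fintype G := Fintype.ofFinite G
  refine Bw.gap_of_Lam he ?_
  refine blk_of_wt' (p := p) (Θ := fun z => Lam p z) Lam_add Lam_smul he (fun m hm hs => ?_)
  obtain ⟨t, ht, ht'⟩ := Lam_zel (k := k) hm
  have h1 : (p : ℤ) * (Nat.card G : ℤ) ∣ nL p (⊤ : Subgroup G) m - P0c8ca5.wS p m := by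
    refine LocAux.wS_of_eL (p := p) G hm (fun Q hQ => ?_)
    have h3 : IsWt p (⊤ : Subgroup (NQ Q)) (mb Q m) := mb_isWt Q hm
    refine LocAux.eL_of_eA (NQ Q) h3 (eA_of_bQ h3 fun U hU => ?_)
    rw [← bQ_dn, ← sf_dn]
    exact h m hm hs Q hQ U ((NoP_dn U).2 hU)
  have hA : (Nat.card G : ℤ) ≠ 0 := by exact_mod_cast (Nat.card_pos (α := G)).ne'
  rw [ht, mul_comm (p : ℤ)] at h1
  have h3 : (p : ℤ) ∣ t := Int.dvd_of_mul_dvd_mul_left hA h1
  rw [← ht']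
  exact (CharP.intCast_eq_zero_iff k p t).2 h3

/-- the same for real blocks, real weights -/
theorem gap_of_rwt {k : Type v} [Field k] [IsAlgClosed k] [CharP k 2]
    (G : Type u) [Group G] [Finite G] {e : MonoidAlgebra k G} (he : IsBlock (⊤ : Subgroup G) e)
    (hreal : ∀ x, e.coeff x⁻¹ = e.coeff x)
    (h : ∀ m : G → ℤ, IsWt 2 ⊤ m → (∀ x, m x⁻¹ = m x) → (∀ x, m x ≠ 0 → e.coeff x ≠ 0) →
      ∀ Q : Subgroup G, IsPGroup 2 Q → ∀ U : Subgroup (NQ Q), NoP 2 (⊤ : Subgroup ↥U) →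
      (2 : ℤ) * (ordProj[2] (Nat.card U) : ℕ) ∣
        bQ 2 (⊤ : Subgroup ↥U) (sf 2 (fun x : ↥U => mb Q m x))) :
    ∃ t : ℤ, gap 2 (⊤ : Subgroup G) ⊤ e = (2 : ℚ) * t := by
  have : Fintype G := Fintype.ofFinite G
  have : Fact (Nat.Prime 2) := ⟨Nat.prime_two⟩
  have key := Bw.gap_of_Lam (p := 2) he ?_
  · exact_mod_cast key
  refine blk_of_real' (p := 2) (Θ := fun z => Lam 2 z) Lam_add Lam_smul he hreal
    (fun m hm hr hs => ?_)
  obtain ⟨t, ht, ht'⟩ := Lam_zel (k := k) hm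
  have h1 : (2 : ℤ) * (Nat.card G : ℤ) ∣ nL 2 (⊤ : Subgroup G) m - P0c8ca5.wS 2 m := by
    have h2 := LocAux.wS_of_eL (p := 2) G hm (fun Q hQ => ?_)
    · exact_mod_cast h2
    have h3 : IsWt 2 (⊤ : Subgroup (NQ Q)) (mb Q m) := mb_isWt Q hm
    refine LocAux.eL_of_eA (NQ Q) h3 (eA_of_bQ h3 fun U hU => ?_)
    rw [← bQ_dn, ← sf_dn]
    have h4 := h m hm hr hs Q hQ U ((NoP_dn U).2 hU)
    exact_mod_cast h4
  have hA : (Nat.card G : ℤ) ≠ 0 := by exact_mod_cast (Nat.card_pos (α := G)).ne'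
  rw [ht, mul_comm (2 : ℤ)] at h1
  have h3 : (2 : ℤ) ∣ t := Int.dvd_of_mul_dvd_mul_left hA h1
  rw [← ht']
  exact (CharP.intCast_eq_zero_iff k 2 t).2 (by exact_mod_cast h3)

/-- what a nonzero weight at a rational element gives -/
theorem of_ne {p : ℕ} [Fact p.Prime] {G : Type u} [Group G] [Finite G] {r : ℕ} {Q : Subgroup G}
    (hQ : IsPGroup p Q) {U : Subgroup (NQ Q)} {m : G → ℤ} {x : ↥U} (hx : PRG p x)
    (hne : sf p (fun x : ↥U => mb Q m x) ((x ^ p ^ r)⁻¹) ≠ 0) :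
    ∃ c y : ↥(Subgroup.normalizer (Q : Set G)), m (c : G) ≠ 0 ∧ Pel p (y : G) ∧
      (y : G) ^ p ^ r ∉ Q ∧ Commute (QuotientGroup.mk y : NQ Q) (QuotientGroup.mk c) ∧
      (∀ j : ℕ, j ≡ 1 [MOD p] → ∃ g : NQ Q, Commute g (QuotientGroup.mk c) ∧
        g * QuotientGroup.mk y * g⁻¹ = (QuotientGroup.mk y) ^ j) ∧
      (QuotientGroup.mk c : NQ Q) = (((pr p x) ^ p ^ r)⁻¹ : ↥U) ∧
      (QuotientGroup.mk y : NQ Q) = (x * (pr p x)⁻¹ : ↥U) := by
  have h1 := sf_pow (p := p) r (fun x : ↥U => mb Q m x) x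
  have h2 : (x * (pr p x)⁻¹) ^ p ^ r ≠ 1 := fun h => hne (h1.1 h)
  rw [h1.2 h2] at hne
  obtain ⟨c, hc, hmc⟩ := mb_ne hne
  obtain ⟨y, hy⟩ := QuotientGroup.mk_surjective (((x * (pr p x)⁻¹ : ↥U)) : NQ Q)
  obtain ⟨n, hn⟩ := exists_pow_mul_inv_pr (p := p) x
  have hpy : Pel p (QuotientGroup.mk y : NQ Q) := by
    refine ⟨n, ?_⟩
    rw [hy, ← Subgroup.coe_pow, hn]
    rfl
  have hcom : Commute x (pr p x) := (Commute.refl x).pow_right _
  have hcom2 : Commute (x * (pr p x)⁻¹) (pr p x) := hcom.mul_left (Commute.refl _).inv_left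
  refine ⟨c, y, hmc, pel_lift hQ hpy, ?_, ?_, ?_, hc, hy⟩
  · intro h3
    apply h2
    have h4 : (QuotientGroup.mk (y ^ p ^ r) : NQ Q) = 1 := by
      rw [QuotientGroup.eq_one_iff, Subgroup.mem_subgroupOf, Subgroup.coe_pow]
      exact h3
    rw [QuotientGroup.mk_pow, hy, ← Subgroup.coe_pow] at h4
    exact Subtype.ext h4
  · rw [hy, hc]
    have h5 : Commute (x * (pr p x)⁻¹) (((pr p x) ^ p ^ r)⁻¹) := (hcom2.pow_right _).inv_right
    exact h5.map U.subtype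
  · intro j hj
    obtain ⟨g, hg1, hg2⟩ := (PRG_iff x).1 hx j hj
    refine ⟨(g : NQ Q), ?_, ?_⟩
    · rw [hc]
      have h5 : Commute g (((pr p x) ^ p ^ r)⁻¹) := (hg1.pow_right _).inv_right
      exact h5.map U.subtype
    · rw [hy]
      have h5 := congrArg Subtype.val hg2
      simpa using h5

/-- **Blockwise congruence.** -/
theorem gap_of_sup {p r s : ℕ} [Fact p.Prime] {k : Type v} [Field k] [IsAlgClosed k] [CharP k p]
    (E : ∀ (X : Type u) [Group X], X × X → X × X)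
    (hE : ∀ (X : Type u) [Group X], IsRq (p ^ r) (E X))
    (T : ∀ (X : Type u) [Group X], X → X → X × X)
    (hT : ∀ (X : Type u) [Group X], IsPq (p ^ r) s (E X) (T X))
    (G : Type u) [Group G] [Finite G] {e : MonoidAlgebra k G} (he : IsBlock (⊤ : Subgroup G) e)
    (h : ∀ Q : Subgroup G, IsPGroup p Q → ∀ c x : ↥(Subgroup.normalizer (Q : Set G)),
      e.coeff (c : G) ≠ 0 → Pel p (x : G) → (x : G) ^ p ^ r ∉ Q →
      Commute (QuotientGroup.mk x : NQ Q) (QuotientGroup.mk c) →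
      ∃ j : ℕ, j ≡ 1 [MOD p] ∧ ∀ g : NQ Q, Commute g (QuotientGroup.mk c) →
        g * QuotientGroup.mk x * g⁻¹ ≠ (QuotientGroup.mk x) ^ j) :
    ∃ t : ℤ, gap p (⊤ : Subgroup G) ⊤ e = (p : ℚ) * t := by
  classical
  refine gap_of_wt G he (fun m hm hs Q hQ U hU => ?_)
  have hm' : IsWt p (⊤ : Subgroup ↥U) (fun x : ↥U => mb Q m x) := IsWt_dn U (mb_isWt Q hm)
  have h1 := bQ_rat (hE ↥U) (hT ↥U) hU (CF_of_wt hm')
  have h2 : wX p (p ^ r) s (fun x : ↥U => if PRG p x then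
      sf p (fun x : ↥U => mb Q m x) ((x ^ p ^ r)⁻¹) else 0) = 0 := by
    unfold wX
    refine finsum_eq_zero_of_forall_eq_zero (fun y => ?_)
    beta_reduce
    by_cases h3 : PRG p y.1
    · by_cases h4 : sf p (fun x : ↥U => mb Q m x) ((y.1 ^ p ^ r)⁻¹) = 0
      · rw [if_pos h3, h4, ite_self]
      · exfalso
        obtain ⟨c, x, hc, hx1, hx2, hx3, hx4, _⟩ := of_ne hQ h3 h4
        obtain ⟨j, hj1, hj2⟩ := h Q hQ c x (hs _ hc) hx1 hx2 hx3
        obtain ⟨g, hg1, hg2⟩ := hx4 j hj1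
        exact hj2 g hg1 hg2
    · rw [if_neg h3, ite_self]
  rwa [h2, sub_zero] at h1

theorem rho_facts {G : Type*} [Group G] {a b c : G} (a1 : a ^ 2 = 1) (a2 : b ^ 2 = 1) (a3 : c ^ 2 = 1)
    (a5 : a * c = c * a) :
    (a * c) ^ 2 = 1 ∧ a * c * (a * b * c) * (a * c)⁻¹ = (a * b * c)⁻¹ := by
  have i1 : a⁻¹ = a := inv_eq_of_mul_eq_one_left (by rw [← pow_two, a1])
  have i2 : b⁻¹ = b := inv_eq_of_mul_eq_one_left (by rw [← pow_two, a2])
  have i3 : c⁻¹ = c := inv_eq_of_mul_eq_one_left (by rw [← pow_two, a3])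
  have b1 : (a * c) ^ 2 = 1 := by
    rw [a5, pow_two]
    calc c * a * (c * a) = c * (a * c) * a := by group
      _ = c * (c * a) * a := by rw [a5]
      _ = (c * c) * (a * a) := by group
      _ = 1 := by rw [← pow_two, ← pow_two, a1, a3, one_mul]
  refine ⟨b1, ?_⟩
  have e1 : (a * c)⁻¹ = a * c := inv_eq_of_mul_eq_one_left (by rw [← pow_two, b1])
  have e2 : (a * b * c)⁻¹ = c * b * a := by
    rw [mul_inv_rev, mul_inv_rev, i1, i2, i3, mul_assoc]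
  rw [e1, e2]
  calc a * c * (a * b * c) * (a * c)
      = (a * c) * a * b * (c * (a * c)) := by group
    _ = (c * a) * a * b * (c * (c * a)) := by rw [a5]
    _ = c * (a * a) * b * ((c * c) * a) := by group
    _ = c * b * a := by
      rw [← pow_two, ← pow_two, a1, a3, one_mul, mul_one]

/-- **Real 2-blocks.** Suppose that `e` is real and for all 2-subgroups `Q` there are no `c, x, ρ`
in `N(Q)` with `e_c ≠ 0`, `x` a 2-element commuting with `c` modulo `Q`, `x ^ 4 ∉ Q`, `ρ² ∈ Q`, `ρ` inverting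
`x` and `c` modulo `Q`, and `x` rational in the centralizer of `c` modulo `Q`. Then `l(B) = w(B)` modulo
`2`. -/
theorem gap_of_rsup {k : Type v} [Field k] [IsAlgClosed k] [CharP k 2]
    (G : Type u) [Group G] [Finite G] {e : MonoidAlgebra k G} (he : IsBlock (⊤ : Subgroup G) e)
    (hreal : ∀ x, e.coeff x⁻¹ = e.coeff x)
    (h : ∀ Q : Subgroup G, IsPGroup 2 Q → ∀ c x ρ : ↥(Subgroup.normalizer (Q : Set G)),
      e.coeff (c : G) ≠ 0 → Pel 2 (x : G) → (x : G) ^ 4 ∉ Q →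
      Commute (QuotientGroup.mk x : NQ Q) (QuotientGroup.mk c) → (ρ : G) ^ 2 ∈ Q →
      (QuotientGroup.mk ρ : NQ Q) * QuotientGroup.mk x * (QuotientGroup.mk ρ)⁻¹
        = (QuotientGroup.mk x)⁻¹ →
      (QuotientGroup.mk ρ : NQ Q) * QuotientGroup.mk c * (QuotientGroup.mk ρ)⁻¹
        = (QuotientGroup.mk c)⁻¹ →
      ∃ j : ℕ, j ≡ 1 [MOD 2] ∧ ∀ g : NQ Q, Commute g (QuotientGroup.mk c) →
        g * QuotientGroup.mk x * g⁻¹ ≠ (QuotientGroup.mk x) ^ j) :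
    ∃ t : ℤ, gap 2 (⊤ : Subgroup G) ⊤ e = (2 : ℚ) * t := by
  classical
  have : Fact (Nat.Prime 2) := ⟨Nat.prime_two⟩
  refine gap_of_rwt G he hreal (fun m hm hr hs Q hQ U hU => ?_)
  have hm' : IsWt 2 (⊤ : Subgroup ↥U) (fun x : ↥U => mb Q m x) := IsWt_dn U (mb_isWt Q hm)
  have hr' : ∀ x : ↥U, mb Q m ((x⁻¹ : ↥U) : NQ Q) = mb Q m (x : NQ Q) := by
    intro x
    rw [Subgroup.coe_inv]
    exact Bw.mb_real Q hr _
  have h1 := bQ_inv hU (CF_of_wt hm') hr'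
  have h2 : tM {z : ↥U | z ^ 4 = 1} (fun x : ↥U => if PRG 2 x then
      sf 2 (fun x : ↥U => mb Q m x) ((x ^ 4)⁻¹) else 0) = 0 := by
    unfold tM
    refine finsum_eq_zero_of_forall_eq_zero (fun y => ?_)
    by_cases h0 : y.1 ^ 2 = 1 ∧ y.2.1 ^ 2 = 1 ∧ y.2.2 ^ 2 = 1 ∧ y.1 * y.2.2 = y.2.2 * y.1 ∧
        y.1 * y.2.1 ∈ {z : ↥U | z ^ 4 = 1} ∧
        Opr 2 (⊤ : Subgroup ↥U) ≤ Subgroup.closure {y.1, y.2.1, y.2.2}
    swap
    · rw [if_neg h0]
    rw [if_pos h0]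
    beta_reduce
    by_cases h3 : PRG 2 (y.1 * y.2.1 * y.2.2)
    swap
    · rw [if_neg h3]
    rw [if_pos h3]
    by_contra h4
    obtain ⟨a1, a2, a3, a5, -, -⟩ := h0
    obtain ⟨c, x, hc, hx1, hx2, hx3, hx4, hx5, hx6⟩ := of_ne (p := 2) (r := 2) hQ h3 h4
    obtain ⟨b1, b2⟩ := rho_facts a1 a2 a3 a5
    set w : ↥U := y.1 * y.2.1 * y.2.2 with hw
    set ρ : ↥U := y.1 * y.2.2 with hρ
    have b3 : ∀ n : ℕ, ρ * w ^ n * ρ⁻¹ = (w ^ n)⁻¹ := by
      intro n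
      rw [← conj_pow, b2, inv_pow]
    have b4 : ρ * pr 2 w * ρ⁻¹ = (pr 2 w)⁻¹ := by
      unfold pr
      exact b3 _
    obtain ⟨ρ', hρ'⟩ := QuotientGroup.mk_surjective ((ρ : ↥U) : NQ Q)
    have f1 : (ρ' : G) ^ 2 ∈ Q := by
      have h5 : (QuotientGroup.mk (ρ' ^ 2) : NQ Q) = 1 := by
        rw [QuotientGroup.mk_pow, hρ', ← Subgroup.coe_pow, b1]
        rfl
      rw [QuotientGroup.eq_one_iff, Subgroup.mem_subgroupOf, Subgroup.coe_pow] at h5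
      exact h5
    have f2 : (QuotientGroup.mk ρ' : NQ Q) * QuotientGroup.mk x * (QuotientGroup.mk ρ')⁻¹
        = (QuotientGroup.mk x)⁻¹ := by
      rw [hρ', hx6]
      have h5 : ρ * (w * (pr 2 w)⁻¹) * ρ⁻¹ = (w * (pr 2 w)⁻¹)⁻¹ := by
        have h6 : Commute w (pr 2 w) := (Commute.refl w).pow_right _
        have e1 : ρ * (w * (pr 2 w)⁻¹) * ρ⁻¹ = (ρ * w * ρ⁻¹) * (ρ * pr 2 w * ρ⁻¹)⁻¹ := by group
        rw [e1, b2, b4, inv_inv, mul_inv_rev w, inv_inv]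
        exact (h6.inv_left).eq
      have h7 := congrArg Subtype.val h5
      simpa using h7
    have f3 : (QuotientGroup.mk ρ' : NQ Q) * QuotientGroup.mk c * (QuotientGroup.mk ρ')⁻¹
        = (QuotientGroup.mk c)⁻¹ := by
      rw [hρ', hx5]
      have h5 : ρ * (((pr 2 w) ^ 2 ^ 2)⁻¹) * ρ⁻¹ = ((((pr 2 w) ^ 2 ^ 2)⁻¹))⁻¹ := by
        have e1 : ρ * (((pr 2 w) ^ 2 ^ 2)⁻¹) * ρ⁻¹ = ((ρ * pr 2 w * ρ⁻¹) ^ 2 ^ 2)⁻¹ := by
          rw [conj_pow, conj_inv]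
        rw [e1, b4, inv_pow]
      have h7 := congrArg Subtype.val h5
      simpa using h7
    obtain ⟨j, hj1, hj2⟩ := h Q hQ c x ρ' (hs _ hc) hx1 (by norm_num at hx2; exact hx2) hx3 f1 f2 f3
    obtain ⟨g, hg1, hg2⟩ := hx4 j hj1
    exact hj2 g hg1 hg2
  rw [h2, sub_zero] at h1
  exact h1

end Pool.Agent.Lib.P0c8ca5.Bx
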